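import Mathlib.LinearAlgebra.Matrix.SchurComplement
import Mathlib.LinearAlgebra.Matrix.MvPolynomial
import Mathlib.RingTheory.Localization.FractionRing
import Mathlib.Tactic

/-!
# Bordered determinants

`BD Z C C' P M` is the determinant of the matrix `M` with borders: the rows and columns of the border
are combinations (`C` and `C'`) of the two rows of `P`.
-/

set_option autoImplicit false
set_option linter.unusedSectionVars false

open Matrix MvPolynomial

namespace Pool.Agent.Phi4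

section

variable {n k A B : Type} [CommRing A] [CommRing B] [Fintype n] [DecidableEq n] [Fintype k]
  [DecidableEq k]

/-- bordered determinant -/
def BD (Z : Matrix k k A) (C C' : Matrix k (Fin 2) A) (P : Matrix (Fin 2) n A) (M : Matrix n n A) :
    A := (fromBlocks Z (C * P) (-(C' * P)ᵀ) M).det

lemma map_BD (φ : A →+* B) (Z : Matrix k k A) (C C' : Matrix k (Fin 2) A)
    (P : Matrix (Fin 2) n A) (M : Matrix n n A) :
    φ (BD Z C C' P M) = BD (Z.map φ) (C.map φ) (C'.map φ) (P.map φ) (M.map φ) := by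
  unfold BD
  rw [RingHom.map_det, RingHom.mapMatrix_apply, fromBlocks_map, Matrix.map_mul, Matrix.map_neg,
    transpose_map, Matrix.map_mul]
  exact map_neg φ

lemma BD_field {K : Type} [Field K] (Z : Matrix k k K) (C C' : Matrix k (Fin 2) K)
    (P : Matrix (Fin 2) n K) (M : Matrix n n K) (h : M.det ≠ 0) :
    BD Z C C' P M = M.det * (Z + C * (P * M⁻¹ * Pᵀ) * C'ᵀ).det := by
  have : Invertible M := invertibleOfIsUnitDet M (isUnit_iff_ne_zero.2 h)
  unfold BD
  rw [det_fromBlocks₂₂, invOf_eq_nonsing_inv]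
  congr 2
  rw [transpose_mul, Matrix.mul_neg, sub_neg_eq_add]
  simp only [Matrix.mul_assoc]

/-- identities between natural functions may be verified over fields -/
lemma univ {ι : Type} (f g : ∀ (A : Type) [CommRing A], Matrix n n A → Matrix (Fin 2) n A →
      (ι → A) → A)
    (hf : ∀ (A B : Type) [CommRing A] [CommRing B] (φ : A →+* B) (M : Matrix n n A)
      (P : Matrix (Fin 2) n A) (w : ι → A), φ (f A M P w) = f B (M.map φ) (P.map φ) (φ ∘ w))
    (hg : ∀ (A B : Type) [CommRing A] [CommRing B] (φ : A →+* B) (M : Matrix n n A)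
      (P : Matrix (Fin 2) n A) (w : ι → A), φ (g A M P w) = g B (M.map φ) (P.map φ) (φ ∘ w))
    (h : ∀ (K : Type) [Field K] (M : Matrix n n K) (P : Matrix (Fin 2) n K) (w : ι → K),
      M.det ≠ 0 → f K M P w = g K M P w)
    (A : Type) [CommRing A] (M : Matrix n n A) (P : Matrix (Fin 2) n A) (w : ι → A) :
    f A M P w = g A M P w := by
  let S := (n × n) ⊕ (Fin 2 × n) ⊕ ι
  let R := MvPolynomial S ℤ
  let K := FractionRing R
  let M₀ : Matrix n n R := Matrix.of fun i j => X (Sum.inl (i, j))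
  let P₀ : Matrix (Fin 2) n R := Matrix.of fun i j => X (Sum.inr (Sum.inl (i, j)))
  let w₀ : ι → R := fun i => X (Sum.inr (Sum.inr i))
  have hinj : Function.Injective (algebraMap R K) := IsFractionRing.injective _ _
  have hdet : M₀.det ≠ 0 := by
    intro h0
    let φ : R →+* ℤ := eval₂Hom (Int.castRingHom ℤ)
      (Sum.elim (fun p : n × n => (1 : Matrix n n ℤ) p.1 p.2) (fun _ => 0))
    have h1 := congrArg φ h0
    rw [map_zero, RingHom.map_det] at h1
    have h2 : φ.mapMatrix M₀ = 1 := by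
      ext i j
      exact eval₂_X _ _ _
    rw [h2, det_one] at h1
    exact one_ne_zero h1
  have h1 : f R M₀ P₀ w₀ = g R M₀ P₀ w₀ := by
    apply hinj
    rw [hf, hg]
    apply h
    rw [← RingHom.mapMatrix_apply, ← RingHom.map_det]
    intro h2
    exact hdet (hinj (by rw [h2, map_zero]))
  let ψ : R →+* A := eval₂Hom (Int.castRingHom A) (Sum.elim (fun p : n × n => M p.1 p.2)
    (Sum.elim (fun p : Fin 2 × n => P p.1 p.2) w))
  have h2 := congrArg ψ h1
  rw [hf, hg] at h2
  have e1 : M₀.map ψ = M := by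
    ext i j
    exact eval₂_X _ _ _
  have e2 : P₀.map ψ = P := by
    ext i j
    exact eval₂_X _ _ _
  have e3 : ψ ∘ w₀ = w := by
    funext i
    exact eval₂_X _ _ _
  rwa [e1, e2, e3] at h2

/-! ### The state -/

/-- `a` -/
def sa (P : Matrix (Fin 2) n A) (M : Matrix n n A) : A :=
  BD (0 : Matrix (Fin 1) (Fin 1) A) !![1, 0] !![1, 0] P M

/-- `b` -/
def sb (P : Matrix (Fin 2) n A) (M : Matrix n n A) : A :=
  BD (0 : Matrix (Fin 1) (Fin 1) A) !![0, 1] !![0, 1] P M

/-- `r` -/
def sr (P : Matrix (Fin 2) n A) (M : Matrix n n A) : A :=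
  BD (0 : Matrix (Fin 1) (Fin 1) A) !![1, 0] !![0, 1] P M

/-- the transpose of `r` -/
def sr' (P : Matrix (Fin 2) n A) (M : Matrix n n A) : A :=
  BD (0 : Matrix (Fin 1) (Fin 1) A) !![0, 1] !![1, 0] P M

/-- `F` -/
def sF (P : Matrix (Fin 2) n A) (M : Matrix n n A) : A :=
  BD (0 : Matrix (Fin 2) (Fin 2) A) 1 1 P M

lemma map_sa (φ : A →+* B) (P : Matrix (Fin 2) n A) (M : Matrix n n A) :
    φ (sa P M) = sa (P.map φ) (M.map φ) := by
  unfold sa
  rw [map_BD]
  congr 1 <;> ext i j <;> fin_cases i <;> fin_cases j <;> simp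

lemma map_sb (φ : A →+* B) (P : Matrix (Fin 2) n A) (M : Matrix n n A) :
    φ (sb P M) = sb (P.map φ) (M.map φ) := by
  unfold sb
  rw [map_BD]
  congr 1 <;> ext i j <;> fin_cases i <;> fin_cases j <;> simp

lemma map_sr (φ : A →+* B) (P : Matrix (Fin 2) n A) (M : Matrix n n A) :
    φ (sr P M) = sr (P.map φ) (M.map φ) := by
  unfold sr
  rw [map_BD]
  congr 1 <;> ext i j <;> fin_cases i <;> fin_cases j <;> simp

lemma map_sr' (φ : A →+* B) (P : Matrix (Fin 2) n A) (M : Matrix n n A) :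
    φ (sr' P M) = sr' (P.map φ) (M.map φ) := by
  unfold sr'
  rw [map_BD]
  congr 1 <;> ext i j <;> fin_cases i <;> fin_cases j <;> simp

lemma map_sF (φ : A →+* B) (P : Matrix (Fin 2) n A) (M : Matrix n n A) :
    φ (sF P M) = sF (P.map φ) (M.map φ) := by
  unfold sF
  rw [map_BD]
  congr 1 <;> ext i j <;> fin_cases i <;> fin_cases j <;> simp

section field

variable {K : Type} [Field K] (P : Matrix (Fin 2) n K) (M : Matrix n n K) (h : M.det ≠ 0)

include h

lemma sa_field : sa P M = M.det * (P * M⁻¹ * Pᵀ) 0 0 := by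
  unfold sa
  rw [BD_field _ _ _ _ _ h]
  generalize P * M⁻¹ * Pᵀ = g
  rw [det_fin_one, Matrix.add_apply, Matrix.mul_apply, Fin.sum_univ_two, Matrix.mul_apply,
    Matrix.mul_apply, Fin.sum_univ_two, Fin.sum_univ_two]
  simp

lemma sb_field : sb P M = M.det * (P * M⁻¹ * Pᵀ) 1 1 := by
  unfold sb
  rw [BD_field _ _ _ _ _ h]
  generalize P * M⁻¹ * Pᵀ = g
  rw [det_fin_one, Matrix.add_apply, Matrix.mul_apply, Fin.sum_univ_two, Matrix.mul_apply,
    Matrix.mul_apply, Fin.sum_univ_two, Fin.sum_univ_two]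
  simp

lemma sr_field : sr P M = M.det * (P * M⁻¹ * Pᵀ) 0 1 := by
  unfold sr
  rw [BD_field _ _ _ _ _ h]
  generalize P * M⁻¹ * Pᵀ = g
  rw [det_fin_one, Matrix.add_apply, Matrix.mul_apply, Fin.sum_univ_two, Matrix.mul_apply,
    Matrix.mul_apply, Fin.sum_univ_two, Fin.sum_univ_two]
  simp

lemma sr'_field : sr' P M = M.det * (P * M⁻¹ * Pᵀ) 1 0 := by
  unfold sr'
  rw [BD_field _ _ _ _ _ h]
  generalize P * M⁻¹ * Pᵀ = g
  rw [det_fin_one, Matrix.add_apply, Matrix.mul_apply, Fin.sum_univ_two, Matrix.mul_apply,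
    Matrix.mul_apply, Fin.sum_univ_two, Fin.sum_univ_two]
  simp

lemma sF_field : sF P M = M.det * ((P * M⁻¹ * Pᵀ) 0 0 * (P * M⁻¹ * Pᵀ) 1 1 -
    (P * M⁻¹ * Pᵀ) 0 1 * (P * M⁻¹ * Pᵀ) 1 0) := by
  unfold sF
  rw [BD_field _ _ _ _ _ h]
  generalize P * M⁻¹ * Pᵀ = g
  rw [zero_add, Matrix.one_mul, transpose_one, Matrix.mul_one, det_fin_two]

end field

/-- the relation -/
lemma st_rel (P : Matrix (Fin 2) n A) (M : Matrix n n A) :
    M.det * sF P M = sa P M * sb P M - sr P M * sr' P M := by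
  refine univ (ι := Empty) (fun A _ M P _ => M.det * sF P M)
    (fun A _ M P _ => sa P M * sb P M - sr P M * sr' P M) ?_ ?_ ?_ A M P (fun i => i.elim)
  · intro A B _ _ φ M P w
    rw [map_mul, map_sF, RingHom.map_det, RingHom.mapMatrix_apply]
  · intro A B _ _ φ M P w
    rw [map_sub, map_mul, map_mul, map_sa, map_sb, map_sr, map_sr']
  · intro K _ M P w h
    rw [sF_field P M h, sa_field P M h, sb_field P M h, sr_field P M h, sr'_field P M h]
    ring

end

end Pool.Agent.Phi4
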