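import Pool.Agent.Phi4.Tri

/-!
# The state after adding an edge between the terminals; contraction
-/

set_option autoImplicit false
set_option linter.unusedSectionVars false

open Matrix MvPolynomial

namespace Pool.Agent.Phi4

section

variable {E W K N k n A B : Type} [CommRing A] [CommRing B] [DecidableEq W] [DecidableEq N]
  [DecidableEq E] [Fintype E] [Fintype W] [DecidableEq K] [Fintype K] [Fintype N]
  [DecidableEq k] [Fintype k] [DecidableEq n] [Fintype n]

/-- borders of the graph with more edges -/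
theorem BD_edges (Z : Matrix k k A) (C C' : Matrix k (Fin 2) A) (sK tK : K → Option (Fin 2))
    (g : Fin 2 → W) (s t : E → Option W) (y : K → A) (a : E → A) :
    BD Z C C' (TP (K ⊕ E) A g) (RM (Sum.elim (fun κ => (sK κ).map g) s)
      (Sum.elim (fun κ => (tK κ).map g) t) (Sum.elim y a)) =
    BD (fromBlocks Z 0 0 (diagonal y)) (fromRows C (gi sK tK)) (fromRows C' (gi sK tK))
      (TP E A g) (RM s t a) := by
  unfold BD
  rw [← det_submatrix_equiv_self ((Equiv.sumAssoc k K (E ⊕ W)).trans
    (Equiv.sumCongr (Equiv.refl k) (Equiv.sumAssoc K E W).symm))]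
  congr 1
  have hC : ∀ (κ : K) (w : W), (gi (A := A) (fun κ => (sK κ).map g) (fun κ => (tK κ).map g)) κ w =
      ((gi sK tK : Matrix K (Fin 2) A) * TP E A g) κ (Sum.inr w) := by
    intro κ w
    rw [Matrix.mul_apply]
    simp only [gi, TP, Matrix.of_apply, Sum.elim_inr, sub_mul, Finset.sum_sub_distrib]
    rw [map_ite, map_ite]
  have hC0 : ∀ (κ : K) (e : E), ((gi sK tK : Matrix K (Fin 2) A) *
      TP E A g) κ (Sum.inl e) = 0 := by
    intro κ e
    rw [Matrix.mul_apply]
    simp [TP]
  have h1 : ∀ (D : Matrix k (Fin 2) A) (x : k) (z : K ⊕ E), (D * TP (K ⊕ E) A g) x (Sum.inl z) =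
      0 := by
    intro D x z
    rw [Matrix.mul_apply]
    simp [TP]
  have h2 : ∀ (D : Matrix k (Fin 2) A) (x : k) (w : W), (D * TP (K ⊕ E) A g) x (Sum.inr w) =
      (D * TP E A g) x (Sum.inr w) := by
    intro D x w
    rw [Matrix.mul_apply, Matrix.mul_apply]
    rfl
  have h3 : ∀ (D : Matrix k (Fin 2) A) (x : k) (z : E), (D * TP E A g) x (Sum.inl z) = 0 := by
    intro D x z
    rw [Matrix.mul_apply]
    simp [TP]
  have h4 : ∀ (D : Matrix k (Fin 2) A) (x : k) (z : E ⊕ W),
      (fromRows D (gi sK tK : Matrix K (Fin 2) A) * TP E A g) (Sum.inl x) z =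
      (D * TP E A g) x z := by
    intro D x z
    rw [fromRows_mul, fromRows_apply_inl]
  have h5 : ∀ (D : Matrix k (Fin 2) A) (x : K) (z : E ⊕ W),
      (fromRows D (gi sK tK : Matrix K (Fin 2) A) * TP E A g) (Sum.inr x) z =
      ((gi sK tK : Matrix K (Fin 2) A) * TP E A g) x z := by
    intro D x z
    rw [fromRows_mul, fromRows_apply_inr]
  ext i j
  rcases i with (x | κ) | (e | v) <;> rcases j with (x' | κ') | (e' | v')
  · rfl
  · exact h1 C x (Sum.inl κ')
  · exact (h1 C x (Sum.inr e')).trans ((h3 C x e').symm.trans (h4 C x _).symm)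
  · exact (h2 C x v').trans (h4 C x _).symm
  · exact (congrArg (fun z : A => -z) (h1 C' x' (Sum.inl κ))).trans neg_zero
  · show diagonal (Sum.elim y a) (Sum.inl κ) (Sum.inl κ') = diagonal y κ κ'
    simp [diagonal_apply]
  · show diagonal (Sum.elim y a) (Sum.inl κ) (Sum.inr e') = _
    exact (by simp : _ = (0 : A)).trans ((hC0 κ e').symm.trans (h5 C κ _).symm)
  · exact (hC κ v').trans (h5 C κ _).symm
  · exact (congrArg (fun z : A => -z) (h1 C' x' (Sum.inr e))).trans
      (congrArg (fun z : A => -z) ((h3 C' x' e).symm.trans (h4 C' x' _).symm))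
  · show diagonal (Sum.elim y a) (Sum.inr e) (Sum.inl κ') = - _
    exact (by simp : _ = -(0 : A)).trans (congrArg _ ((hC0 κ' e).symm.trans (h5 C' κ' _).symm))
  · show diagonal (Sum.elim y a) (Sum.inr e) (Sum.inr e') = diagonal a e e'
    simp [diagonal_apply]
  · rfl
  · exact congrArg (fun z : A => -z) ((h2 C' x' v).trans (h4 C' x' _).symm)
  · exact congrArg (fun z : A => -z) ((hC κ' v).trans (h5 C' κ' _).symm)
  · rfl
  · rfl

/-- one border and one edge between the terminals -/
lemma bd_cmp (w : Fin 5 → A) (P : Matrix (Fin 2) n A) (M : Matrix n n A) :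
    BD (fromBlocks (0 : Matrix (Fin 1) (Fin 1) A) 0 0 (diagonal ![w 0]))
      (fromRows !![w 1, w 2] (gi ![some 0] ![some 1]))
      (fromRows !![w 3, w 4] (gi ![some 0] ![some 1])) P M =
      w 0 * (w 1 * w 3 * sa P M + w 1 * w 4 * sr P M + w 2 * w 3 * sr' P M +
        w 2 * w 4 * sb P M) + (w 1 + w 2) * (w 3 + w 4) * sF P M := by
  refine univ (ι := Fin 5) (fun A _ M P w =>
    BD (fromBlocks (0 : Matrix (Fin 1) (Fin 1) A) 0 0 (diagonal ![w 0]))
      (fromRows !![w 1, w 2] (gi ![some 0] ![some 1]))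
      (fromRows !![w 3, w 4] (gi ![some 0] ![some 1])) P M)
    (fun A _ M P w => w 0 * (w 1 * w 3 * sa P M + w 1 * w 4 * sr P M + w 2 * w 3 * sr' P M +
        w 2 * w 4 * sb P M) + (w 1 + w 2) * (w 3 + w 4) * sF P M) ?_ ?_ ?_ A M P w
  · intro A B _ _ φ M P w
    rw [map_BD]
    congr 1
    · rw [fromBlocks_map, map_diagonal']
      congr 1
      · ext i j; simp
      · ext i j; simp
      · ext i j; simp
      · congr 1
        ext i
        fin_cases i
        rfl
    · rw [fromRows_map, map_gi]
      congr 1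
      ext i j
      fin_cases i
      fin_cases j <;> simp
    · rw [fromRows_map, map_gi]
      congr 1
      ext i j
      fin_cases i
      fin_cases j <;> simp
  · intro A B _ _ φ M P w
    simp only [map_add, map_mul, map_sub,
      map_sa, map_sb, map_sr, map_sr', map_sF, RingHom.map_det, RingHom.mapMatrix_apply]
    rfl
  · intro K _ M P w h
    rw [sa_field P M h, sb_field P M h, sr_field P M h, sr'_field P M h, sF_field P M h,
      BD_field _ _ _ _ _ h]
    generalize P * M⁻¹ * Pᵀ = g
    rw [det11]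
    simp only [Matrix.add_apply, Matrix.mul_apply, Fin.sum_univ_two, transpose_apply,
      fromBlocks_apply₁₁, fromBlocks_apply₁₂, fromBlocks_apply₂₁, fromBlocks_apply₂₂,
      fromRows_apply_inl, fromRows_apply_inr, diagonal_apply, Matrix.zero_apply]
    simp [gi]
    ring

/-- two borders and one edge between the terminals -/
lemma bd_cmpF (w : Fin 1 → A) (P : Matrix (Fin 2) n A) (M : Matrix n n A) :
    BD (fromBlocks (0 : Matrix (Fin 2) (Fin 2) A) 0 0 (diagonal w))
      (fromRows 1 (gi ![some 0] ![some 1])) (fromRows 1 (gi ![some 0] ![some 1])) P M =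
      w 0 * sF P M := by
  refine univ (ι := Fin 1) (fun A _ M P w =>
    BD (fromBlocks (0 : Matrix (Fin 2) (Fin 2) A) 0 0 (diagonal w))
      (fromRows 1 (gi ![some 0] ![some 1])) (fromRows 1 (gi ![some 0] ![some 1])) P M)
    (fun A _ M P w => w 0 * sF P M) ?_ ?_ ?_ A M P w
  · intro A B _ _ φ M P w
    have h1 : (1 : Matrix (Fin 2) (Fin 2) A).map φ = 1 := by
      rw [← diagonal_one, map_diagonal', ← diagonal_one]
      congr 1
      funext i
      exact map_one φ
    rw [map_BD]
    congr 1
    · rw [fromBlocks_map, map_diagonal']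
      congr 1
      · ext i j; simp
      · ext i j; simp
      · ext i j; simp
    · rw [fromRows_map, map_gi, h1]
    · rw [fromRows_map, map_gi, h1]
  · intro A B _ _ φ M P w
    rw [map_mul, map_sF]
    rfl
  · intro K _ M P w h
    rw [sF_field P M h, BD_field _ _ _ _ _ h]
    generalize P * M⁻¹ * Pᵀ = g
    rw [det21]
    simp only [Matrix.add_apply, Matrix.mul_apply, Fin.sum_univ_two, transpose_apply,
      fromBlocks_apply₁₁, fromBlocks_apply₁₂, fromBlocks_apply₂₁, fromBlocks_apply₂₂,
      fromRows_apply_inl, fromRows_apply_inr, diagonal_apply, Matrix.zero_apply]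
    simp [gi]
    ring

/-- an edge between the terminals and an edge between the first terminal and the root -/
lemma bd_two' (y : Fin 2 → A) (P : Matrix (Fin 2) n A) (M : Matrix n n A) :
    BD (fromBlocks (diagonal ![y 0]) 0 0 (diagonal ![y 1]))
      (fromRows (gi ![some 0] ![some 1]) (gi ![some 0] ![none]))
      (fromRows (gi ![some 0] ![some 1]) (gi ![some 0] ![none])) P M =
      y 0 * y 1 * M.det + y 1 * (sa P M + sb P M - sr P M - sr' P M) + y 0 * sa P M + sF P M := by
  refine univ (ι := Fin 2) (fun A _ M P y => BD (fromBlocks (diagonal ![y 0]) 0 0 (diagonal ![y 1]))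
      (fromRows (gi ![some 0] ![some 1]) (gi ![some 0] ![none]))
      (fromRows (gi ![some 0] ![some 1]) (gi ![some 0] ![none])) P M)
    (fun A _ M P y => y 0 * y 1 * M.det + y 1 * (sa P M + sb P M - sr P M - sr' P M) +
      y 0 * sa P M + sF P M) ?_ ?_ ?_ A M P y
  · intro A B _ _ φ M P w
    rw [map_BD]
    congr 1
    · rw [fromBlocks_map, map_diagonal', map_diagonal']
      congr 1
      · congr 1
        ext i
        fin_cases i
        rfl
      · ext i j; simp
      · ext i j; simp
      · congr 1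
        ext i
        fin_cases i
        rfl
    · rw [fromRows_map, map_gi, map_gi]
    · rw [fromRows_map, map_gi, map_gi]
  · intro A B _ _ φ M P w
    rw [map_add, map_add, map_add, map_mul, map_mul, map_mul, map_mul, map_sub, map_sub, map_add,
      map_sa, map_sb, map_sr, map_sr', map_sF, RingHom.map_det, RingHom.mapMatrix_apply]
    rfl
  · intro K _ M P w h
    rw [sa_field P M h, sb_field P M h, sr_field P M h, sr'_field P M h, sF_field P M h,
      BD_field _ _ _ _ _ h]
    generalize P * M⁻¹ * Pᵀ = g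
    rw [det11]
    simp only [Matrix.add_apply, Matrix.mul_apply, Fin.sum_univ_two, transpose_apply,
      fromBlocks_apply₁₁, fromBlocks_apply₁₂, fromBlocks_apply₂₁, fromBlocks_apply₂₂,
      fromRows_apply_inl, fromRows_apply_inr, diagonal_apply, Matrix.zero_apply]
    simp [gi]
    ring

/-! ### Contraction -/

/-- the new vertex is identified with `w` -/
def cpi (w : W) : Option (Fin 1 ⊕ W) → Option W := Option.map (Sum.elim (fun _ => w) id)

/-- contraction of an edge -/
theorem RM_contr (w₀ : W) (s t : E → Option (Fin 1 ⊕ W)) (a : E → A) :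
    (RM (Sum.elim (fun _ : Fin 1 => some (Sum.inr w₀)) s)
      (Sum.elim (fun _ : Fin 1 => some (Sum.inl 0)) t) (Sum.elim 0 a)).det =
    (RM (fun e => cpi w₀ (s e)) (fun e => cpi w₀ (t e)) a).det := by
  let J : Matrix (Fin 1 ⊕ Fin 1) (Fin 1 ⊕ Fin 1) A := fromBlocks 0 (-1) 1 0
  let J' : Matrix (Fin 1 ⊕ Fin 1) (Fin 1 ⊕ Fin 1) A := fromBlocks 0 1 (-1) 0
  have hJJ' : J * J' = 1 := by
    simp only [J, J', fromBlocks_multiply]
    rw [← fromBlocks_one]
    congr 1 <;> simp
  have hinvJ : Invertible J := invertibleOfRightInverse _ _ hJJ'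
  have hJ' : ⅟J = J' := invOf_eq_right_inv hJJ'
  have hdetJ : J.det = 1 := by
    rw [det11]
    simp [J]
  let X₁ : Matrix (Fin 1 ⊕ Fin 1) (E ⊕ W) A :=
    fromBlocks 0 (Matrix.of fun _ w => if w₀ = w then 1 else 0)
      (Matrix.of fun _ e => -(gi s t e (Sum.inl 0))) 0
  let X₂ : Matrix (E ⊕ W) (Fin 1 ⊕ Fin 1) A :=
    fromBlocks 0 (Matrix.of fun e _ => gi s t e (Sum.inl 0))
      (Matrix.of fun w _ => -(if w₀ = w then 1 else 0)) 0
  let D : Matrix (E ⊕ W) (E ⊕ W) A :=
    fromBlocks (diagonal a) ((gi s t).submatrix id Sum.inr) (-((gi s t).submatrix id Sum.inr)ᵀ) 0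
  have hM : (RM (Sum.elim (fun _ : Fin 1 => some (Sum.inr w₀)) s)
      (Sum.elim (fun _ : Fin 1 => some (Sum.inl 0)) t) (Sum.elim 0 a)).submatrix
      (Equiv.sumSumSumComm (Fin 1) (Fin 1) E W) (Equiv.sumSumSumComm (Fin 1) (Fin 1) E W) =
      fromBlocks J X₁ X₂ D := by
    ext i j
    rcases i with (κ | q) | (e | v) <;> rcases j with (κ' | q') | (e' | v')
    · fin_cases κ; fin_cases κ'
      simp [RM, J]
    · fin_cases κ; fin_cases q'
      simp [RM, J, gi]
    · simp [RM, X₁]
    · simp [RM, gi, X₁]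
    · fin_cases q; fin_cases κ'
      simp [RM, J, gi]
    · simp [RM, J]
    · fin_cases q
      rfl
    · simp [RM, X₁]
    · simp [RM, X₂]
    · fin_cases q'
      rfl
    · simp [RM, D, diagonal_apply]
    · rfl
    · simp [RM, gi, X₂]
    · simp [RM, X₂]
    · rfl
    · simp [RM, D]
  rw [← det_submatrix_equiv_self (Equiv.sumSumSumComm (Fin 1) (Fin 1) E W), hM, det_fromBlocks₁₁,
    hdetJ, one_mul, hJ']
  congr 1
  have hg : ∀ (e : E) (w : W), (gi (fun e => cpi w₀ (s e)) (fun e => cpi w₀ (t e)) : Matrix E W A)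
      e w = gi s t e (Sum.inr w) + gi s t e (Sum.inl 0) * (if w₀ = w then 1 else 0) := by
    intro e w
    have h1 : ∀ x : Option (Fin 1 ⊕ W), (if cpi w₀ x = some w then (1 : A) else 0) =
        (if x = some (Sum.inr w) then 1 else 0) +
          (if x = some (Sum.inl 0) then 1 else 0) * (if w₀ = w then 1 else 0) := by
      intro x
      rcases x with _ | q | w'
      · simp [cpi]
      · fin_cases q
        simp [cpi]
      · simp [cpi]
    refine (congrArg₂ (fun x y : A => x - y) (h1 (s e)) (h1 (t e))).trans ?_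
    simp only [gi, Matrix.of_apply]
    ring
  have hX : X₂ * J' * X₁ = fromBlocks 0
      (Matrix.of fun e w => -(gi s t e (Sum.inl 0) * (if w₀ = w then 1 else 0)))
      (Matrix.of fun w e => gi s t e (Sum.inl 0) * (if w₀ = w then 1 else 0)) 0 := by
    simp only [X₁, X₂, J', fromBlocks_multiply]
    congr 1
    · simp
    · ext e w
      simp [Matrix.mul_apply]
      split_ifs <;> simp
    · ext w e
      simp [Matrix.mul_apply]
    · simp
  rw [hX]
  ext i j
  rcases i with e | v <;> rcases j with e' | v'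
  · simp [D, RM]
  · have := hg e v'
    simp only [D, RM, Matrix.sub_apply, fromBlocks_apply₁₂, submatrix_apply, id, Matrix.of_apply,
      sub_neg_eq_add] at this ⊢
    exact this.symm
  · have := hg e' v
    simp only [D, RM, Matrix.sub_apply, fromBlocks_apply₂₁, submatrix_apply, id, Matrix.of_apply,
      Matrix.neg_apply, transpose_apply] at this ⊢
    rw [this]
    ring
  · simp [D, RM]

end

end Pool.Agent.Phi4
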