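import Pool.Agent.Phi4.Dsl
import Pool.Agent.Helper50.KR.Defs

/-!
# Multigraphs: the expanded Laplacian

A multigraph is given by its sets `V` of vertices and `E` of edges and by the ends `s e` and `t e` of
the edges `e`.
-/

set_option autoImplicit false
set_option linter.unusedSectionVars false

open Matrix MvPolynomial
open Pool.Agent.Helper81.CP Pool.Agent.Helper81.HG
open Pool.Agent.Helper50.KR (IsSpanningTree)

namespace Pool.Agent.Phi4

section

variable {E V A : Type} [CommRing A] [DecidableEq V]

/-- the incidence vector of the edge `e` -/
def inc (s t : E → V) (e : E) (v : V) : A := (if s e = v then 1 else 0) - (if t e = v then 1 else 0)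

/-- the expanded Laplacian: for `b = 1` the numbers `a e` are resistances, for `a = 1` the numbers
`b e` are conductances -/
def MM [DecidableEq E] (s t : E → V) (o : V) (a b : E → A) : Matrix (E ⊕ V) (E ⊕ V) A :=
  fromBlocks (diagonal a) (Matrix.of fun e v => b e * inc s t e v)
    (Matrix.of fun v e => - inc s t e v) (Matrix.single o o 1)

/-- the sum over the spanning trees `T` of the product of the `b e`, `e ∈ T`, and the `a e`,
`e ∉ T` -/
def DD [DecidableEq E] [Fintype E] [Fintype V] (s t : E → V) (o : V) (a b : E → A) : A :=
  (MM s t o a b).det

end

section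

variable {E V : Type} [DecidableEq V] [DecidableEq E] [Fintype E] [Fintype V]

/-- the first Symanzik polynomial of a multigraph -/
noncomputable def psi (s t : E → V) (o : V) : MvPolynomial E ℤ := DD s t o X 1

/-- the degree of a vertex -/
def dg (s t : E → V) (v : V) : ℕ := ∑ e, ((if s e = v then 1 else 0) + (if t e = v then 1 else 0))

end

open Classical in
/-- the first Symanzik polynomial of a graph: the sum over the spanning trees `T` of the product of
the variables `x_e`, `e ∉ T` -/
noncomputable def symanzik {V : Type} [Fintype V] (H : SimpleGraph V) :
    MvPolynomial H.edgeSet ℤ :=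
  ∑ T : Finset H.edgeSet, if IsSpanningTree H T then ∏ e ∈ Tᶜ, X e else 0

end Pool.Agent.Phi4
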