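import Pool.Agent.Phi4.Defs

/-!
# Degrees
-/

set_option autoImplicit false
set_option linter.unusedSectionVars false

namespace Pool.Agent.Phi4

section

variable {E V K V' : Type} [DecidableEq V] [DecidableEq V'] [Fintype E] [Fintype V] [Fintype K]
  [Fintype V']

/-- the excess -/
def exc (s t : E → V) : ℕ := ∑ v, (dg s t v - 4)

lemma dg_add (ι : V → V') (hι : Function.Injective ι) (sK tK : K → V') (s t : E → V) (v : V) :
    dg (Sum.elim sK (fun e => ι (s e))) (Sum.elim tK (fun e => ι (t e))) (ι v) =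
      dg sK tK (ι v) + dg s t v := by
  unfold dg
  rw [Fintype.sum_sum_type]
  refine congrArg₂ _ rfl (Finset.sum_congr rfl fun e _ => ?_)
  show (if ι (s e) = ι v then 1 else 0) + (if ι (t e) = ι v then 1 else 0) = _
  simp only [hι.eq_iff]

lemma dg_out (ι : V → V') (sK tK : K → V') (s t : E → V) (v' : V') (h : ∀ v, ι v ≠ v') :
    dg (Sum.elim sK (fun e => ι (s e))) (Sum.elim tK (fun e => ι (t e))) v' = dg sK tK v' := by
  unfold dg
  rw [Fintype.sum_sum_type]
  refine (congrArg₂ (· + ·) rfl (Finset.sum_eq_zero fun e _ => ?_)).trans (add_zero _)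
  show (if ι (s e) = v' then 1 else 0) + (if ι (t e) = v' then 1 else 0) = 0
  rw [if_neg (h (s e)), if_neg (h (t e))]
  rfl

lemma exc_add (ι : V → V') (hι : Function.Injective ι) (sK tK : K → V') (s t : E → V) (β : V → ℕ)
    (hβ : ∀ v, dg sK tK (ι v) ≤ β v) (h4 : ∀ v', (∀ v, ι v ≠ v') → dg sK tK v' ≤ 4) :
    exc (Sum.elim sK (fun e => ι (s e))) (Sum.elim tK (fun e => ι (t e))) ≤
      ∑ v, (dg s t v + β v - 4) := by
  have h1 : exc (Sum.elim sK (fun e => ι (s e))) (Sum.elim tK (fun e => ι (t e))) =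
      ∑ v, (dg (Sum.elim sK (fun e => ι (s e))) (Sum.elim tK (fun e => ι (t e))) (ι v) - 4) := by
    unfold exc
    symm
    refine Finset.sum_of_injOn ι hι.injOn (fun _ _ => Finset.mem_coe.mpr (Finset.mem_univ _)) ?_
      (fun _ _ => rfl)
    intro v' _ hv'
    rw [dg_out ι sK tK s t v' (fun v hv => hv' ⟨v, by simp, hv⟩)]
    have := h4 v' (fun v hv => hv' ⟨v, by simp, hv⟩)
    omega
  rw [h1]
  refine Finset.sum_le_sum fun v _ => ?_
  rw [dg_add ι hι]
  have := hβ v
  omega

end

end Pool.Agent.Phi4
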