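import Pool.Agent.KB.Ind

/-!
# Cutting and pasting of predicates

A predicate on points with coordinates in commutative rings is good if it describes a locally
closed subscheme of affine space that belongs to the class.
-/

set_option autoImplicit false
set_option linter.unusedSectionVars false

open MvPolynomial
open Pool.Agent.Helper81.CP Pool.Agent.Helper81.HG
open Pool.Agent.KB (go_empty)

namespace Pool.Agent.Phi4

/-- predicates on points -/
abbrev Pd (τ : Type) : Type 1 := ∀ (A : Type) [CommRing A], (τ → A) → Prop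

/-- the predicate describes a locally closed subscheme -/
def Rp {τ : Type} (P : Pd τ) : Prop :=
  ∃ (E : Set (MvPolynomial τ ℤ)) (p : MvPolynomial τ ℤ),
    ∀ (A : Type) [CommRing A] (x : τ → A), P A x ↔ Lc E p x

/-- the predicate describes a locally closed subscheme in the class -/
def Gd {τ : Type} (G : ∀ (R : Type) [CommRing R], Prop) (P : Pd τ) : Prop :=
  ∃ (E : Set (MvPolynomial τ ℤ)) (p : MvPolynomial τ ℤ),
    (∀ (A : Type) [CommRing A] (x : τ → A), P A x ↔ Lc E p x) ∧ GO G E p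

/-- the coordinate `a` is free -/
def Fr {τ : Type} (a : τ) (P : Pd τ) : Prop :=
  ∀ (A : Type) [CommRing A] (x y : τ → A), (∀ i, i ≠ a → y i = x i) → P A x → P A y

/-- the polynomial does not contain the variable `a` -/
def Frp {τ : Type} (a : τ) (u : MvPolynomial τ ℤ) : Prop :=
  ∀ (A : Type) [CommRing A] (x y : τ → A), (∀ i, i ≠ a → y i = x i) → ev y u = ev x u

variable {G : ∀ (R : Type) [CommRing R], Prop} {τ : Type}

/-! ### Representable predicates -/

lemma Gd.rp {P : Pd τ} (h : Gd G P) : Rp P := by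
  obtain ⟨E, p, h1, _⟩ := h
  exact ⟨E, p, h1⟩

lemma Rp.congr {P Q : Pd τ} (h : Rp P) (e : ∀ (A : Type) [CommRing A] (x : τ → A), P A x ↔ Q A x) :
    Rp Q := by
  obtain ⟨E, p, h1⟩ := h
  exact ⟨E, p, fun A _ x => (e A x).symm.trans (h1 A x)⟩

lemma rp_pt (E : Set (MvPolynomial τ ℤ)) : Rp (fun _ _ x => Pt E x) :=
  ⟨E, 1, fun A _ x => ⟨fun h => ⟨h, by rw [map_one]; exact isUnit_one⟩, fun h => h.1⟩⟩

lemma rp_true : Rp (fun _ _ _ => True : Pd τ) :=
  (rp_pt (∅ : Set (MvPolynomial τ ℤ))).congr fun _ _ _ =>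
    ⟨fun _ => trivial, fun _ p hp => absurd hp (Set.notMem_empty p)⟩

lemma Rp.zero {P : Pd τ} (h : Rp P) (q : MvPolynomial τ ℤ) :
    Rp (fun A _ x => P A x ∧ ev x q = 0) := by
  obtain ⟨E, p, h1⟩ := h
  refine ⟨insert q E, p, fun A _ x => ?_⟩
  show P A x ∧ ev x q = 0 ↔ Pt (insert q E) x ∧ IsUnit (ev x p)
  rw [h1, Pt.insert_iff]
  unfold Lc
  tauto

lemma Rp.unit {P : Pd τ} (h : Rp P) (q : MvPolynomial τ ℤ) :
    Rp (fun A _ x => P A x ∧ IsUnit (ev x q)) := by
  obtain ⟨E, p, h1⟩ := h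
  refine ⟨E, p * q, fun A _ x => ?_⟩
  show P A x ∧ IsUnit (ev x q) ↔ Pt E x ∧ IsUnit (ev x (p * q))
  rw [h1, map_mul, IsUnit.mul_iff]
  unfold Lc
  tauto

section

variable [Finite τ] (hG : RG G)

include hG

/-- the class in terms of any representation -/
lemma Gd.go {P : Pd τ} (h : Gd G P) {E : Set (MvPolynomial τ ℤ)} {p : MvPolynomial τ ℤ}
    (e : ∀ (A : Type) [CommRing A] (x : τ → A), P A x ↔ Lc E p x) : GO G E p := by
  obtain ⟨E', p', h1, h2⟩ := h
  exact (hG.gl_congr fun A _ x => (h1 A x).symm.trans (e A x)).mp h2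

omit [Finite τ] hG in
lemma Gd.congr {P Q : Pd τ} (h : Gd G P)
    (e : ∀ (A : Type) [CommRing A] (x : τ → A), P A x ↔ Q A x) : Gd G Q := by
  obtain ⟨E, p, h1, h2⟩ := h
  exact ⟨E, p, fun A _ x => (e A x).symm.trans (h1 A x), h2⟩

lemma Gd.of_gs {E : Set (MvPolynomial τ ℤ)} (h : GS G E) : Gd G (fun _ _ x => Pt E x) :=
  ⟨E, 1, fun A _ x => ⟨fun h => ⟨h, by rw [map_one]; exact isUnit_one⟩, fun h => h.1⟩,
    (hG.gl_one E).mpr h⟩

lemma Gd.gs {P : Pd τ} (h : Gd G P) {E : Set (MvPolynomial τ ℤ)}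
    (e : ∀ (A : Type) [CommRing A] (x : τ → A), P A x ↔ Pt E x) : GS G E :=
  (hG.gl_one E).mp (h.go hG fun A _ x =>
    ⟨fun h => ⟨(e A x).mp h, by rw [map_one]; exact isUnit_one⟩, fun h => (e A x).mpr h.1⟩)

/-! ### Cutting and pasting -/

lemma Gd.glue {P : Pd τ} (hP : Rp P) (q : MvPolynomial τ ℤ)
    (h0 : Gd G (fun A _ x => P A x ∧ ev x q = 0))
    (h1 : Gd G (fun A _ x => P A x ∧ IsUnit (ev x q))) : Gd G P := by
  obtain ⟨E, p, e⟩ := hP
  refine ⟨E, p, e, hG.gl_glue q (h0.go hG fun A _ x => ?_) (h1.go hG fun A _ x => ?_)⟩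
  · rw [e]
    unfold Lc
    rw [Pt.insert_iff]
    tauto
  · rw [e]
    unfold Lc
    rw [map_mul, IsUnit.mul_iff]
    tauto

lemma Gd.opn {P : Pd τ} (hP : Gd G P) (q : MvPolynomial τ ℤ)
    (h0 : Gd G (fun A _ x => P A x ∧ ev x q = 0)) :
    Gd G (fun A _ x => P A x ∧ IsUnit (ev x q)) := by
  obtain ⟨E, p, e, h⟩ := hP
  refine ⟨E, p * q, fun A _ x => ?_, hG.gl_opn q h (h0.go hG fun A _ x => ?_)⟩
  · show P A x ∧ IsUnit (ev x q) ↔ _
    rw [e]
    unfold Lc
    rw [map_mul, IsUnit.mul_iff]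
    tauto
  · rw [e]
    unfold Lc
    rw [Pt.insert_iff]
    tauto

lemma Gd.closed {P : Pd τ} (hP : Gd G P) (q : MvPolynomial τ ℤ)
    (h1 : Gd G (fun A _ x => P A x ∧ IsUnit (ev x q))) :
    Gd G (fun A _ x => P A x ∧ ev x q = 0) := by
  obtain ⟨E, p, e, h⟩ := hP
  refine ⟨insert q E, p, fun A _ x => ?_, hG.gl_closed q h (h1.go hG fun A _ x => ?_)⟩
  · show P A x ∧ ev x q = 0 ↔ _
    rw [e]
    unfold Lc
    rw [Pt.insert_iff]
    tauto
  · rw [e]
    unfold Lc
    rw [map_mul, IsUnit.mul_iff]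
    tauto

/-- the empty scheme -/
lemma Gd.empty {P : Pd τ} (hP : Rp P)
    (h : ∀ (A : Type) [CommRing A] (x : τ → A), P A x → (1 : A) = 0) : Gd G P := by
  obtain ⟨E, p, e⟩ := hP
  exact ⟨E, p, e, go_empty hG fun A _ x hx => h A x ((e A x).mpr hx)⟩

/-- a nilpotent function -/
lemma Gd.nil {P : Pd τ} (q : MvPolynomial τ ℤ)
    (h : ∀ (A : Type) [CommRing A] (x : τ → A), P A x → IsNilpotent (ev x q)) (hP : Gd G P) :
    Gd G (fun A _ x => P A x ∧ ev x q = 0) :=
  Gd.closed hG hP q (Gd.empty hG (hP.rp.unit q) fun A _ x hx => by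
    have h1 := h A x hx.1
    have h2 : (0 : A) = 1 := by
      by_contra hne
      have : Nontrivial A := ⟨⟨0, 1, hne⟩⟩
      exact h1.not_isUnit hx.2
    exact h2.symm)

lemma Gd.nil' {P : Pd τ} (hP : Rp P) (q : MvPolynomial τ ℤ)
    (h : ∀ (A : Type) [CommRing A] (x : τ → A), P A x → IsNilpotent (ev x q))
    (h0 : Gd G (fun A _ x => P A x ∧ ev x q = 0)) : Gd G P :=
  Gd.glue hG hP q h0 (Gd.empty hG (hP.unit q) fun A _ x hx => by
    have h1 := h A x hx.1
    have h2 : (0 : A) = 1 := by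
      by_contra hne
      have : Nontrivial A := ⟨⟨0, 1, hne⟩⟩
      exact h1.not_isUnit hx.2
    exact h2.symm)

open scoped Classical in
/-- an equation that determines a coordinate -/
lemma go_solve {E : Set (MvPolynomial τ ℤ)} {p : MvPolynomial τ ℤ} (a : τ)
    (hE : Fr a (fun _ _ x => Lc E p x)) (u v : MvPolynomial τ ℤ) (hu : Frp a u) (hv : Frp a v)
    (hun : ∀ (A : Type) [CommRing A] (x : τ → A), Lc E p x → IsUnit (ev x u)) :
    GO G (insert (X a * u + v) E) p ↔ GO G E p := by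
  rw [hG.gl_free a hE]
  have hupd : ∀ (A : Type) [CommRing A] (x : τ → A) (c : A), ∀ i, i ≠ a →
      Function.update x a c i = x i := fun A _ x c i hi => Function.update_of_ne hi _ _
  refine hG.gl_iso (E := insert (X a * u + v) E) (p := p) (E' := insert (X a) E) (p' := p)
    (fun A _ x => Function.update x a 0)
    (fun A _ y => Function.update y a (- (ev y v * Ring.inverse (ev y u)))) ?_ ?_ ?_ ?_ ?_ ?_
  · intro A B _ _ φ x _ j
    simp only [Function.update_apply]
    split_ifs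
    · exact map_zero φ
    · rfl
  · intro A B _ _ φ y hy j
    have hy' : Lc E p y := ⟨fun q hq => hy.1 q (Or.inr hq), hy.2⟩
    simp only [Function.update_apply]
    split_ifs
    · rw [map_neg, map_mul, map_inv_of_unit φ (hun A y hy'), ev_map, ev_map]
    · rfl
  · intro A _ x hx
    have hx' : Lc E p x := ⟨fun q hq => hx.1 q (Or.inr hq), hx.2⟩
    have h1 := hE A x _ (hupd A x 0) hx'
    exact ⟨(Pt.insert_iff).mpr ⟨by rw [ev_X, Function.update_self], h1.1⟩, h1.2⟩
  · intro A _ y hy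
    have hy' : Lc E p y := ⟨fun q hq => hy.1 q (Or.inr hq), hy.2⟩
    have h1 := hE A y _ (hupd A y (- (ev y v * Ring.inverse (ev y u)))) hy'
    refine ⟨(Pt.insert_iff).mpr ⟨?_, h1.1⟩, h1.2⟩
    rw [map_add, map_mul, ev_X, Function.update_self, hu A y _ (hupd A y _), hv A y _ (hupd A y _)]
    have h2 := Ring.mul_inverse_cancel _ (hun A y hy')
    linear_combination (- ev y v) * h2
  · intro A _ x hx
    have hx' : Lc E p x := ⟨fun q hq => hx.1 q (Or.inr hq), hx.2⟩
    have h0 := hx.1 (X a * u + v) (Or.inl rfl)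
    rw [map_add, map_mul, ev_X] at h0
    have h2 := Ring.mul_inverse_cancel _ (hun A x hx')
    funext i
    by_cases hi : i = a
    · subst hi
      rw [Function.update_self, hu A x _ (hupd A x 0), hv A x _ (hupd A x 0)]
      linear_combination x i * h2 - Ring.inverse (ev x u) * h0
    · rw [hupd A _ _ i hi, hupd A _ _ i hi]
  · intro A _ y hy
    have h0 := hy.1 (X a) (Or.inl rfl)
    rw [ev_X] at h0
    funext i
    by_cases hi : i = a
    · subst hi
      rw [Function.update_self, h0]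
    · rw [hupd A _ _ i hi, hupd A _ _ i hi]

/-- an equation that determines a coordinate: adding it -/
lemma Gd.solve {P Q : Pd τ} (hQ : Gd G Q) (a : τ) (hQa : Fr a Q) (u v : MvPolynomial τ ℤ)
    (hu : Frp a u) (hv : Frp a v)
    (hun : ∀ (A : Type) [CommRing A] (x : τ → A), Q A x → IsUnit (ev x u))
    (e : ∀ (A : Type) [CommRing A] (x : τ → A), P A x ↔ Q A x ∧ x a * ev x u + ev x v = 0) :
    Gd G P := by
  obtain ⟨E, p, h1, h2⟩ := hQ
  refine ⟨insert (X a * u + v) E, p, fun A _ x => ?_, (go_solve hG a ?_ u v hu hv ?_).mpr h2⟩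
  · rw [e, h1]
    unfold Lc
    rw [Pt.insert_iff, map_add, map_mul, ev_X]
    tauto
  · intro A _ x y hxy hx
    exact (h1 A y).mp (hQa A x y hxy ((h1 A x).mpr hx))
  · exact fun A _ x hx => hun A x ((h1 A x).mpr hx)

/-- an equation that determines a coordinate: removing it -/
lemma Gd.unsolve {P Q : Pd τ} (hP : Gd G P) (hQ : Rp Q) (a : τ) (hQa : Fr a Q)
    (u v : MvPolynomial τ ℤ) (hu : Frp a u) (hv : Frp a v)
    (hun : ∀ (A : Type) [CommRing A] (x : τ → A), Q A x → IsUnit (ev x u))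
    (e : ∀ (A : Type) [CommRing A] (x : τ → A), P A x ↔ Q A x ∧ x a * ev x u + ev x v = 0) :
    Gd G Q := by
  obtain ⟨E, p, h1⟩ := hQ
  refine ⟨E, p, h1, (go_solve hG a ?_ u v hu hv ?_).mp (hP.go hG fun A _ x => ?_)⟩
  · intro A _ x y hxy hx
    exact (h1 A y).mp (hQa A x y hxy ((h1 A x).mpr hx))
  · exact fun A _ x hx => hun A x ((h1 A x).mpr hx)
  · rw [e, h1]
    unfold Lc
    rw [Pt.insert_iff, map_add, map_mul, ev_X]
    tauto

/-- a free invertible coordinate: adding it -/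
lemma Gd.gm {Q : Pd τ} (hQ : Gd G Q) (a : τ) (hQa : Fr a Q) :
    Gd G (fun A _ x => Q A x ∧ IsUnit (x a)) := by
  obtain ⟨E, p, h1, h2⟩ := hQ
  refine ⟨E, p * X a, fun A _ x => ?_, (hG.gl_gm a ?_).mpr h2⟩
  · show Q A x ∧ IsUnit (x a) ↔ _
    rw [h1]
    unfold Lc
    rw [map_mul, ev_X, IsUnit.mul_iff]
    tauto
  · intro A _ x y hxy hx
    exact (h1 A y).mp (hQa A x y hxy ((h1 A x).mpr hx))

/-- a free invertible coordinate: descent -/
lemma Gd.ungm {P Q : Pd τ} (hP : Gd G P) (hQ : Rp Q) (a : τ) (hQa : Fr a Q)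
    (e : ∀ (A : Type) [CommRing A] (x : τ → A), P A x ↔ Q A x ∧ IsUnit (x a)) : Gd G Q := by
  obtain ⟨E, p, h1⟩ := hQ
  refine ⟨E, p, h1, (hG.gl_gm a ?_).mp (hP.go hG fun A _ x => ?_)⟩
  · intro A _ x y hxy hx
    exact (h1 A y).mp (hQa A x y hxy ((h1 A x).mpr hx))
  · rw [e, h1]
    unfold Lc
    rw [map_mul, ev_X, IsUnit.mul_iff]
    tauto

end

/-! ### Change of the set of variables -/

section

variable {σ : Type} [Finite σ] [Finite τ] (hG : RG G)

omit [Finite σ] [Finite τ] in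
lemma rp_ext (k : σ → τ) {P : Pd σ} (h : Rp P) : Rp (fun A _ x => P A (fun i => x (k i))) := by
  obtain ⟨E, p, h1⟩ := h
  refine ⟨rename k '' E, rename k p, fun A _ x => ?_⟩
  show P A (fun i => x (k i)) ↔ _
  rw [h1]
  unfold Lc
  rw [ev_rename]
  have : Pt (rename k '' E) x ↔ Pt E (fun i => x (k i)) := by
    constructor
    · intro h q hq
      have := h _ ⟨q, hq, rfl⟩
      rwa [ev_rename] at this
    · rintro h _ ⟨q, hq, rfl⟩
      rw [ev_rename]
      exact h q hq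
  rw [this]

include hG

/-- more variables -/
lemma Gd.ext (k : σ → τ) (hk : Function.Injective k) {P : Pd σ} (h : Gd G P) :
    Gd G (fun A _ x => P A (fun i => x (k i))) := by
  obtain ⟨E, p, h1, h2⟩ := h
  refine ⟨rename k '' E, rename k p, fun A _ x => ?_, (hG.gl_emb k hk E p).mpr h2⟩
  show P A (fun i => x (k i)) ↔ _
  rw [h1]
  unfold Lc
  rw [ev_rename]
  have : Pt (rename k '' E) x ↔ Pt E (fun i => x (k i)) := by
    constructor
    · intro h q hq
      have := h _ ⟨q, hq, rfl⟩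
      rwa [ev_rename] at this
    · rintro h _ ⟨q, hq, rfl⟩
      rw [ev_rename]
      exact h q hq
  rw [this]

/-- fewer variables -/
lemma Gd.unext (k : σ → τ) (hk : Function.Injective k) {P : Pd σ} (hP : Rp P)
    (h : Gd G (fun A _ x => P A (fun i => x (k i)))) : Gd G P := by
  obtain ⟨E, p, h1⟩ := hP
  refine ⟨E, p, h1, (hG.gl_emb k hk E p).mp (h.go hG fun A _ x => ?_)⟩
  show P A (fun i => x (k i)) ↔ _
  rw [h1]
  unfold Lc
  rw [ev_rename]
  have : Pt (rename k '' E) x ↔ Pt E (fun i => x (k i)) := by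
    constructor
    · intro h q hq
      have := h _ ⟨q, hq, rfl⟩
      rwa [ev_rename] at this
    · rintro h _ ⟨q, hq, rfl⟩
      rw [ev_rename]
      exact h q hq
  rw [this]

end

end Pool.Agent.Phi4
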