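import Pool.Agent.Phi4.Dsl

/-!
# Free coordinates
-/

set_option autoImplicit false
set_option linter.unusedSectionVars false

open MvPolynomial
open Pool.Agent.Helper81.CP Pool.Agent.Helper81.HG

namespace Pool.Agent.Phi4

variable {τ σ κ : Type} {a : τ}

@[simp] lemma Frp.add {u v : MvPolynomial τ ℤ} (hu : Frp a u) (hv : Frp a v) : Frp a (u + v) := by
  intro A _ x y h
  rw [map_add, map_add, hu A x y h, hv A x y h]

@[simp] lemma Frp.sub {u v : MvPolynomial τ ℤ} (hu : Frp a u) (hv : Frp a v) : Frp a (u - v) := by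
  intro A _ x y h
  rw [map_sub, map_sub, hu A x y h, hv A x y h]

@[simp] lemma Frp.mul {u v : MvPolynomial τ ℤ} (hu : Frp a u) (hv : Frp a v) : Frp a (u * v) := by
  intro A _ x y h
  rw [map_mul, map_mul, hu A x y h, hv A x y h]

@[simp] lemma Frp.neg {u : MvPolynomial τ ℤ} (hu : Frp a u) : Frp a (-u) := by
  intro A _ x y h
  rw [map_neg, map_neg, hu A x y h]

@[simp] lemma frp_one : Frp a (1 : MvPolynomial τ ℤ) := by
  intro A _ x y _
  rw [map_one, map_one]

@[simp] lemma frp_zero : Frp a (0 : MvPolynomial τ ℤ) := by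
  intro A _ x y _
  rw [map_zero, map_zero]

@[simp] lemma frp_X {i : τ} (h : i ≠ a) : Frp a (X i : MvPolynomial τ ℤ) := by
  intro A _ x y hxy
  rw [ev_X, ev_X, hxy i h]

@[simp] lemma frp_inr (i : κ) (u : MvPolynomial σ ℤ) :
    Frp (Sum.inl i : κ ⊕ σ) (rename Sum.inr u) := by
  intro A _ x y hxy
  rw [ev_rename, ev_rename]
  congr 1
  have : (fun j : σ => y (Sum.inr j)) = fun j => x (Sum.inr j) := funext fun j => hxy _ (by simp)
  rw [this]

@[simp] lemma frp_some (u : MvPolynomial σ ℤ) : Frp (none : Option σ) (rename some u) := by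
  intro A _ x y hxy
  rw [ev_rename, ev_rename]
  have : (fun j : σ => y (some j)) = fun j => x (some j) := funext fun j => hxy _ (by simp)
  rw [this]

lemma Fr.and {P Q : Pd τ} (hP : Fr a P) (hQ : Fr a Q) : Fr a (fun A _ x => P A x ∧ Q A x) :=
  fun A _ x y h hx => ⟨hP A x y h hx.1, hQ A x y h hx.2⟩

lemma Frp.z {u : MvPolynomial τ ℤ} (hu : Frp a u) : Fr a (fun A _ x => ev x u = 0) := by
  intro A _ x y h hx
  rw [hu A x y h]
  exact hx

lemma Frp.u {u : MvPolynomial τ ℤ} (hu : Frp a u) : Fr a (fun A _ x => IsUnit (ev x u)) := by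
  intro A _ x y h hx
  rw [hu A x y h]
  exact hx

lemma fr_inr (i : κ) (B : Pd σ) :
    Fr (Sum.inl i : κ ⊕ σ) (fun A _ x => B A (fun j => x (Sum.inr j))) := by
  intro A _ x y hxy hx
  have : (fun j : σ => y (Sum.inr j)) = fun j => x (Sum.inr j) := funext fun j => hxy _ (by simp)
  show B A (fun j : σ => y (Sum.inr j))
  rw [this]
  exact hx

/-- `P` and the equations `q = 0`, `q` in the list `Z`, and the inequalities, `q` in the list `U` -/
def Cd (P : Pd τ) (Z U : List (MvPolynomial τ ℤ)) : Pd τ := fun A _ x =>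
  P A x ∧ (∀ q ∈ Z, ev x q = 0) ∧ ∀ q ∈ U, IsUnit (ev x q)

lemma rp_cd {P : Pd τ} (hP : Rp P) (Z U : List (MvPolynomial τ ℤ)) : Rp (Cd P Z U) := by
  induction Z with
  | nil =>
    induction U with
    | nil =>
      refine hP.congr fun A _ x => ?_
      simp [Cd]
    | cons q U ih =>
      refine (ih.unit q).congr fun A _ x => ?_
      simp only [Cd, List.forall_mem_cons]
      tauto
  | cons q Z ih =>
    refine (ih.zero q).congr fun A _ x => ?_
    simp only [Cd, List.forall_mem_cons]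
    tauto

lemma fr_cd {P : Pd τ} (hP : Fr a P) {Z U : List (MvPolynomial τ ℤ)} (hZ : ∀ q ∈ Z, Frp a q)
    (hU : ∀ q ∈ U, Frp a q) : Fr a (Cd P Z U) := by
  intro A _ x y h hx
  refine ⟨hP A x y h hx.1, fun q hq => ?_, fun q hq => ?_⟩
  · rw [hZ q hq A x y h]
    exact hx.2.1 q hq
  · rw [hU q hq A x y h]
    exact hx.2.2 q hq

variable {G : ∀ (R : Type) [CommRing R], Prop}

section

variable [Finite τ] (hG : RG G) {P : Pd τ} {Z U : List (MvPolynomial τ ℤ)}

include hG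

/-! ### The rules for lists -/

lemma cd_glue (hP : Rp P) (q : MvPolynomial τ ℤ) (h0 : Gd G (Cd P (q :: Z) U))
    (h1 : Gd G (Cd P Z (q :: U))) : Gd G (Cd P Z U) := by
  refine Gd.glue hG (rp_cd hP Z U) q (h0.congr fun A _ x => ?_) (h1.congr fun A _ x => ?_)
  · simp only [Cd, List.forall_mem_cons]
    tauto
  · simp only [Cd, List.forall_mem_cons]
    tauto

lemma cd_opn (h : Gd G (Cd P Z U)) (q : MvPolynomial τ ℤ) (h0 : Gd G (Cd P (q :: Z) U)) :
    Gd G (Cd P Z (q :: U)) := by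
  refine (Gd.opn hG h q (h0.congr fun A _ x => ?_)).congr fun A _ x => ?_
  · simp only [Cd, List.forall_mem_cons]
    tauto
  · simp only [Cd, List.forall_mem_cons]
    tauto

lemma cd_closed (h : Gd G (Cd P Z U)) (q : MvPolynomial τ ℤ) (h0 : Gd G (Cd P Z (q :: U))) :
    Gd G (Cd P (q :: Z) U) := by
  refine (Gd.closed hG h q (h0.congr fun A _ x => ?_)).congr fun A _ x => ?_
  · simp only [Cd, List.forall_mem_cons]
    tauto
  · simp only [Cd, List.forall_mem_cons]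
    tauto

lemma cd_nil (h : Gd G (Cd P Z U)) (q : MvPolynomial τ ℤ)
    (hq : ∀ (A : Type) [CommRing A] (x : τ → A), Cd P Z U A x → IsNilpotent (ev x q)) :
    Gd G (Cd P (q :: Z) U) := by
  refine (Gd.nil hG q hq h).congr fun A _ x => ?_
  simp only [Cd, List.forall_mem_cons]
  tauto

lemma cd_nil' (hP : Rp P) (q : MvPolynomial τ ℤ)
    (hq : ∀ (A : Type) [CommRing A] (x : τ → A), Cd P Z U A x → IsNilpotent (ev x q))
    (h : Gd G (Cd P (q :: Z) U)) : Gd G (Cd P Z U) := by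
  refine Gd.nil' hG (rp_cd hP Z U) q hq (h.congr fun A _ x => ?_)
  simp only [Cd, List.forall_mem_cons]
  tauto

/-- the equation `X a * u + v = 0` where `u` is invertible -/
lemma cd_solve (h : Gd G (Cd P Z U)) (a : τ) (u v : MvPolynomial τ ℤ) (hPa : Fr a P)
    (hZ : ∀ q ∈ Z, Frp a q) (hU : ∀ q ∈ U, Frp a q) (hu : Frp a u) (hv : Frp a v)
    (hun : ∀ (A : Type) [CommRing A] (x : τ → A), Cd P Z U A x → IsUnit (ev x u)) :
    Gd G (Cd P ((X a * u + v) :: Z) U) := by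
  refine Gd.solve hG h a (fr_cd hPa hZ hU) u v hu hv hun fun A _ x => ?_
  simp only [Cd, List.forall_mem_cons, map_add, map_mul, ev_X]
  tauto

lemma cd_unsolve (hP : Rp P) (a : τ) (u v : MvPolynomial τ ℤ) (hPa : Fr a P)
    (hZ : ∀ q ∈ Z, Frp a q) (hU : ∀ q ∈ U, Frp a q) (hu : Frp a u) (hv : Frp a v)
    (hun : ∀ (A : Type) [CommRing A] (x : τ → A), Cd P Z U A x → IsUnit (ev x u))
    (h : Gd G (Cd P ((X a * u + v) :: Z) U)) : Gd G (Cd P Z U) := by
  refine Gd.unsolve hG h (rp_cd hP Z U) a (fr_cd hPa hZ hU) u v hu hv hun fun A _ x => ?_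
  simp only [Cd, List.forall_mem_cons, map_add, map_mul, ev_X]
  tauto

lemma cd_gm (h : Gd G (Cd P Z U)) (a : τ) (hPa : Fr a P) (hZ : ∀ q ∈ Z, Frp a q)
    (hU : ∀ q ∈ U, Frp a q) : Gd G (Cd P Z (X a :: U)) := by
  refine (Gd.gm hG h a (fr_cd hPa hZ hU)).congr fun A _ x => ?_
  simp only [Cd, List.forall_mem_cons, ev_X]
  tauto

lemma cd_ungm (hP : Rp P) (a : τ) (hPa : Fr a P) (hZ : ∀ q ∈ Z, Frp a q) (hU : ∀ q ∈ U, Frp a q)
    (h : Gd G (Cd P Z (X a :: U))) : Gd G (Cd P Z U) := by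
  refine Gd.ungm hG h (rp_cd hP Z U) a (fr_cd hPa hZ hU) fun A _ x => ?_
  simp only [Cd, List.forall_mem_cons, ev_X]
  tauto

omit [Finite τ] hG in
/-- the same points -/
lemma cd_congr (h : Gd G (Cd P Z U)) {Z' U' : List (MvPolynomial τ ℤ)}
    (e : ∀ (A : Type) [CommRing A] (x : τ → A), P A x →
      (((∀ q ∈ Z, ev x q = 0) ∧ ∀ q ∈ U, IsUnit (ev x q)) ↔
        ((∀ q ∈ Z', ev x q = 0) ∧ ∀ q ∈ U', IsUnit (ev x q)))) : Gd G (Cd P Z' U') := by
  refine h.congr fun A _ x => ?_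
  unfold Cd
  constructor
  · rintro ⟨h1, h2⟩
    exact ⟨h1, (e A x h1).mp h2⟩
  · rintro ⟨h1, h2⟩
    exact ⟨h1, (e A x h1).mpr h2⟩

end

end Pool.Agent.Phi4
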