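import Pool.Agent.Phi4.Dsl2

/-!
# The vanishing of the state of a graph with three terminals

`T`, `a`, `b`, `r`, `F` with `T F = a b - r²`: for a graph with three terminals `p`, `q`, `o`, `T` is
its first Symanzik polynomial, `a`, `b`, `a + b - 2 r` and `F` are those of the graph with `p = o`,
with `q = o`, with `p = q`, and with `p = q = o`.
-/

set_option autoImplicit false
set_option linter.unusedSectionVars false

open MvPolynomial
open Pool.Agent.Helper81.CP Pool.Agent.Helper81.HG

namespace Pool.Agent.Phi4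

section poly

variable {R : Type} [CommRing R]

/-- the polynomial of the graph with a new vertex joined to the three terminals -/
def st (T a b r F y1 y2 y3 : R) : R :=
  (y1 * y2 + y1 * y3 + y2 * y3) * T + y1 * b + y2 * a + y3 * (a + b - r - r) + F

/-- the polynomial of the graph with a triangle with legs to the three terminals -/
def tr (T a b r F y1 y2 y3 l1 l2 l3 : R) : R :=
  (y1 + y2 + y3) * T * (l1 * l2 + l1 * l3 + l2 * l3) +
    l1 * (y1 * (y2 + y3) * T + (y1 + y2 + y3) * b) +
    l2 * (y2 * (y1 + y3) * T + (y1 + y2 + y3) * a) +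
    l3 * (y3 * (y1 + y2) * T + (y1 + y2 + y3) * (a + b - r - r)) +
    y1 * y2 * y3 * T + y2 * y3 * b + y1 * y3 * a + y1 * y2 * (a + b - r - r) +
    (y1 + y2 + y3) * F

end poly

variable {G : ∀ (R : Type) [CommRing R], Prop} {σ : Type}

/-- the variables -/
noncomputable def v (i : Fin 9) : MvPolynomial (Fin 9 ⊕ σ) ℤ := X (Sum.inl i)

/-- a polynomial that does not contain the nine variables -/
noncomputable def up (f : MvPolynomial σ ℤ) : MvPolynomial (Fin 9 ⊕ σ) ℤ := rename Sum.inr f

/-- a predicate that does not depend on the nine variables -/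
def Up (B : Pd σ) : Pd (Fin 9 ⊕ σ) := fun A _ x => B A (fun i => x (Sum.inr i))

@[simp] lemma ev_v {A : Type} [CommRing A] (x : Fin 9 ⊕ σ → A) (i : Fin 9) :
    ev x (v i) = x (Sum.inl i) := ev_X _ _

@[simp] lemma ev_up {A : Type} [CommRing A] (x : Fin 9 ⊕ σ → A) (f : MvPolynomial σ ℤ) :
    ev x (up f) = ev (fun i => x (Sum.inr i)) f := ev_rename _ _ _

@[simp] lemma frp_v {i j : Fin 9} (h : i ≠ j) : Frp (Sum.inl j) (v i : MvPolynomial (Fin 9 ⊕ σ) ℤ) :=
  frp_X fun hh => h (Sum.inl_injective hh)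

@[simp] lemma frp_up (j : Fin 9) (f : MvPolynomial σ ℤ) : Frp (Sum.inl j) (up f) := frp_inr _ _

lemma fr_up (j : Fin 9) (B : Pd σ) : Fr (Sum.inl j) (Up B) := fr_inr _ _

/-- the graph hypersurfaces are in the class -/
structure Hyp (G : ∀ (R : Type) [CommRing R], Prop) (B : Pd σ) (T a b r F : MvPolynomial σ ℤ) :
    Prop where
  bs : Gd G (Cd (Up B) [] [])
  gT : Gd G (Cd (Up B) [up T] [])
  gc : Gd G (Cd (Up B) [v 0 * up T + (up a + up b - up r - up r)] [])
  ga : Gd G (Cd (Up B) [v 0 * up T + up a] [])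
  gS : Gd G (Cd (Up B) [st (up T) (up a) (up b) (up r) (up F) (v 0) (v 1) (v 2)] [])
  gD : Gd G (Cd (Up B) [tr (up T) (up a) (up b) (up r) (up F) (v 0) (v 1) (v 2) (v 3) (v 4) (v 5)]
    [])

section

variable [Finite σ] (hG : RG G) {B : Pd σ} (hB : Rp B)

include hG hB

/-- `y p + q = 0` with `p = 0` -/
lemma lineA (p q : MvPolynomial (Fin 9 ⊕ σ) ℤ) (hp : Frp (Sum.inl 0) p) (hq : Frp (Sum.inl 0) q)
    (h0 : Gd G (Cd (Up B) [] [])) (h1 : Gd G (Cd (Up B) [p] []))
    (h2 : Gd G (Cd (Up B) [v 0 * p + q] [])) : Gd G (Cd (Up B) [q, p] []) := by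
  have h3 : Gd G (Cd (Up B) [] [p]) := cd_opn hG h0 _ h1
  have h4 : Gd G (Cd (Up B) [v 0 * p + q] [p]) :=
    cd_solve hG h3 (Sum.inl 0) p q (fr_up _ _) (by simp) (by simpa using hp) hp hq
      (fun A _ x hx => by simpa [Cd] using hx.2)
  refine cd_congr (cd_closed hG h2 _ h4) fun A _ x _ => ?_
  simp only [List.mem_cons, List.not_mem_nil, or_false, forall_eq_or_imp, forall_eq, map_add,
    map_mul, IsEmpty.forall_iff, implies_true, and_true]
  constructor
  · rintro ⟨h5, h6⟩
    rw [h5, mul_zero, zero_add] at h6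
    exact ⟨h6, h5⟩
  · rintro ⟨h5, h6⟩
    rw [h5, h6]
    simp

/-- the star where `T` is invertible -/
lemma star_unit {T a b r F : MvPolynomial σ ℤ}
    (hrel : ∀ (A : Type) [CommRing A] (x : σ → A), B A x →
      ev x T * ev x F = ev x a * ev x b - ev x r * ev x r)
    (h1 : Gd G (Cd (Up B) [] [up T])) :
    Gd G (Cd (Up B) [st (up T) (up a) (up b) (up r) (up F) (v 0) (v 1) (v 2)] [up T]) := by
  have hBu : Rp (Up B) := rp_ext Sum.inr hB
  have hTu : ∀ (A : Type) [CommRing A] (x : Fin 9 ⊕ σ → A) (Z U : List (MvPolynomial _ ℤ)),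
      Cd (Up B) Z (U ++ [up T]) A x → IsUnit (ev x (up T)) := fun A _ x Z U hx =>
    hx.2.2 (up T) (by simp)
  set q : MvPolynomial (Fin 9 ⊕ σ) ℤ := up T * (v 0 + v 1) + (up a + up b - up r - up r) with hq
  refine cd_glue hG hBu q ?_ ?_
  · -- `q = 0`
    refine cd_nil' hG hBu (v 0 * up T + (up a - up r)) (fun A _ x hx => ⟨2, ?_⟩) ?_
    · obtain ⟨h2, h3, h4⟩ := hx
      have h5 := hrel A _ h2
      simp only [List.mem_cons, List.not_mem_nil, or_false, forall_eq_or_imp, forall_eq, hq,
        st, map_add, map_mul, map_sub, ev_v, ev_up] at h3 h4 ⊢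
      obtain ⟨h6, h7⟩ := h3
      generalize ev (fun i => x (Sum.inr i)) T = T' at *
      generalize ev (fun i => x (Sum.inr i)) a = a' at *
      generalize ev (fun i => x (Sum.inr i)) b = b' at *
      generalize ev (fun i => x (Sum.inr i)) r = r' at *
      generalize ev (fun i => x (Sum.inr i)) F = F' at *
      linear_combination (-T') * h7 + (x (Sum.inl 0) * T' + (a' - r') + x (Sum.inl 2) * T' + r') * h6
        + h5
    · have h2 : Gd G (Cd (Up B) [v 0 * up T + (up a - up r)] [up T]) :=
        cd_solve hG h1 (Sum.inl 0) (up T) (up a - up r) (fr_up _ _) (by simp) (by simp) (by simp)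
          (by simp) (fun A _ x hx => hTu A x _ [] hx)
      have h3 : Gd G (Cd (Up B) [v 1 * up T + (up b - up r), v 0 * up T + (up a - up r)] [up T]) :=
        cd_solve hG h2 (Sum.inl 1) (up T) (up b - up r) (fr_up _ _)
          (by simp (maxDischargeDepth := 30)) (by simp) (by simp)
          (by simp) (fun A _ x hx => hTu A x _ [] hx)
      refine cd_congr h3 fun A _ x hx => ?_
      have h5 := hrel A _ hx
      simp only [List.mem_cons, List.not_mem_nil, or_false, forall_eq_or_imp, forall_eq, hq,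
        st, map_add, map_mul, map_sub, ev_v, ev_up]
      generalize ev (fun i => x (Sum.inr i)) T = T' at *
      generalize ev (fun i => x (Sum.inr i)) a = a' at *
      generalize ev (fun i => x (Sum.inr i)) b = b' at *
      generalize ev (fun i => x (Sum.inr i)) r = r' at *
      generalize ev (fun i => x (Sum.inr i)) F = F' at *
      constructor
      · rintro ⟨⟨h6, h7⟩, h8⟩
        refine ⟨⟨h7, by linear_combination h6 + h7, ?_⟩, h8⟩
        have h9 : T' * ((x (Sum.inl 0) * x (Sum.inl 1) + x (Sum.inl 0) * x (Sum.inl 2) +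
          x (Sum.inl 1) * x (Sum.inl 2)) * T' + x (Sum.inl 0) * b' + x (Sum.inl 1) * a' +
          x (Sum.inl 2) * (a' + b' - r' - r') + F') = 0 := by
          linear_combination (x (Sum.inl 1) * T' + (b' - r') + x (Sum.inl 2) * T' + r') * h7 +
            (x (Sum.inl 2) * T' + r') * h6 + h5
        exact (h8.mul_right_eq_zero).mp h9
      · rintro ⟨⟨h6, h7, h8⟩, h9⟩
        exact ⟨⟨by linear_combination h7 - h6, h6⟩, h9⟩
  · -- `q` invertible
    have h2 : Gd G (Cd (Up B) [v 0 * up T + (v 1 * up T + (up a + up b - up r - up r))] [up T]) :=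
      cd_solve hG h1 (Sum.inl 0) (up T) (v 1 * up T + (up a + up b - up r - up r)) (fr_up _ _)
        (by simp) (by simp) (by simp) (by simp (maxDischargeDepth := 30))
        (fun A _ x hx => hTu A x _ [] hx)
    have h3 : Gd G (Cd (Up B) [] [q, up T]) := by
      refine cd_opn hG h1 q (cd_congr h2 fun A _ x _ => ?_)
      simp only [List.mem_cons, List.not_mem_nil, or_false, forall_eq_or_imp, forall_eq, hq,
        map_add, map_mul, map_sub, ev_v, ev_up]
      have e : ∀ a b c d e f : A, a * b + (c * b + (d + e - f - f)) =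
        b * (a + c) + (d + e - f - f) := by intros; ring
      rw [e]
    have h4 : Gd G (Cd (Up B) [v 2 * q + (v 0 * v 1 * up T + v 0 * up b + v 1 * up a + up F)]
        [q, up T]) :=
      cd_solve hG h3 (Sum.inl 2) q _ (fr_up _ _) (by simp)
        (by simp (maxDischargeDepth := 30) [hq]) (by simp (maxDischargeDepth := 30) [hq])
        (by simp (maxDischargeDepth := 30)) (fun A _ x hx => hx.2.2 q (by simp))
    refine cd_congr h4 fun A _ x _ => ?_
    simp only [List.mem_cons, List.not_mem_nil, or_false, forall_eq_or_imp, forall_eq, hq,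
        st, map_add, map_mul, map_sub, ev_v, ev_up]
    have e : ∀ y0 y1 y2 T a b r F : A, y2 * (T * (y0 + y1) + (a + b - r - r)) +
        (y0 * y1 * T + y0 * b + y1 * a + F) =
        (y0 * y1 + y0 * y2 + y1 * y2) * T + y0 * b + y1 * a + y2 * (a + b - r - r) + F := by
      intros; ring
    rw [e]

end

end Pool.Agent.Phi4
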