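import Pool.Agent.Phi4.Net
import Pool.Agent.Phi4.P0

/-!
# The polynomials of the networks
-/

set_option autoImplicit false
set_option linter.unusedSectionVars false

open Matrix MvPolynomial

namespace Pool.Agent.Phi4

section

variable {E W K N k n A B : Type} [CommRing A] [CommRing B] [DecidableEq W] [DecidableEq N]
  [DecidableEq E] [Fintype E] [Fintype W] [DecidableEq K] [Fintype K] [Fintype N]
  [DecidableEq k] [Fintype k] [DecidableEq n] [Fintype n]

lemma map_diagonal' (φ : A →+* B) (y : K → A) : (diagonal y).map φ = diagonal (φ ∘ y) := by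
  ext i j
  by_cases h : i = j
  · subst h; simp
  · simp [h]

/-! ### Small determinants -/

/-- numbering -/
def e11 : Fin 2 ≃ Fin 1 ⊕ Fin 1 := (finSumFinEquiv (m := 1) (n := 1)).symm

/-- numbering -/
def e21 : Fin 3 ≃ Fin 2 ⊕ Fin 1 := (finSumFinEquiv (m := 2) (n := 1)).symm

/-- numbering -/
def e31 : Fin 4 ≃ Fin 3 ⊕ Fin 1 := (finSumFinEquiv (m := 3) (n := 1)).symm

lemma det11 (X : Matrix (Fin 1 ⊕ Fin 1) (Fin 1 ⊕ Fin 1) A) :
    X.det = X (Sum.inl 0) (Sum.inl 0) * X (Sum.inr 0) (Sum.inr 0) -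
      X (Sum.inl 0) (Sum.inr 0) * X (Sum.inr 0) (Sum.inl 0) := by
  rw [← det_submatrix_equiv_self e11, det_fin_two]
  rfl

lemma det21 (X : Matrix (Fin 2 ⊕ Fin 1) (Fin 2 ⊕ Fin 1) A) :
    X.det = X (Sum.inl 0) (Sum.inl 0) * X (Sum.inl 1) (Sum.inl 1) * X (Sum.inr 0) (Sum.inr 0) -
      X (Sum.inl 0) (Sum.inl 0) * X (Sum.inl 1) (Sum.inr 0) * X (Sum.inr 0) (Sum.inl 1) -
      X (Sum.inl 0) (Sum.inl 1) * X (Sum.inl 1) (Sum.inl 0) * X (Sum.inr 0) (Sum.inr 0) +
      X (Sum.inl 0) (Sum.inl 1) * X (Sum.inl 1) (Sum.inr 0) * X (Sum.inr 0) (Sum.inl 0) +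
      X (Sum.inl 0) (Sum.inr 0) * X (Sum.inl 1) (Sum.inl 0) * X (Sum.inr 0) (Sum.inl 1) -
      X (Sum.inl 0) (Sum.inr 0) * X (Sum.inl 1) (Sum.inl 1) * X (Sum.inr 0) (Sum.inl 0) := by
  rw [← det_submatrix_equiv_self e21, det_fin_three]
  rfl

lemma det_fin_four (X : Matrix (Fin 4) (Fin 4) A) : X.det =
    X 0 0 * (X 1 1 * X 2 2 * X 3 3 - X 1 1 * X 2 3 * X 3 2 - X 1 2 * X 2 1 * X 3 3 +
      X 1 2 * X 2 3 * X 3 1 + X 1 3 * X 2 1 * X 3 2 - X 1 3 * X 2 2 * X 3 1) -
    X 0 1 * (X 1 0 * X 2 2 * X 3 3 - X 1 0 * X 2 3 * X 3 2 - X 1 2 * X 2 0 * X 3 3 +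
      X 1 2 * X 2 3 * X 3 0 + X 1 3 * X 2 0 * X 3 2 - X 1 3 * X 2 2 * X 3 0) +
    X 0 2 * (X 1 0 * X 2 1 * X 3 3 - X 1 0 * X 2 3 * X 3 1 - X 1 1 * X 2 0 * X 3 3 +
      X 1 1 * X 2 3 * X 3 0 + X 1 3 * X 2 0 * X 3 1 - X 1 3 * X 2 1 * X 3 0) -
    X 0 3 * (X 1 0 * X 2 1 * X 3 2 - X 1 0 * X 2 2 * X 3 1 - X 1 1 * X 2 0 * X 3 2 +
      X 1 1 * X 2 2 * X 3 0 + X 1 2 * X 2 0 * X 3 1 - X 1 2 * X 2 1 * X 3 0) := by
  rw [det_succ_row_zero, Fin.sum_univ_four]
  simp only [det_fin_three, submatrix_apply]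
  have e1 : (0 : Fin 4).succAbove 0 = 1 := rfl
  have e2 : (0 : Fin 4).succAbove 1 = 2 := rfl
  have e3 : (0 : Fin 4).succAbove 2 = 3 := rfl
  have e4 : (1 : Fin 4).succAbove 0 = 0 := rfl
  have e5 : (1 : Fin 4).succAbove 1 = 2 := rfl
  have e6 : (1 : Fin 4).succAbove 2 = 3 := rfl
  have e7 : (2 : Fin 4).succAbove 0 = 0 := rfl
  have e8 : (2 : Fin 4).succAbove 1 = 1 := rfl
  have e9 : (2 : Fin 4).succAbove 2 = 3 := rfl
  have e10 : (3 : Fin 4).succAbove 0 = 0 := rfl
  have e11 : (3 : Fin 4).succAbove 1 = 1 := rfl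
  have e12 : (3 : Fin 4).succAbove 2 = 2 := rfl
  have s0 : (Fin.succ 0 : Fin 4) = 1 := rfl
  have s1 : (Fin.succ 1 : Fin 4) = 2 := rfl
  have s2 : (Fin.succ 2 : Fin 4) = 3 := rfl
  simp only [e1, e2, e3, e4, e5, e6, e7, e8, e9, e10, e11, e12, s0, s1, s2]
  have v0 : ((0 : Fin 4) : ℕ) = 0 := rfl
  have v1 : ((1 : Fin 4) : ℕ) = 1 := rfl
  have v2 : ((2 : Fin 4) : ℕ) = 2 := rfl
  have v3 : ((3 : Fin 4) : ℕ) = 3 := rfl
  rw [v0, v1, v2, v3]
  ring

lemma det31 (X : Matrix (Fin 3 ⊕ Fin 1) (Fin 3 ⊕ Fin 1) A) :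
    X.det = (X.submatrix e31 e31).det := (det_submatrix_equiv_self _ _).symm

/-! ### Single edges -/

/-- an edge between the terminals -/
lemma bd_pq (y : Fin 1 → A) (P : Matrix (Fin 2) n A) (M : Matrix n n A) :
    BD (diagonal y) (gi ![some 0] ![some 1]) (gi ![some 0] ![some 1]) P M =
      y 0 * M.det + (sa P M + sb P M - sr P M - sr' P M) := by
  refine univ (ι := Fin 1) (fun A _ M P y => BD (diagonal y) (gi ![some 0] ![some 1])
    (gi ![some 0] ![some 1]) P M)
    (fun A _ M P y => y 0 * M.det + (sa P M + sb P M - sr P M - sr' P M)) ?_ ?_ ?_ A M P y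
  · intro A B _ _ φ M P w
    rw [map_BD, map_diagonal', map_gi]
  · intro A B _ _ φ M P w
    rw [map_add, map_mul, map_sub, map_sub, map_add, map_sa, map_sb, map_sr, map_sr',
      RingHom.map_det, RingHom.mapMatrix_apply]
    rfl
  · intro K _ M P w h
    rw [sa_field P M h, sb_field P M h, sr_field P M h, sr'_field P M h, BD_field _ _ _ _ _ h]
    generalize P * M⁻¹ * Pᵀ = g
    rw [det_fin_one, Matrix.add_apply, Matrix.mul_apply, Fin.sum_univ_two, Matrix.mul_apply,
      Matrix.mul_apply, Fin.sum_univ_two, Fin.sum_univ_two]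
    simp [gi]
    ring

/-- an edge between the first terminal and the root -/
lemma bd_po (y : Fin 1 → A) (P : Matrix (Fin 2) n A) (M : Matrix n n A) :
    BD (diagonal y) (gi ![some 0] ![none]) (gi ![some 0] ![none]) P M =
      y 0 * M.det + sa P M := by
  refine univ (ι := Fin 1) (fun A _ M P y => BD (diagonal y) (gi ![some 0] ![none])
    (gi ![some 0] ![none]) P M)
    (fun A _ M P y => y 0 * M.det + sa P M) ?_ ?_ ?_ A M P y
  · intro A B _ _ φ M P w
    rw [map_BD, map_diagonal', map_gi]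
  · intro A B _ _ φ M P w
    rw [map_add, map_mul, map_sa, RingHom.map_det, RingHom.mapMatrix_apply]
    rfl
  · intro K _ M P w h
    rw [sa_field P M h, BD_field _ _ _ _ _ h]
    generalize P * M⁻¹ * Pᵀ = g
    rw [det_fin_one, Matrix.add_apply, Matrix.mul_apply, Fin.sum_univ_two, Matrix.mul_apply,
      Matrix.mul_apply, Fin.sum_univ_two, Fin.sum_univ_two]
    simp [gi]
    ring

/-- an edge between the terminals and an edge between the first terminal and the root -/
lemma bd_two (y : Fin 2 → A) (P : Matrix (Fin 2) n A) (M : Matrix n n A) :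
    BD (diagonal y) (gi ![some 0, some 0] ![some 1, none])
      (gi ![some 0, some 0] ![some 1, none]) P M =
      y 0 * y 1 * M.det + y 1 * (sa P M + sb P M - sr P M - sr' P M) + y 0 * sa P M + sF P M := by
  refine univ (ι := Fin 2) (fun A _ M P y => BD (diagonal y) (gi ![some 0, some 0] ![some 1, none])
      (gi ![some 0, some 0] ![some 1, none]) P M)
    (fun A _ M P y => y 0 * y 1 * M.det + y 1 * (sa P M + sb P M - sr P M - sr' P M) +
      y 0 * sa P M + sF P M) ?_ ?_ ?_ A M P y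
  · intro A B _ _ φ M P w
    rw [map_BD, map_diagonal', map_gi]
  · intro A B _ _ φ M P w
    rw [map_add, map_add, map_add, map_mul, map_mul, map_mul, map_mul, map_sub, map_sub, map_add,
      map_sa, map_sb, map_sr, map_sr', map_sF, RingHom.map_det, RingHom.mapMatrix_apply]
    rfl
  · intro K _ M P w h
    rw [sa_field P M h, sb_field P M h, sr_field P M h, sr'_field P M h, sF_field P M h,
      BD_field _ _ _ _ _ h]
    generalize P * M⁻¹ * Pᵀ = g
    rw [det_fin_two]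
    simp only [Matrix.add_apply, Matrix.mul_apply, Fin.sum_univ_two, transpose_apply]
    simp [gi]
    ring

/-! ### The star -/

/-- sources of the star -/
def sS : Fin 3 → Option (Fin 1 ⊕ Fin 2) := ![some (Sum.inr 0), some (Sum.inr 1), none]

/-- targets of the star -/
def tS : Fin 3 → Option (Fin 1 ⊕ Fin 2) := fun _ => some (Sum.inl 0)

lemma bd_star (y : Fin 3 → A) (P : Matrix (Fin 2) n A) (M : Matrix n n A) :
    BD (fromBlocks (diagonal y) ((gi sS tS).submatrix id Sum.inl)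
        (-((gi sS tS).submatrix id Sum.inl)ᵀ) 0)
      (fromRows ((gi sS tS).submatrix id Sum.inr) 0) (fromRows ((gi sS tS).submatrix id Sum.inr) 0)
      P M =
      (y 0 * y 1 + y 0 * y 2 + y 1 * y 2) * M.det + y 0 * sb P M + y 1 * sa P M +
        y 2 * (sa P M + sb P M - sr P M - sr' P M) + sF P M := by
  refine univ (ι := Fin 3) (fun A _ M P y =>
    BD (fromBlocks (diagonal y) ((gi sS tS).submatrix id Sum.inl)
        (-((gi sS tS).submatrix id Sum.inl)ᵀ) 0)
      (fromRows ((gi sS tS).submatrix id Sum.inr) 0) (fromRows ((gi sS tS).submatrix id Sum.inr) 0)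
      P M)
    (fun A _ M P y => (y 0 * y 1 + y 0 * y 2 + y 1 * y 2) * M.det + y 0 * sb P M + y 1 * sa P M +
        y 2 * (sa P M + sb P M - sr P M - sr' P M) + sF P M) ?_ ?_ ?_ A M P y
  · intro A B _ _ φ M P w
    rw [map_BD]
    have h0 : ((gi sS tS : Matrix _ _ A).submatrix id (Sum.inl : Fin 1 → _)).map φ =
        (gi sS tS).submatrix id Sum.inl := by
      rw [← submatrix_map, map_gi]
    have h1 : ((gi sS tS : Matrix _ _ A).submatrix id (Sum.inr : Fin 2 → _)).map φ =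
        (gi sS tS).submatrix id Sum.inr := by
      rw [← submatrix_map, map_gi]
    congr 1
    · rw [fromBlocks_map, map_diagonal', Matrix.map_neg _ (map_neg φ), transpose_map, h0]
      congr 1
      ext i j
      simp
    · rw [fromRows_map, h1]
      congr 1
      ext i j
      simp
    · rw [fromRows_map, h1]
      congr 1
      ext i j
      simp
  · intro A B _ _ φ M P w
    simp only [map_add, map_mul, map_sub,
      map_sa, map_sb, map_sr, map_sr', map_sF, RingHom.map_det, RingHom.mapMatrix_apply]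
    rfl
  · intro K _ M P w h
    rw [sa_field P M h, sb_field P M h, sr_field P M h, sr'_field P M h, sF_field P M h,
      BD_field _ _ _ _ _ h]
    generalize P * M⁻¹ * Pᵀ = g
    rw [det31, det_fin_four]
    have a0 : e31 0 = Sum.inl 0 := rfl
    have a1 : e31 1 = Sum.inl 1 := rfl
    have a2 : e31 2 = Sum.inl 2 := rfl
    have a3 : e31 3 = Sum.inr 0 := rfl
    simp only [submatrix_apply, a0, a1, a2, a3, Matrix.add_apply, Matrix.mul_apply,
      Fin.sum_univ_two, transpose_apply, fromBlocks_apply₁₁, fromBlocks_apply₁₂,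
      fromBlocks_apply₂₁, fromBlocks_apply₂₂, fromRows_apply_inl, fromRows_apply_inr, diagonal_apply,
      Matrix.neg_apply, Matrix.zero_apply]
    simp [gi, sS, tS]
    ring

end

end Pool.Agent.Phi4
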