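import Pool.Agent.Phi4.Simp
import Pool.Agent.KB.Girth

/-!
# Large girth by subdivision
-/

set_option autoImplicit false
set_option linter.unusedSectionVars false

open Matrix MvPolynomial
open Pool.Agent.Helper81.CP Pool.Agent.Helper81.HG
open Pool.Agent.KB (Lip Cy girth_of_cy)

namespace Pool.Agent.Phi4

section

variable {V : Type}

/-- a simple graph has no cycle with less than three edges -/
lemma cy_three (H : SimpleGraph V) : Cy H (fun _ _ => 1) 3 := by
  classical
  intro s t hst
  have hne : s ≠ t := hst.ne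
  refine ⟨fun x => if x = s then 0 else if x = t then 2 else 1, ?_, ?_⟩
  · intro x y hxy h1 h2
    have hxy' : x ≠ y := hxy.ne
    have h3 : ¬ (x = t ∧ y = s) := h2
    dsimp only
    split_ifs <;> first | omega | (exfalso; apply h3; constructor <;> assumption)
  · simp [hne.symm]

/-- the negative of a potential -/
lemma lip_neg {Γ : SimpleGraph V} {s t : V} {φ : V → ℤ} (h : Lip Γ (fun _ _ => 1) s t φ) :
    Lip Γ (fun _ _ => 1) t s (fun x => - φ x) := by
  intro x y hxy h1 h2
  have := h y x hxy.symm (fun h3 => h1 ⟨h3.2, h3.1⟩) (fun h3 => h2 ⟨h3.2, h3.1⟩)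
  dsimp only at this ⊢
  omega

lemma cy_sdv (H : SimpleGraph V) (s t : H.edgeSet → V) (hst : ∀ e, s(s e, t e) = e.1) {g : ℕ}
    (hC : Cy H (fun _ _ => 1) g) : Cy (sdv s t) (fun _ _ => 1) (2 * g) := by
  classical
  have hadj : ∀ e, H.Adj (s e) (t e) := fun e => by
    have h1 := e.2
    rw [← hst e, SimpleGraph.mem_edgeSet] at h1
    exact h1
  have huniq : ∀ e f : H.edgeSet, (s f = s e ∧ t f = t e) ∨ (s f = t e ∧ t f = s e) → f = e := by
    intro e f h
    apply Subtype.ext
    rw [← hst e, ← hst f, Sym2.eq_iff]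
    exact h
  -- the first kind of half edges
  have key : ∀ (e : H.edgeSet) (v v' : V), ((v = s e ∧ v' = t e) ∨ (v = t e ∧ v' = s e)) →
      ∃ φ : V ⊕ H.edgeSet → ℤ, Lip (sdv s t) (fun _ _ => 1) (Sum.inl v) (Sum.inr e) φ ∧
        ((2 * g : ℕ) : ℤ) - ((1 : ℕ) : ℤ) ≤ φ (Sum.inr e) - φ (Sum.inl v) := by
    intro e v v' hv
    have hvv : H.Adj v v' := by
      rcases hv with ⟨rfl, rfl⟩ | ⟨rfl, rfl⟩
      · exact hadj e
      · exact (hadj e).symm
    obtain ⟨φ, h1, h2⟩ := hC v v' hvv
    refine ⟨Sum.elim (fun x => 2 * φ x)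
      (fun f => if f = e then 2 * φ v' + 1 else φ (s f) + φ (t f)), ?_, ?_⟩
    · -- the other half edges
      have hf : ∀ f, f ≠ e → φ (s f) - φ (t f) ≤ 1 ∧ φ (t f) - φ (s f) ≤ 1 := by
        intro f hfe
        have n1 : ¬ ((s f = s e ∧ t f = t e) ∨ (s f = t e ∧ t f = s e)) :=
          fun h => hfe (huniq e f h)
        have a1 : ¬ (s f = v ∧ t f = v') := by
          rintro ⟨b1, b2⟩
          apply n1
          rcases hv with ⟨rfl, rfl⟩ | ⟨rfl, rfl⟩
          · exact Or.inl ⟨b1, b2⟩
          · exact Or.inr ⟨b1, b2⟩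
        have a2 : ¬ (s f = v' ∧ t f = v) := by
          rintro ⟨b1, b2⟩
          apply n1
          rcases hv with ⟨rfl, rfl⟩ | ⟨rfl, rfl⟩
          · exact Or.inr ⟨b1, b2⟩
          · exact Or.inl ⟨b1, b2⟩
        have c1 := h1 (s f) (t f) (hadj f) a1 a2
        have c2 := h1 (t f) (s f) (hadj f).symm (fun h => a2 ⟨h.2, h.1⟩) (fun h => a1 ⟨h.2, h.1⟩)
        exact ⟨by exact_mod_cast c1, by exact_mod_cast c2⟩
      have hends : ∀ (f : H.edgeSet) (x : V), (x = s f ∨ x = t f) → ¬ (f = e ∧ x = v) →
          2 * φ x - (if f = e then 2 * φ v' + 1 else φ (s f) + φ (t f)) ≤ 1 ∧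
          (if f = e then 2 * φ v' + 1 else φ (s f) + φ (t f)) - 2 * φ x ≤ 1 := by
        intro f x hx hn
        by_cases hfe : f = e
        · subst hfe
          rw [if_pos rfl]
          have hxv : x = v' := by
            by_contra hc
            apply hn
            refine ⟨rfl, ?_⟩
            rcases hv with ⟨rfl, rfl⟩ | ⟨rfl, rfl⟩
            · rcases hx with h | h
              · exact h
              · exact absurd h hc
            · rcases hx with h | h
              · exact absurd h hc
              · exact h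
          subst hxv
          constructor <;> omega
        · rw [if_neg hfe]
          obtain ⟨d1, d2⟩ := hf f hfe
          rcases hx with rfl | rfl
          · constructor <;> omega
          · constructor <;> omega
      rintro (x | f) (y | f') hxy n1 n2
      · exact absurd hxy (fun h => h)
      · have hx : x = s f' ∨ x = t f' := hxy
        have := (hends f' x hx (fun h => n1 ⟨by rw [h.2], by rw [h.1]⟩)).1
        simpa using this
      · have hy : y = s f ∨ y = t f := hxy
        have := (hends f y hy (fun h => n2 ⟨by rw [h.1], by rw [h.2]⟩)).2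
        simpa using this
      · exact absurd hxy (fun h => h)
    · simp only [Sum.elim_inl, Sum.elim_inr, if_true]
      push_cast at h2 ⊢
      omega
  have key2 : ∀ (e : H.edgeSet) (v : V), (v = s e ∨ v = t e) →
      ∃ φ : V ⊕ H.edgeSet → ℤ, Lip (sdv s t) (fun _ _ => 1) (Sum.inl v) (Sum.inr e) φ ∧
        ((2 * g : ℕ) : ℤ) - ((1 : ℕ) : ℤ) ≤ φ (Sum.inr e) - φ (Sum.inl v) := by
    intro e v hv
    rcases hv with h | h
    · exact key e v (t e) (Or.inl ⟨h, rfl⟩)
    · exact key e v (s e) (Or.inr ⟨h, rfl⟩)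
  rintro (x | f) (y | f') hxy
  · exact absurd hxy (fun h => h)
  · exact key2 f' x hxy
  · obtain ⟨φ, h1, h2⟩ := key2 f y hxy
    refine ⟨fun x => - φ x, lip_neg h1, ?_⟩
    dsimp only at h2 ⊢
    omega
  · exact absurd hxy (fun h => h)

lemma dg_le_ncard [Fintype V] [DecidableEq V] (H : SimpleGraph V) [Fintype H.edgeSet]
    (s t : H.edgeSet → V) (hst : ∀ e, s(s e, t e) = e.1) (v : V) :
    dg s t v ≤ (H.neighborSet v).ncard := by
  classical
  have hadj : ∀ e, H.Adj (s e) (t e) := fun e => by
    have h1 := e.2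
    rw [← hst e, SimpleGraph.mem_edgeSet] at h1
    exact h1
  have h1 : dg s t v = (Finset.univ.filter fun e => s e = v ∨ t e = v).card := by
    unfold dg
    rw [Finset.card_filter]
    refine Finset.sum_congr rfl fun e _ => ?_
    have hne : s e ≠ t e := (hadj e).ne
    by_cases a : s e = v
    · have b : t e ≠ v := fun h => hne (a.trans h.symm)
      rw [if_pos a, if_neg b, if_pos (Or.inl a)]
    · by_cases b : t e = v
      · rw [if_neg a, if_pos b, if_pos (Or.inr b)]
      · rw [if_neg a, if_neg b, if_neg (by tauto)]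
  rw [h1, ← Set.ncard_coe_finset]
  refine Set.ncard_le_ncard_of_injOn (fun e => if s e = v then t e else s e) ?_ ?_
    (Set.toFinite _)
  · intro e he
    have he' : s e = v ∨ t e = v := by simpa using he
    show H.Adj v _
    by_cases a : s e = v
    · rw [if_pos a, ← a]
      exact hadj e
    · rw [if_neg a]
      rcases he' with h | h
      · exact absurd h a
      · rw [← h]
        exact (hadj e).symm
  · intro e he f hf hef
    have he' : s e = v ∨ t e = v := by simpa using he
    have hf' : s f = v ∨ t f = v := by simpa using hf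
    have q : ∀ e : H.edgeSet, (s e = v ∨ t e = v) →
        e.1 = s(v, if s e = v then t e else s e) := by
      intro e he
      rw [← hst e]
      by_cases a : s e = v
      · rw [if_pos a, a]
      · rw [if_neg a]
        rcases he with h | h
        · exact absurd h a
        · rw [h, Sym2.eq_swap]
    apply Subtype.ext
    rw [q e he', q f hf']
    dsimp only at hef
    rw [hef]

lemma connected_sdv (H : SimpleGraph V) (hc : H.Connected)
    (s t : H.edgeSet → V) (hst : ∀ e, s(s e, t e) = e.1) : (sdv s t).Connected := by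
  classical
  obtain ⟨v0⟩ := hc.nonempty
  have h1 : ∀ a b, H.Adj a b → (sdv s t).Reachable (Sum.inl a) (Sum.inl b) := by
    intro a b hab
    have h2 := hst ⟨s(a, b), hab⟩
    dsimp only at h2
    have h3 : (sdv s t).Adj (Sum.inl a) (Sum.inr ⟨s(a, b), hab⟩) := by
      show a = s _ ∨ a = t _
      rw [Sym2.eq_iff] at h2
      rcases h2 with ⟨h, _⟩ | ⟨_, h⟩
      · exact Or.inl h.symm
      · exact Or.inr h.symm
    have h4 : (sdv s t).Adj (Sum.inr ⟨s(a, b), hab⟩) (Sum.inl b) := by
      show b = s _ ∨ b = t _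
      rw [Sym2.eq_iff] at h2
      rcases h2 with ⟨_, h⟩ | ⟨h, _⟩
      · exact Or.inr h.symm
      · exact Or.inl h.symm
    exact h3.reachable.trans h4.reachable
  have h2 : ∀ a b, (p : H.Walk a b) → (sdv s t).Reachable (Sum.inl a) (Sum.inl b) := by
    intro a b p
    induction p with
    | nil => exact SimpleGraph.Reachable.refl _
    | cons h _ ih => exact (h1 _ _ h).trans ih
  have h3 : ∀ x, (sdv s t).Reachable (Sum.inl v0) x := by
    rintro (v | e)
    · obtain ⟨p⟩ := hc.preconnected v0 v
      exact h2 _ _ p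
    · obtain ⟨p⟩ := hc.preconnected v0 (s e)
      have h4 : (sdv s t).Adj (Sum.inl (s e)) (Sum.inr e) := Or.inl rfl
      exact (h2 _ _ p).trans h4.reachable
  have : Nonempty (V ⊕ H.edgeSet) := ⟨Sum.inl v0⟩
  exact ⟨fun x y => (h3 x).symm.trans (h3 y)⟩

end

section

variable {G : ∀ (R : Type) [CommRing R], Prop}

theorem gs_psi_of_sdv (hG : RG G) {E V : Type} [Fintype E] [DecidableEq E] [Fintype V]
    [DecidableEq V] (s t : E → V) (o : V) (hl : ∀ e, s e ≠ t e)
    (h1 : GS G ({symanzik (sdv s t)} : Set (MvPolynomial (sdv s t).edgeSet ℤ))) :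
    GS G ({psi s t o} : Set (MvPolynomial E ℤ)) := by
  classical
  let f : E ⊕ E ≃ (sdv s t).edgeSet := Equiv.ofBijective (hf s t) (hf_bij s t hl)
  have hfv : ∀ x, f x = hf s t x := fun x => rfl
  have h2 : GS G (rename (Sum.inl : E → E ⊕ E) '' {psi s t o}) := by
    refine (hG.gs_iso (E := ({symanzik (sdv s t)} : Set (MvPolynomial (sdv s t).edgeSet ℤ)))
      (E' := rename (Sum.inl : E → E ⊕ E) '' {psi s t o})
      (fun A _ x => Sum.elim (fun e => x (f (Sum.inl e)) + x (f (Sum.inr e)))
        (fun e => x (f (Sum.inr e))))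
      (fun A _ y => fun h => Sum.elim (fun e => y (Sum.inl e) - y (Sum.inr e))
        (fun e => y (Sum.inr e)) (f.symm h)) ?_ ?_ ?_ ?_ ?_ ?_).mp h1
    · intro A B _ _ φ x _ j
      rcases j with e | e
      · exact map_add φ _ _
      · rfl
    · intro A B _ _ φ y _ i
      dsimp only
      rcases f.symm i with e | e
      · exact map_sub φ _ _
      · rfl
    · rintro A _ x hx _ ⟨p, hp, rfl⟩
      rw [Set.mem_singleton_iff.mp hp, ev_rename]
      have h3 := hx _ rfl
      rw [ev_symanzik_sdv s t o hl] at h3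
      exact h3
    · intro A _ y hy p hp
      rw [Set.mem_singleton_iff.mp hp, ev_symanzik_sdv s t o hl]
      have h3 := hy _ ⟨_, rfl, rfl⟩
      rw [ev_rename] at h3
      simp only [← hfv, Equiv.symm_apply_apply, Sum.elim_inl, Sum.elim_inr, sub_add_cancel]
      exact h3
    · intro A _ x _
      funext i
      obtain ⟨z, rfl⟩ := f.surjective i
      rw [Equiv.symm_apply_apply]
      rcases z with e | e
      · simp
      · rfl
    · intro A _ y _
      funext i
      rcases i with e | e
      · simp
      · simp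
  exact (hG.gs_emb Sum.inl Sum.inl_injective _).mp h2

theorem gs_symanzik_of_girth (hG : RG G) (g : ℕ)
    (h : ∀ (V : Type) [Fintype V] (H : SimpleGraph V), H.Connected →
      (∀ v, (H.neighborSet v).ncard ≤ 4) → (g : ℕ∞) ≤ H.egirth →
      GS G ({symanzik H} : Set (MvPolynomial H.edgeSet ℤ)))
    (V : Type) [Fintype V] (H : SimpleGraph V) (hc : H.Connected)
    (hd : ∀ v, (H.neighborSet v).ncard ≤ 4) :
    GS G ({symanzik H} : Set (MvPolynomial H.edgeSet ℤ)) := by
  classical
  have key : ∀ n m : ℕ, g ≤ m * 2 ^ n → ∀ (V : Type) [Fintype V] (H : SimpleGraph V),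
      H.Connected → (∀ v, (H.neighborSet v).ncard ≤ 4) → Cy H (fun _ _ => 1) m →
      GS G ({symanzik H} : Set (MvPolynomial H.edgeSet ℤ)) := by
    intro n
    induction n with
    | zero =>
      intro m hm V _ H hc hd hC
      refine h V H hc hd (le_trans ?_ (girth_of_cy hC fun _ _ _ => le_rfl))
      exact_mod_cast (by simpa using hm : g ≤ m)
    | succ n ih =>
      intro m hm V _ H hc hd hC
      have hex : ∀ e : H.edgeSet, ∃ p : V × V, s(p.1, p.2) = e.1 := by
        rintro ⟨e, he⟩
        induction e using Sym2.ind with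
        | _ a b => exact ⟨(a, b), rfl⟩
      choose p hp using hex
      let s : H.edgeSet → V := fun e => (p e).1
      let t : H.edgeSet → V := fun e => (p e).2
      have hst : ∀ e, s(s e, t e) = e.1 := hp
      have hl : ∀ e, s e ≠ t e := by
        intro e he
        have h1 := e.2
        rw [← hst e, SimpleGraph.mem_edgeSet] at h1
        exact h1.ne he
      obtain ⟨o⟩ := hc.nonempty
      have h1 : GS G ({symanzik (sdv s t)} : Set (MvPolynomial (sdv s t).edgeSet ℤ)) :=
        ih (2 * m) (by rw [pow_succ] at hm; calc g ≤ m * (2 ^ n * 2) := hm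
                          _ = 2 * m * 2 ^ n := by ring) _ (sdv s t) (connected_sdv H hc s t hst)
          (nb_sdv s t fun v => (dg_le_ncard H s t hst v).trans (hd v)) (cy_sdv H s t hst hC)
      have h2 := gs_psi_of_sdv hG s t o hl h1
      rw [psi_symanzik H s t hst o] at h2
      exact h2
  refine key g 3 ?_ V H hc hd (cy_three H)
  have : g < 2 ^ g := Nat.lt_two_pow_self
  omega

end

end Pool.Agent.Phi4
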