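import Pool.Agent.Phi4.Step

/-!
# The induction
-/

set_option autoImplicit false
set_option linter.unusedSectionVars false

open Matrix MvPolynomial
open Pool.Agent.Helper81.CP Pool.Agent.Helper81.HG
open Pool.Agent.KB (gs_affine)

namespace Pool.Agent.Phi4

section

variable {E V A : Type} [CommRing A] [DecidableEq V] [DecidableEq E] [Fintype E] [Fintype V]

/-- the orientation of all edges is reversed -/
lemma DD_swap (s t : E → V) (o : V) (a b : E → A) : DD t s o a b = DD s t o a b := by
  unfold DD
  have hD : (fromBlocks 1 0 0 (-1) : Matrix (E ⊕ V) (E ⊕ V) A).det *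
      (fromBlocks 1 0 0 (-1) : Matrix (E ⊕ V) (E ⊕ V) A).det = 1 := by
    rw [← det_mul, fromBlocks_multiply]
    simp
  have h : MM t s o a b = (fromBlocks 1 0 0 (-1) : Matrix (E ⊕ V) (E ⊕ V) A) * MM s t o a b *
      (fromBlocks 1 0 0 (-1) : Matrix (E ⊕ V) (E ⊕ V) A) := by
    unfold MM
    rw [fromBlocks_multiply, fromBlocks_multiply]
    simp only [Matrix.mul_zero, Matrix.zero_mul, Matrix.one_mul, Matrix.mul_one, add_zero, zero_add,
      Matrix.mul_neg, Matrix.neg_mul, neg_neg]
    congr 1
    · ext e v
      simp only [inc, Matrix.of_apply, Matrix.neg_apply]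
      ring
    · ext v e
      simp only [inc, Matrix.of_apply, Matrix.neg_apply]
      ring
  rw [h, det_mul, det_mul, mul_comm (det _) (det _), mul_assoc, hD, mul_one]

lemma psi_swap (s t : E → V) (o : V) : psi t s o = psi s t o := DD_swap s t o X 1

lemma dg_swap (s t : E → V) (v : V) : dg t s v = dg s t v := by
  unfold dg
  exact Finset.sum_congr rfl fun e _ => add_comm _ _

lemma exc_swap (s t : E → V) : exc t s = exc s t := by
  unfold exc
  exact Finset.sum_congr rfl fun v _ => by rw [dg_swap]

lemma dg_reindex {E' V' : Type} [DecidableEq V'] [DecidableEq E'] [Fintype E'] [Fintype V']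
    (f : E' ≃ E) (g : V' ≃ V) (s t : E → V) (s' t' : E' → V') (hs : ∀ e, g (s' e) = s (f e))
    (ht : ∀ e, g (t' e) = t (f e)) (v : V') : dg s' t' v = dg s t (g v) := by
  unfold dg
  rw [← Equiv.sum_comp f]
  refine Finset.sum_congr rfl fun e _ => ?_
  simp only [← hs, ← ht, g.apply_eq_iff_eq]

lemma exc_reindex {E' V' : Type} [DecidableEq V'] [DecidableEq E'] [Fintype E'] [Fintype V']
    (f : E' ≃ E) (g : V' ≃ V) (s t : E → V) (s' t' : E' → V') (hs : ∀ e, g (s' e) = s (f e))
    (ht : ∀ e, g (t' e) = t (f e)) : exc s' t' = exc s t := by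
  unfold exc
  rw [← Equiv.sum_comp g]
  refine Finset.sum_congr rfl fun v _ => ?_
  rw [dg_reindex f g s t s' t' hs ht]

end

section

variable {G : ∀ (R : Type) [CommRing R], Prop} {E V : Type} [DecidableEq V] [DecidableEq E]
  [Fintype E] [Fintype V]

/-- the induction step for a general graph -/
lemma step_gen (hG : RG G) (hpt : GS G (∅ : Set (MvPolynomial Empty ℤ))) {n : ℕ} (hI : IH G n)
    (s t : E → V) (hl : ∀ e, s e ≠ t e) (e₀ : E) (hd : 5 ≤ dg s t (s e₀)) (hn : exc s t ≤ n) :
    GS G ({psi s t (t e₀)} : Set (MvPolynomial E ℤ)) := by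
  let W := {v : V // v ≠ t e₀}
  let E₁ := {e : E // e ≠ e₀}
  let f : Fin 1 ⊕ E₁ ≃ E :=
    { toFun := Sum.elim (fun _ => e₀) Subtype.val
      invFun := fun e => if h : e = e₀ then Sum.inl 0 else Sum.inr ⟨e, h⟩
      left_inv := by
        rintro (i | e)
        · fin_cases i
          simp
        · simp [e.2]
      right_inv := by
        intro e
        dsimp only
        split_ifs with h
        · exact h.symm
        · rfl }
  let g : Option W ≃ V :=
    { toFun := fun x => x.elim (t e₀) Subtype.val
      invFun := fun v => if h : v = t e₀ then none else some ⟨v, h⟩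
      left_inv := by
        rintro (_ | w)
        · simp
        · simp [w.2]
      right_inv := by
        intro v
        dsimp only
        split_ifs with h
        · exact h.symm
        · rfl }
  let w₀ : W := ⟨s e₀, hl e₀⟩
  let s₁ : E₁ → Option W := fun e => g.symm (s e.1)
  let t₁ : E₁ → Option W := fun e => g.symm (t e.1)
  let s' : Fin 1 ⊕ E₁ → Option W := Sum.elim (fun _ : Fin 1 => some w₀) s₁
  let t' : Fin 1 ⊕ E₁ → Option W := Sum.elim (fun _ : Fin 1 => none) t₁
  have hs : ∀ e, g (s' e) = s (f e) := by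
    rintro (i | e)
    · rfl
    · exact g.apply_symm_apply _
  have ht : ∀ e, g (t' e) = t (f e) := by
    rintro (i | e)
    · rfl
    · exact g.apply_symm_apply _
  have hl1 : ∀ e, s₁ e ≠ t₁ e := fun e h => hl e.1 (g.symm.injective h)
  have hd1 : 4 ≤ dg s₁ t₁ (some w₀) := by
    have h1 := dg_reindex f g s t s' t' hs ht (some w₀)
    have h2 := dg_add (id : Option W → Option W) Function.injective_id
      (fun _ : Fin 1 => some w₀) (fun _ => none) s₁ t₁ (some w₀)
    have h3 : dg (fun _ : Fin 1 => some w₀) (fun _ => none) (some w₀) = 1 := by simp [dg]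
    have h4 : dg s' t' (some w₀) = 1 + dg s₁ t₁ (some w₀) :=
      h2.trans (congrArg (fun z => z + dg s₁ t₁ (some w₀)) h3)
    have h5 : g (some w₀) = s e₀ := rfl
    rw [h5] at h1
    omega
  have hn1 : exc s' t' ≤ n := by
    rw [exc_reindex f g s t s' t' hs ht]
    exact hn
  have h1 := step hG hpt hI s₁ t₁ w₀ hl1 hd1 hn1
  refine Gd.gs hG (Gd.ext hG f f.injective (Gd.of_gs hG h1)) fun A _ x => ?_
  have h2 := DD_reindex f g s t s' t' hs ht none x (1 : E → A)
  have h3 : ev (fun i => x (f i)) (psi s' t' none) = ev x (psi s t (t e₀)) := by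
    rw [ev_psi, ev_psi]
    exact h2
  constructor
  · rintro h4 _ rfl
    rw [← h3]
    exact h4 _ rfl
  · rintro h4 _ rfl
    exact h3.trans (h4 _ rfl)

/-- **from degrees at most `4` to all multigraphs** -/
theorem gs_psi_all (hG : RG G) (hpt : GS G (∅ : Set (MvPolynomial Empty ℤ)))
    (h4 : ∀ (E V : Type) [Fintype E] [DecidableEq E] [Fintype V] [DecidableEq V] (s t : E → V)
      (o : V), (∀ e, s e ≠ t e) → (∀ v, dg s t v ≤ 4) →
      GS G ({psi s t o} : Set (MvPolynomial E ℤ)))
    (E V : Type) [Fintype E] [DecidableEq E] [Fintype V] [DecidableEq V] (s t : E → V) (o : V)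
    (hl : ∀ e, s e ≠ t e) : GS G ({psi s t o} : Set (MvPolynomial E ℤ)) := by
  have key : ∀ n, IH G n := by
    intro n
    induction n with
    | zero =>
      intro E V _ _ _ _ s t o _ h
      exact absurd h (Nat.not_lt_zero _)
    | succ n ih =>
      intro E V _ _ _ _ s t o hl h
      by_cases h0 : ∀ v, dg s t v ≤ 4
      · exact h4 E V s t o hl h0
      · push Not at h0
        obtain ⟨v, hv⟩ := h0
        have h1 : dg s t v ≠ 0 := by omega
        unfold dg at h1
        obtain ⟨e, _, he⟩ := Finset.exists_ne_zero_of_sum_ne_zero h1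
        have h2 : s e = v ∨ t e = v := by
          by_contra hcon
          push Not at hcon
          apply he
          rw [if_neg hcon.1, if_neg hcon.2]
          rfl
        rcases h2 with h2 | h2
        · rw [psi_root s t o (t e)]
          exact step_gen hG hpt ih s t hl e (by rw [h2]; exact hv) (Nat.lt_succ_iff.mp h)
        · rw [psi_root s t o (s e), ← psi_swap]
          refine step_gen hG hpt ih t s (fun e => (hl e).symm) e ?_ ?_
          · rw [h2, dg_swap]
            exact hv
          · rw [exc_swap]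
            exact Nat.lt_succ_iff.mp h
  exact key (exc s t + 1) E V s t o hl (Nat.lt_succ_self _)

end

end Pool.Agent.Phi4
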