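import Pool.Agent.Phi4.Simp

/-!
# From resistances to conductances
-/

set_option autoImplicit false
set_option linter.unusedSectionVars false

open Matrix MvPolynomial
open Pool.Agent.Helper81.CP Pool.Agent.Helper81.HG
open Pool.Agent.Helper50.KR (IsSpanningTree kirchhoff)
open Pool.Agent.KB (gs_affine)

namespace Pool.Agent.Phi4

/-! ### The cut and paste argument -/

section

variable {G : ∀ (R : Type) [CommRing R], Prop} {τ : Type} [Finite τ]

/-- three hypersurfaces give a fourth -/
theorem gd_mix (hG : RG G) (hpt : GS G (∅ : Set (MvPolynomial Empty ℤ))) (a1 a2 : τ)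
    (ha : a1 ≠ a2) (PA PB : MvPolynomial τ ℤ) (hA1 : Frp a1 PA) (hA2 : Frp a2 PA)
    (hB1 : Frp a1 PB) (hB2 : Frp a2 PB)
    (g0 : Gd G (fun _ _ x => ev x PA = 0 : Pd τ))
    (g1 : Gd G (fun _ _ x => x a2 * ev x PA + ev x PB = 0 : Pd τ))
    (g2 : Gd G (fun _ _ x => x a1 * (x a2 * ev x PA + ev x PB) + x a2 * ev x PB = 0 : Pd τ)) :
    Gd G (fun _ _ x => ev x PA + x a1 * ev x PB = 0 : Pd τ) := by
  have gt : Gd G (fun _ _ _ => True : Pd τ) :=
    (Gd.of_gs hG (gs_affine hG hpt τ)).congr fun A _ x =>
      ⟨fun _ => trivial, fun _ p hp => absurd hp (Set.notMem_empty p)⟩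
  -- the open set `A` invertible
  have gAu : Gd G (fun _ _ x => IsUnit (ev x PA) : Pd τ) :=
    (gt.opn hG PA (g0.congr fun A _ x => ⟨fun h => ⟨trivial, h⟩, fun h => h.2⟩)).congr
      fun A _ x => ⟨fun h => h.2, fun h => ⟨trivial, h⟩⟩
  have g1A : Gd G (fun _ _ x => x a2 * ev x PA + ev x PB = 0 ∧ IsUnit (ev x PA) : Pd τ) := by
    refine Gd.solve hG gAu a2 ?_ PA PB hA2 hB2 (fun A _ x hx => hx)
      fun A _ x => ⟨fun h => ⟨h.2, h.1⟩, fun h => ⟨h.2, h.1⟩⟩
    intro A _ x y hxy hx
    rw [hA2 A x y hxy]
    exact hx
  have gAB : Gd G (fun _ _ x => ev x PA = 0 ∧ ev x PB = 0 : Pd τ) :=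
    (g1.closed hG PA g1A).congr fun A _ x => by
      constructor
      · rintro ⟨h1, h2⟩
        rw [h2, mul_zero, zero_add] at h1
        exact ⟨h2, h1⟩
      · rintro ⟨h1, h2⟩
        exact ⟨by rw [h1, h2, mul_zero, zero_add], h1⟩
  have e1 : ∀ (A : Type) [CommRing A] (x : τ → A),
      ev x (X a2 * PA + PB) = x a2 * ev x PA + ev x PB := by
    intro A _ x
    rw [map_add, map_mul, ev_X]
  have g1u : Gd G (fun _ _ x => IsUnit (ev x (X a2 * PA + PB)) : Pd τ) :=
    (gt.opn hG (X a2 * PA + PB) (g1.congr fun A _ x =>
      ⟨fun h => ⟨trivial, by rw [e1]; exact h⟩, fun h => by rw [← e1]; exact h.2⟩)).congr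
      fun A _ x => ⟨fun h => h.2, fun h => ⟨trivial, h⟩⟩
  have hfr1 : Frp a1 (X a2 * PA + PB) := by
    intro A _ x y hxy
    rw [e1, e1, hxy a2 ha.symm, hA1 A x y hxy, hB1 A x y hxy]
  have hfr2 : Frp a1 (X a2 * PB) := by
    intro A _ x y hxy
    rw [map_mul, map_mul, ev_X, ev_X, hxy a2 ha.symm, hB1 A x y hxy]
  have g2u : Gd G (fun _ _ x => x a1 * (x a2 * ev x PA + ev x PB) + x a2 * ev x PB = 0 ∧
      IsUnit (ev x (X a2 * PA + PB)) : Pd τ) := by
    refine Gd.solve hG g1u a1 ?_ (X a2 * PA + PB) (X a2 * PB) hfr1 hfr2 (fun A _ x hx => hx) ?_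
    · intro A _ x y hxy hx
      rw [hfr1 A x y hxy]
      exact hx
    · intro A _ x
      rw [map_mul (ev x) (X a2) PB, ev_X, e1]
      tauto
  have g2z : Gd G (fun _ _ x => x a2 * ev x PA + ev x PB = 0 ∧ x a2 * ev x PB = 0 : Pd τ) :=
    (g2.closed hG (X a2 * PA + PB) g2u).congr fun A _ x => by
      rw [e1]
      constructor
      · rintro ⟨h1, h2⟩
        rw [h2, mul_zero, zero_add] at h1
        exact ⟨h2, h1⟩
      · rintro ⟨h1, h2⟩
        exact ⟨by rw [h1, h2, mul_zero, zero_add], h1⟩
  have g2y : Gd G (fun _ _ x => (x a2 * ev x PA + ev x PB = 0 ∧ x a2 * ev x PB = 0) ∧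
      IsUnit (ev x (X a2)) : Pd τ) := by
    refine (gAB.gm hG a2 ?_).congr fun A _ x => ?_
    · intro A _ x y hxy hx
      rw [hA2 A x y hxy, hB2 A x y hxy]
      exact hx
    · rw [ev_X]
      constructor
      · rintro ⟨⟨h1, h2⟩, h3⟩
        exact ⟨⟨by rw [h1, h2, mul_zero, zero_add], by rw [h2, mul_zero]⟩, h3⟩
      · rintro ⟨⟨h1, h2⟩, h3⟩
        have h4 : ev x PB = 0 := h3.mul_right_eq_zero.mp h2
        rw [h4, add_zero] at h1
        exact ⟨⟨h3.mul_right_eq_zero.mp h1, h4⟩, h3⟩
  have gB0 : Gd G (fun _ _ x => ev x PB = 0 ∧ x a2 = 0 : Pd τ) :=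
    (g2z.closed hG (X a2) g2y).congr fun A _ x => by
      rw [ev_X]
      constructor
      · rintro ⟨⟨h1, h2⟩, h3⟩
        rw [h3, zero_mul, zero_add] at h1
        exact ⟨h1, h3⟩
      · rintro ⟨h1, h2⟩
        exact ⟨⟨by rw [h1, h2, zero_mul, zero_add], by rw [h1, mul_zero]⟩, h2⟩
  have rB : Rp (fun _ _ x => ev x PB = 0 : Pd τ) :=
    (rp_true.zero PB).congr fun A _ x => ⟨fun h => h.2, fun h => ⟨trivial, h⟩⟩
  have gB : Gd G (fun _ _ x => ev x PB = 0 : Pd τ) := by
    refine Gd.unsolve hG gB0 rB a2 ?_ 1 0 ?_ ?_ ?_ ?_
    · intro A _ x y hxy hx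
      rw [hB2 A x y hxy]
      exact hx
    · intro A _ x y _
      rw [map_one, map_one]
    · intro A _ x y _
      rw [map_zero, map_zero]
    · intro A _ x _
      rw [map_one]
      exact isUnit_one
    · intro A _ x
      rw [map_one, map_zero, mul_one, add_zero]
  have gBu : Gd G (fun _ _ x => IsUnit (ev x PB) : Pd τ) :=
    (gt.opn hG PB (gB.congr fun A _ x => ⟨fun h => ⟨trivial, h⟩, fun h => h.2⟩)).congr
      fun A _ x => ⟨fun h => h.2, fun h => ⟨trivial, h⟩⟩
  have r3 : Rp (fun _ _ x => ev x PA + x a1 * ev x PB = 0 : Pd τ) :=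
    (rp_true.zero (PA + X a1 * PB)).congr fun A _ x => by
      rw [map_add, map_mul, ev_X]
      exact ⟨fun h => h.2, fun h => ⟨trivial, h⟩⟩
  refine Gd.glue hG r3 PB ?_ ?_
  · refine gAB.congr fun A _ x => ?_
    constructor
    · rintro ⟨h1, h2⟩
      exact ⟨by rw [h1, h2, mul_zero, add_zero], h2⟩
    · rintro ⟨h1, h2⟩
      rw [h2, mul_zero, add_zero] at h1
      exact ⟨h1, h2⟩
  · refine Gd.solve hG gBu a1 ?_ PB PA hB1 hA1 (fun A _ x hx => hx) fun A _ x => ?_
    · intro A _ x y hxy hx
      rw [hB1 A x y hxy]
      exact hx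
    · constructor
      · rintro ⟨h1, h2⟩
        exact ⟨h2, by rw [← h1]; ring⟩
      · rintro ⟨h1, h2⟩
        exact ⟨by rw [← h2]; ring, h1⟩

end

/-! ### One edge of a multigraph -/

section

variable {E V A : Type} [CommRing A] [DecidableEq V] [DecidableEq E] [Fintype E] [Fintype V]

/-- extension to `Option` -/
def op {α β : Type} (c : β) (f : α → β) : Option α → β
  | none => c
  | some e => f e

@[simp] lemma op_none {α β : Type} (c : β) (f : α → β) : op c f none = c := rfl

@[simp] lemma op_some {α β : Type} (c : β) (f : α → β) (e : α) : op c f (some e) = f e := rfl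

lemma map_op {α β γ : Type} (φ : β → γ) (c : β) (f : α → β) :
    (fun e => φ (op c f e)) = op (φ c) (fun e => φ (f e)) := by
  funext e
  rcases e with _ | e <;> rfl

lemma det_row_single {n : Type} [Fintype n] [DecidableEq n] (L : Matrix n n A) (o : n) :
    (updateRow L o (Pi.single o 1)).det =
      (L.submatrix (Subtype.val : {v // v ≠ o} → n) Subtype.val).det := by
  rw [twoBlockTriangular_det (updateRow L o (Pi.single o 1)) (fun v => v ≠ o)]
  · have e2 : (toSquareBlockProp (updateRow L o (Pi.single o 1)) fun i => ¬ i ≠ o).det = 1 := by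
      have : ∀ i : {i // ¬ i ≠ o}, i = ⟨o, by simp⟩ := by
        rintro ⟨i, hi⟩
        have : i = o := by simpa using hi
        subst this
        rfl
      let _ : Unique {i // ¬ i ≠ o} := ⟨⟨⟨o, by simp⟩⟩, this⟩
      rw [det_unique]
      change updateRow L o (Pi.single o 1) o o = 1
      rw [updateRow_self, Pi.single_eq_same]
    rw [e2, mul_one]
    congr 1
    ext i j
    change updateRow L o (Pi.single o 1) i.1 j.1 = L i.1 j.1
    rw [updateRow_ne i.2]
  · intro i hi j hj
    have : i = o := by simpa using hi
    subst this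
    rw [updateRow_self, Pi.single_eq_of_ne hj]

/-- all indices but the row of the new edge -/
def unew (E V : Type) : E ⊕ V → {v : Option E ⊕ V // v ≠ Sum.inl none}
  | Sum.inl e => ⟨Sum.inl (some e), by simp⟩
  | Sum.inr v => ⟨Sum.inr v, by simp⟩

lemma unew_bij (E V : Type) : Function.Bijective (unew E V) := by
  constructor
  · rintro (e | v) (e' | v') h
    · have h1 := congrArg Subtype.val h
      simp only [unew] at h1
      rw [Option.some_injective _ (Sum.inl_injective h1)]
    · have h1 := congrArg Subtype.val h
      exact absurd h1 (by simp [unew])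
    · have h1 := congrArg Subtype.val h
      exact absurd h1 (by simp [unew])
    · have h1 := congrArg Subtype.val h
      simp only [unew] at h1
      rw [Sum.inr_injective h1]
  · rintro ⟨(_ | e) | v, h⟩
    · exact absurd rfl h
    · exact ⟨Sum.inl e, rfl⟩
    · exact ⟨Sum.inr v, rfl⟩

/-- the determinant as a function of one edge -/
theorem DD_opt (s t : Option E → V) (o : V) (al be : A) (a b : E → A) :
    DD s t o (op al a) (op be b) =
      al * DD (fun e => s (some e)) (fun e => t (some e)) o a b +
        be * DD s t o (op 0 a) (op 1 b) := by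
  have h1 : MM s t o (op al a) (op be b) = updateRow (MM s t o (op al a) (op be b)) (Sum.inl none)
      (al • Pi.single (Sum.inl none) 1 + be • MM s t o (op 0 a) (op 1 b) (Sum.inl none)) := by
    ext i j
    by_cases hi : i = Sum.inl none
    · subst hi
      rw [updateRow_self]
      rcases j with (_ | e) | v
      · simp [MM]
      · simp [MM]
      · simp [MM]
    · rw [updateRow_ne hi]
  have h2 : ∀ r, updateRow (MM s t o (op al a) (op be b)) (Sum.inl none) r =
      updateRow (MM s t o (op 0 a) (op 1 b)) (Sum.inl none) r := by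
    intro r
    ext i j
    by_cases hi : i = Sum.inl none
    · subst hi
      rw [updateRow_self, updateRow_self]
    · rw [updateRow_ne hi, updateRow_ne hi]
      rcases i with (_ | e) | v
      · exact absurd rfl hi
      · rcases j with (_ | e') | v
        · simp [MM]
        · simp [MM, diagonal_apply]
        · simp [MM]
      · rcases j with (_ | e') | v <;> simp [MM]
  have h3 : (MM s t o (op al a) (op be b)).det =
      al * (updateRow (MM s t o (op 0 a) (op 1 b)) (Sum.inl none)
        (Pi.single (Sum.inl none) 1)).det + be * (MM s t o (op 0 a) (op 1 b)).det := by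
    conv_lhs => rw [h1]
    rw [det_updateRow_add, det_updateRow_smul, det_updateRow_smul, h2, h2, updateRow_eq_self]
  unfold DD
  rw [h3, det_row_single]
  congr 2
  let f : E ⊕ V ≃ {v : Option E ⊕ V // v ≠ Sum.inl none} := Equiv.ofBijective _ (unew_bij E V)
  rw [← det_submatrix_equiv_self f]
  congr 1
  ext i j
  rcases i with e | v <;> rcases j with e' | v'
  · change MM s t o (op 0 a) (op 1 b) (Sum.inl (some e)) (Sum.inl (some e')) = _
    simp [MM, diagonal_apply]
  · change MM s t o (op 0 a) (op 1 b) (Sum.inl (some e)) (Sum.inr v') = _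
    simp [MM, inc]
  · change MM s t o (op 0 a) (op 1 b) (Sum.inr v) (Sum.inl (some e')) = _
    simp [MM, inc]
  · change MM s t o (op 0 a) (op 1 b) (Sum.inr v) (Sum.inr v') = _
    simp [MM]

/-- two parallel edges -/
theorem DD_opt2 (s t : Option E → V) (o : V) (y y' : A) (a b : E → A) :
    DD (op (s none) s) (op (t none) t) o (op y' (op y a)) (op 1 (op 1 b)) =
      y' * (y * DD (fun e => s (some e)) (fun e => t (some e)) o a b +
        DD s t o (op 0 a) (op 1 b)) + y * DD s t o (op 0 a) (op 1 b) := by
  have h0 : DD (op (s none) s) (op (t none) t) o (op 0 (op 0 a)) (op 1 (op 1 b)) = 0 := by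
    unfold DD
    apply det_zero_of_row_eq (i := Sum.inl none) (j := Sum.inl (some none)) (by simp)
    funext j
    rcases j with (_ | _ | e) | v
    · simp [MM]
    · simp [MM]
    · simp [MM]
    · rfl
  have h1 : DD (op (s none) s) (op (t none) t) o (op 0 (op y a)) (op 1 (op 1 b)) =
      DD (op (s none) s) (op (t none) t) o (op y (op 0 a)) (op 1 (op 1 b)) := by
    have h2 := DD_reindex (A := A) (Equiv.swap (none : Option (Option E)) (some none))
      (Equiv.refl V)
      (op (s none) s) (op (t none) t) (op (s none) s) (op (t none) t)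
      (fun e => by
        rcases e with _ | _ | e
        · simp
        · simp
        · rw [Equiv.swap_apply_of_ne_of_ne (by simp) (by simp)]; rfl)
      (fun e => by
        rcases e with _ | _ | e
        · simp
        · simp
        · rw [Equiv.swap_apply_of_ne_of_ne (by simp) (by simp)]; rfl)
      o (op y (op 0 a)) (op 1 (op 1 b))
    rw [Equiv.refl_apply] at h2
    rw [← h2]
    congr 1
    · funext e
      rcases e with _ | _ | e
      · simp
      · simp
      · rw [Equiv.swap_apply_of_ne_of_ne (by simp) (by simp)]; rfl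
    · funext e
      rcases e with _ | _ | e
      · simp
      · simp
      · rw [Equiv.swap_apply_of_ne_of_ne (by simp) (by simp)]
  have e1 := DD_opt (op (s none) s) (op (t none) t) o y' 1 (op y a) (op 1 b)
  have e2 := DD_opt (op (s none) s) (op (t none) t) o y 1 (op 0 a) (op 1 b)
  have e3 := DD_opt s t o y 1 a b
  simp only [op_some] at e1 e2
  rw [e1, one_mul, h1, e2, h0, e3]
  ring

end

/-! ### Mixed polynomials -/

section

variable {E V A : Type} [CommRing A] [DecidableEq V] [DecidableEq E] [Fintype E] [Fintype V]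

/-- resistances -/
def mA {E A : Type} [CommRing A] (C : E → Bool) (x : E → A) : E → A :=
  fun e => if C e then 1 else x e

/-- conductances -/
def mB {E A : Type} [CommRing A] (C : E → Bool) (x : E → A) : E → A :=
  fun e => if C e then x e else 1

/-- the polynomial with conductances on the edges in `C` and resistances on the other edges -/
noncomputable def mix (s t : E → V) (o : V) (C : E → Bool) : MvPolynomial E ℤ :=
  DD s t o (mA C X) (mB C X)

lemma map_mA {E A B : Type} [CommRing A] [CommRing B] (φ : A →+* B) (C : E → Bool) (x : E → A) :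
    (fun e => φ (mA C x e)) = mA C (fun e => φ (x e)) := by
  funext e
  unfold mA
  split_ifs
  · exact map_one φ
  · rfl

lemma map_mB {E A B : Type} [CommRing A] [CommRing B] (φ : A →+* B) (C : E → Bool) (x : E → A) :
    (fun e => φ (mB C x e)) = mB C (fun e => φ (x e)) := by
  funext e
  unfold mB
  split_ifs
  · rfl
  · exact map_one φ

lemma ev_mix (s t : E → V) (o : V) (C : E → Bool) (x : E → A) :
    ev x (mix s t o C) = DD s t o (mA C x) (mB C x) := by
  unfold mix
  rw [map_DD, map_mA, map_mB]
  simp only [ev_X]

lemma mA_op (c : Bool) (C : E → Bool) (x : Option E → A) :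
    mA (op c C) x = op (if c then 1 else x none) (mA C (fun e => x (some e))) := by
  funext e
  rcases e with _ | e <;> rfl

lemma mB_op (c : Bool) (C : E → Bool) (x : Option E → A) :
    mB (op c C) x = op (if c then x none else 1) (mB C (fun e => x (some e))) := by
  funext e
  rcases e with _ | e <;> rfl

end

section

variable {G : ∀ (R : Type) [CommRing R], Prop}

theorem mix_step (hG : RG G) (hpt : GS G (∅ : Set (MvPolynomial Empty ℤ))) {E V : Type}
    [Fintype E] [DecidableEq E] [Fintype V] [DecidableEq V] (s t : Option E → V) (o : V)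
    (C : E → Bool)
    (h0 : GS G ({mix (fun e => s (some e)) (fun e => t (some e)) o C} :
      Set (MvPolynomial E ℤ)))
    (h1 : GS G ({mix s t o (op false C)} : Set (MvPolynomial (Option E) ℤ)))
    (h2 : GS G ({mix (op (s none) s) (op (t none) t) o (op false (op false C))} :
      Set (MvPolynomial (Option (Option E)) ℤ))) :
    GS G ({mix s t o (op true C)} : Set (MvPolynomial (Option E) ℤ)) := by
  let τ := Option (Option E)
  let PA : MvPolynomial E ℤ := mix (fun e => s (some e)) (fun e => t (some e)) o C
  let PB : MvPolynomial E ℤ := DD s t o (op 0 (mA C X)) (op 1 (mB C X))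
  let k2 : E → τ := fun e => some (some e)
  have evB : ∀ (A : Type) [CommRing A] (x : E → A),
      ev x PB = DD s t o (op 0 (mA C x)) (op 1 (mB C x)) := by
    intro A _ x
    change ev x (DD s t o (op 0 (mA C X)) (op 1 (mB C X))) = _
    rw [map_DD, map_op, map_op, map_mA, map_mB, map_zero, map_one]
    simp only [ev_X]
  have evA : ∀ (A : Type) [CommRing A] (x : E → A),
      ev x PA = DD (fun e => s (some e)) (fun e => t (some e)) o (mA C x) (mB C x) :=
    fun A _ x => ev_mix _ _ _ _ _
  have fr : ∀ (a : τ), (∀ e, k2 e ≠ a) → ∀ P : MvPolynomial E ℤ, Frp a (rename k2 P) := by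
    intro a ha P A _ x y hxy
    rw [ev_rename, ev_rename]
    have : (fun i => y (k2 i)) = fun i => x (k2 i) := funext fun i => hxy _ (ha i)
    rw [this]
  have hn1 : ∀ e, k2 e ≠ (none : τ) := fun e h => by simp [k2] at h
  have hn2 : ∀ e, k2 e ≠ (some none : τ) := fun e h =>
    Option.some_ne_none e (Option.some_injective _ h)
  have key := gd_mix hG hpt (none : τ) (some none : τ) (by simp) (rename k2 PA) (rename k2 PB)
    (fr _ hn1 PA) (fr _ hn2 PA) (fr _ hn1 PB) (fr _ hn2 PB) ?_ ?_ ?_
  · have h3 : Gd G (fun A _ x => Pt ({mix s t o (op true C)} : Set (MvPolynomial (Option E) ℤ))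
        (fun i => x (Option.map some i)) : Pd τ) := by
      refine key.congr fun A _ x => ?_
      rw [ev_rename, ev_rename, evA, evB]
      have e : ev (fun i : Option E => x (Option.map some i)) (mix s t o (op true C)) =
          DD (fun e => s (some e)) (fun e => t (some e)) o (mA C fun i => x (k2 i))
            (mB C fun i => x (k2 i)) +
          x none * DD s t o (op 0 (mA C fun i => x (k2 i))) (op 1 (mB C fun i => x (k2 i))) := by
        rw [ev_mix, mA_op, mB_op, DD_opt]
        simp only [if_true, one_mul, Option.map_none, Option.map_some, k2]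
      constructor
      · rintro h p hp
        rw [Set.mem_singleton_iff.mp hp, e]
        exact h
      · intro h
        rw [← e]
        exact h _ rfl
    exact (Gd.unext hG (Option.map some) (Option.map_injective (Option.some_injective E))
      (rp_pt _) h3).gs hG fun A _ x => Iff.rfl
  · refine ((Gd.of_gs hG h0).ext hG k2 (fun a b hab =>
      Option.some_injective _ (Option.some_injective _ hab))).congr
      fun A _ x => ?_
    rw [ev_rename]
    constructor
    · intro h
      exact h _ rfl
    · intro h p hp
      rw [Set.mem_singleton_iff.mp hp]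
      exact h
  · refine ((Gd.of_gs hG h1).ext hG (some : Option E → τ) (Option.some_injective _)).congr
      fun A _ x => ?_
    rw [ev_rename, ev_rename, evA, evB]
    have e : ev (fun i : Option E => x (some i)) (mix s t o (op false C)) =
        x (some none) * DD (fun e => s (some e)) (fun e => t (some e)) o
          (mA C fun i => x (k2 i)) (mB C fun i => x (k2 i)) +
        DD s t o (op 0 (mA C fun i => x (k2 i))) (op 1 (mB C fun i => x (k2 i))) := by
      rw [ev_mix, mA_op, mB_op, DD_opt]
      simp only [Bool.false_eq_true, if_false, one_mul, k2]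
    constructor
    · intro h
      rw [← e]
      exact h _ rfl
    · intro h p hp
      rw [Set.mem_singleton_iff.mp hp, e]
      exact h
  · refine (Gd.of_gs hG h2).congr fun A _ x => ?_
    rw [ev_rename, ev_rename, evA, evB]
    have e : ev x (mix (op (s none) s) (op (t none) t) o (op false (op false C))) =
        x none * (x (some none) * DD (fun e => s (some e)) (fun e => t (some e)) o
          (mA C fun i => x (k2 i)) (mB C fun i => x (k2 i)) +
        DD s t o (op 0 (mA C fun i => x (k2 i))) (op 1 (mB C fun i => x (k2 i)))) +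
        x (some none) * DD s t o (op 0 (mA C fun i => x (k2 i)))
          (op 1 (mB C fun i => x (k2 i))) := by
      rw [ev_mix, mA_op, mB_op, mA_op, mB_op]
      simp only [Bool.false_eq_true, if_false]
      rw [DD_opt2]
    constructor
    · intro h
      rw [← e]
      exact h _ rfl
    · intro h p hp
      rw [Set.mem_singleton_iff.mp hp, e]
      exact h

theorem mix_all (hG : RG G) (hpt : GS G (∅ : Set (MvPolynomial Empty ℤ)))
    (h : ∀ (E V : Type) [Fintype E] [DecidableEq E] [Fintype V] [DecidableEq V] (s t : E → V)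
      (o : V), (∀ e, s e ≠ t e) → GS G ({psi s t o} : Set (MvPolynomial E ℤ))) :
    ∀ (n : ℕ) (E V : Type) [Fintype E] [DecidableEq E] [Fintype V] [DecidableEq V]
      (s t : E → V) (o : V) (C : E → Bool), (∀ e, s e ≠ t e) →
      ∑ e, (if C e then 1 else 0) ≤ n → GS G ({mix s t o C} : Set (MvPolynomial E ℤ)) := by
  intro n
  induction n with
  | zero =>
    intro E V _ _ _ _ s t o C hl hn
    have hC : ∀ e, C e = false := by
      intro e
      have h1 : ∀ e ∈ (Finset.univ : Finset E), (if C e then 1 else 0) = 0 :=
        Finset.sum_eq_zero_iff.mp (Nat.le_zero.mp hn)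
      have h2 := h1 e (Finset.mem_univ e)
      by_contra hc
      have h3 : C e = true := by simpa using hc
      rw [h3] at h2
      simp at h2
    have e : mix s t o C = psi s t o := by
      unfold mix psi
      congr 1
      · funext e
        unfold mA
        rw [hC e]
        rfl
      · funext e
        unfold mB
        rw [hC e]
        rfl
    rw [e]
    exact h E V s t o hl
  | succ n ih =>
    intro E V _ _ _ _ s t o C hl hn
    by_cases hex : ∃ e0, C e0 = true
    · obtain ⟨e0, he0⟩ := hex
      let g : Option {e // e ≠ e0} ≃ E := Equiv.optionSubtypeNe e0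
      have hgn : g none = e0 := Equiv.optionSubtypeNe_none e0
      have hgs : ∀ e, g (some e) = e.1 := fun e => Equiv.optionSubtypeNe_some e0 e
      let C0 : {e // e ≠ e0} → Bool := fun e => C e.1
      have hCg : (fun e => C (g e)) = op true C0 := by
        funext e
        rcases e with _ | e
        · rw [hgn, he0]; rfl
        · rw [hgs]; rfl
      have hcount : ∑ e, (if C0 e then 1 else 0) ≤ n := by
        have h1 : ∑ e, (if C e then 1 else 0) = ∑ e, (if C (g e) then 1 else 0) :=
          (Equiv.sum_comp g (fun e => if C e then 1 else 0)).symm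
        have h2 : ∀ e, C (g e) = op true C0 e := fun e => congrFun hCg e
        simp only [h2] at h1
        rw [Fintype.sum_option] at h1
        simp only [op_none, op_some, if_true] at h1
        have h3 : ∑ e, (if C e then 1 else 0) = 1 + ∑ i, (if C0 i then 1 else 0) := h1
        omega
      have hstep := mix_step hG hpt (fun e => s (g e)) (fun e => t (g e)) o C0
        (ih _ V _ _ o C0 (fun e => hl _) hcount)
        (ih _ V _ _ o (op false C0) (fun e => hl _) (by
          rw [Fintype.sum_option]
          simp only [op_none, op_some, Bool.false_eq_true, if_false, zero_add]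
          exact hcount))
        (ih _ V _ _ o (op false (op false C0)) (fun e => by
          rcases e with _ | e
          · exact hl _
          · exact hl _) (by
          rw [Fintype.sum_option, Fintype.sum_option]
          simp only [op_none, op_some, Bool.false_eq_true, if_false, zero_add]
          exact hcount))
      rw [← hCg] at hstep
      have hev : ∀ (A : Type) [CommRing A] (x : E → A), ev (fun e => x (g e))
          (mix (fun e => s (g e)) (fun e => t (g e)) o (fun e => C (g e))) =
          ev x (mix s t o C) := by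
        intro A _ x
        rw [ev_mix, ev_mix]
        have h3 := DD_reindex g (Equiv.refl V) s t (fun e => s (g e)) (fun e => t (g e))
          (fun e => rfl) (fun e => rfl) o (mA C x) (mB C x)
        rw [Equiv.refl_apply] at h3
        rw [← h3]
        rfl
      refine (hG.gs_iso (fun A _ x => fun e => x (g.symm e)) (fun A _ y => fun e => y (g e))
        (fun A B _ _ φ x _ j => rfl) (fun A B _ _ φ y _ i => rfl) ?_ ?_ ?_ ?_).mp hstep
      · intro A _ x hx p hp
        rw [Set.mem_singleton_iff.mp hp, ← hev]
        have h3 := hx _ rfl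
        simp only [Equiv.symm_apply_apply]
        exact h3
      · intro A _ y hy p hp
        rw [Set.mem_singleton_iff.mp hp, hev]
        exact hy _ rfl
      · intro A _ x _
        funext i
        simp
      · intro A _ y _
        funext i
        simp
    · refine ih E V s t o C hl ?_
      have : ∑ e, (if C e then 1 else 0) = 0 := by
        refine Finset.sum_eq_zero fun e _ => ?_
        rw [if_neg]
        intro hc
        exact hex ⟨e, hc⟩
      omega

/-- the class contains the hypersurfaces of the Kirchhoff polynomials if it contains those of the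
first Symanzik polynomials of all multigraphs -/
theorem gs_kirchhoff_of_psi (hG : RG G) (hpt : GS G (∅ : Set (MvPolynomial Empty ℤ)))
    (h : ∀ (E V : Type) [Fintype E] [DecidableEq E] [Fintype V] [DecidableEq V] (s t : E → V)
      (o : V), (∀ e, s e ≠ t e) → GS G ({psi s t o} : Set (MvPolynomial E ℤ)))
    (V : Type) [Fintype V] [Nonempty V] (H : SimpleGraph V) :
    GS G ({kirchhoff H} : Set (MvPolynomial H.edgeSet ℤ)) := by
  classical
  have hex : ∀ e : H.edgeSet, ∃ p : V × V, s(p.1, p.2) = e.1 := by
    rintro ⟨e, he⟩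
    induction e using Sym2.ind with
    | _ a b => exact ⟨(a, b), rfl⟩
  choose p hp using hex
  obtain ⟨o⟩ := ‹Nonempty V›
  have hl : ∀ e, (p e).1 ≠ (p e).2 := by
    intro e he
    have h1 := e.2
    rw [← hp e, SimpleGraph.mem_edgeSet] at h1
    exact h1.ne he
  have h1 := mix_all hG hpt h _ H.edgeSet V (fun e => (p e).1) (fun e => (p e).2) o
    (fun _ => true) hl le_rfl
  have e : mix (fun e => (p e).1) (fun e => (p e).2) o (fun _ => true) = kirchhoff H := by
    have h2 : mA (fun _ : H.edgeSet => true) (X : H.edgeSet → MvPolynomial H.edgeSet ℤ) = 1 := rfl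
    have h3 : mB (fun _ : H.edgeSet => true) (X : H.edgeSet → MvPolynomial H.edgeSet ℤ) = X := rfl
    unfold mix
    rw [h2, h3, DD_kirchhoff H _ _ hp o, aeval_kirchhoff]
    unfold kirchhoff
    refine Finset.sum_congr (by ext; simp) fun T _ => ?_
    split_ifs <;> rfl
  rw [e] at h1
  exact h1

end

end Pool.Agent.Phi4
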