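import Pool.Agent.Phi4.Ind
import Pool.Agent.Phi4.Gir
import Pool.Agent.Phi4.Mix
import Pool.Agent.KB.Main2

/-!
# Both questions: first Symanzik polynomials of graphs of maximum degree four
-/

set_option autoImplicit false
set_option linter.unusedSectionVars false

open AlgebraicGeometry CategoryTheory MvPolynomial
open Pool.Agent.Helper81.CP Pool.Agent.Helper81.HG
open Pool.Agent.Helper45.RM
open Pool.Agent.Helper50.KR (kirchhoff)

namespace Pool.Agent.Phi4

universe u

/-- the hypersurfaces over `ℤ/N` of the first Symanzik polynomials of the connected simple graphs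
of maximum degree at most `4` and of girth at least `g` -/
def SymC (N g : ℕ) : Set Scheme.{0} :=
  {Y | ∃ (V : Type) (_ : Fintype V) (H : SimpleGraph V), H.Connected ∧
    (∀ v, (H.neighborSet v).ncard ≤ 4) ∧ (g : ℕ∞) ≤ H.egirth ∧ Y = Zeros N {symanzik H}}

/-! ### The point -/

/-- the ends of the two edges of the double edge -/
def d0 : Fin 2 → Fin 2 := fun _ => 0

/-- the ends of the two edges of the double edge -/
def d1 : Fin 2 → Fin 2 := fun _ => 1

lemma d_ne : ∀ e, d0 e ≠ d1 e := by decide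

lemma ev_psi_double {A : Type} [CommRing A] (x : Fin 2 → A) :
    ev x (psi d0 d1 0) = x 0 + x 1 := by
  rw [ev_psi]
  unfold DD
  rw [← Matrix.det_submatrix_equiv_self (finSumFinEquiv (m := 2) (n := 2)).symm]
  have h0 : (finSumFinEquiv (m := 2) (n := 2)).symm 0 = Sum.inl 0 := by decide
  have h1 : (finSumFinEquiv (m := 2) (n := 2)).symm 1 = Sum.inl 1 := by decide
  have h2 : (finSumFinEquiv (m := 2) (n := 2)).symm 2 = Sum.inr 0 := by decide
  have h3 : (finSumFinEquiv (m := 2) (n := 2)).symm 3 = Sum.inr 1 := by decide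
  have hM : (MM d0 d1 0 x 1).submatrix (finSumFinEquiv (m := 2) (n := 2)).symm
      (finSumFinEquiv (m := 2) (n := 2)).symm =
      !![x 0, 0, 1, -1; 0, x 1, 1, -1; -1, -1, 1, 0; 1, 1, 0, 0] := by
    ext i j
    fin_cases i <;> fin_cases j <;>
      simp [h0, h1, h2, h3, MM, inc, d0, d1, Matrix.single]
  rw [hM]
  simp [Matrix.det_succ_row_zero, Fin.sum_univ_succ, Fin.succAbove]
  ring

section

variable {G : ∀ (R : Type) [CommRing R], Prop}

theorem gs_point_of_simple (hG : RG G)
    (h : ∀ (V : Type) [Fintype V] (H : SimpleGraph V), H.Connected →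
      (∀ v, (H.neighborSet v).ncard ≤ 4) → GS G ({symanzik H} : Set (MvPolynomial H.edgeSet ℤ))) :
    GS G (∅ : Set (MvPolynomial Empty ℤ)) := by
  classical
  have hdg : ∀ v, dg d0 d1 v ≤ 4 := by decide
  have hadj0 : ∀ e, (sdv d0 d1).Adj (Sum.inl 0) (Sum.inr e) := fun e => Or.inl rfl
  have hadj1 : ∀ e, (sdv d0 d1).Adj (Sum.inl 1) (Sum.inr e) := fun e => Or.inr rfl
  have hr : ∀ v, (sdv d0 d1).Reachable (Sum.inl 0) v := by
    rintro (v | e)
    · fin_cases v
      · exact SimpleGraph.Reachable.refl _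
      · exact (hadj0 0).reachable.trans (hadj1 0).symm.reachable
    · exact (hadj0 e).reachable
  have hc : (sdv d0 d1).Connected :=
    haveI : Nonempty (Fin 2 ⊕ Fin 2) := ⟨Sum.inl 0⟩
    ⟨fun x y => (hr x).symm.trans (hr y)⟩
  have h1 := h _ (sdv d0 d1) hc (nb_sdv d0 d1 hdg)
  let f : Fin 2 ⊕ Fin 2 ≃ (sdv d0 d1).edgeSet := Equiv.ofBijective (hf d0 d1) (hf_bij d0 d1 d_ne)
  have hfv : ∀ x, f x = hf d0 d1 x := fun x => rfl
  have h2 : GS G (∅ : Set (MvPolynomial (Fin 3) ℤ)) := by
    refine (hG.gs_iso (E := ({symanzik (sdv d0 d1)} : Set (MvPolynomial (sdv d0 d1).edgeSet ℤ)))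
      (E' := (∅ : Set (MvPolynomial (Fin 3) ℤ)))
      (fun A _ x => ![x (f (Sum.inr 0)), x (f (Sum.inl 1)), x (f (Sum.inr 1))])
      (fun A _ y => fun h => Sum.elim ![- (y 0 + y 1 + y 2), y 1] ![y 0, y 2] (f.symm h))
      ?_ ?_ ?_ ?_ ?_ ?_).mp h1
    · intro A B _ _ φ x _ j
      fin_cases j <;> rfl
    · intro A B _ _ φ y _ i
      dsimp only
      rcases f.symm i with e | e <;> fin_cases e <;> simp
    · intro A _ x _ p hp
      exact absurd hp (Set.notMem_empty p)
    · intro A _ y _ p hp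
      rw [Set.mem_singleton_iff.mp hp, ev_symanzik_sdv d0 d1 0 d_ne, ev_psi_double]
      simp only [← hfv, Equiv.symm_apply_apply, Sum.elim_inl, Sum.elim_inr]
      simp
      ring
    · intro A _ x hx
      have h3 := hx _ rfl
      rw [ev_symanzik_sdv d0 d1 0 d_ne, ev_psi_double] at h3
      simp only [← hfv] at h3
      funext i
      obtain ⟨z, rfl⟩ := f.surjective i
      rw [Equiv.symm_apply_apply]
      rcases z with e | e <;> fin_cases e
      · simp
        linear_combination -h3
      · simp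
      · simp
      · simp
    · intro A _ y _
      funext i
      fin_cases i <;> simp
  have h3 := (hG.gs_emb (Empty.elim : Empty → Fin 3) (fun x => x.elim)
    (∅ : Set (MvPolynomial Empty ℤ))).mp
  rw [Set.image_empty] at h3
  exact h3 h2

end

/-- **The hypersurfaces of the first Symanzik polynomials of the connected graphs of maximum degree
four and of large girth control everything.** -/
theorem cc_symanzik {G : Scheme.{0} → Prop} (hG : SG G) (hS : Sem (rg G)) {N g : ℕ}
    (h : CC G (SymC N g)) : CC G (FiniteType N) := by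
  have hR : RG (md (rg G) N) := hG.rg.mod N
  have h4 : ∀ (V : Type) [Fintype V] (H : SimpleGraph V), H.Connected →
      (∀ v, (H.neighborSet v).ncard ≤ 4) →
      GS (md (rg G) N) ({symanzik H} : Set (MvPolynomial H.edgeSet ℤ)) :=
    gs_symanzik_of_girth hR g fun V _ H hc hd hg =>
      (gz hG _).mpr (h _ ⟨V, inferInstance, H, hc, hd, hg, rfl⟩)
  have hpt : GS (md (rg G) N) (∅ : Set (MvPolynomial Empty ℤ)) := gs_point_of_simple hR h4
  refine Pool.Agent.KB.cc_kirchhoff hG hS (N := N) ?_
  rintro _ ⟨n, H, _, rfl⟩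
  exact (gz hG _).mp (gs_kirchhoff_of_psi hR hpt (fun E V _ _ _ _ s t o hl =>
    gs_psi_all hR hpt (fun E V _ _ _ _ s t o hl hd => gs_psi_of_simple hR hpt h4 E V s t o hl hd)
      E V s t o hl) _ H)

theorem main_symanzik (N g : ℕ) : Controls.{u} (SymC N g) (FiniteType N) :=
  controls_of_ctl isFT_finiteType (cc_symanzik (sg_ctl _) (sem_ctl _) (cc_self _))

end Pool.Agent.Phi4
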