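import Pool.Agent.Phi4.Defs
import Pool.Agent.Helper80.KR.Tree

/-!
# Expanded Laplacians: scaling, change of the root, matrix tree theorem, series reduction
-/

set_option autoImplicit false
set_option linter.unusedSectionVars false

open Matrix MvPolynomial
open Pool.Agent.Helper81.CP Pool.Agent.Helper81.HG
open Pool.Agent.Helper50.KR (IsSpanningTree kirchhoff redLap matrix_tree)

namespace Pool.Agent.Phi4

section

variable {E V A : Type} [CommRing A] [DecidableEq V] [DecidableEq E] [Fintype E] [Fintype V]

lemma sum_inc (s t : E → V) (e : E) : ∑ v, (inc s t e v : A) = 0 := by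
  unfold inc
  rw [Finset.sum_sub_distrib, Finset.sum_ite_eq, Finset.sum_ite_eq]
  simp

lemma map_inc {B : Type} [CommRing B] (φ : A →+* B) (s t : E → V) (e : E) (v : V) :
    φ (inc s t e v) = inc s t e v := by
  unfold inc
  rw [map_sub]
  split_ifs <;> simp

lemma map_DD {B : Type} [CommRing B] (φ : A →+* B) (s t : E → V) (o : V) (a b : E → A) :
    φ (DD s t o a b) = DD s t o (fun e => φ (a e)) (fun e => φ (b e)) := by
  unfold DD
  rw [RingHom.map_det]
  congr 1
  ext i j
  rcases i with e | v <;> rcases j with e' | v'
  · simp only [RingHom.mapMatrix_apply, Matrix.map_apply, MM, fromBlocks_apply₁₁, diagonal_apply]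
    split_ifs
    · rfl
    · exact map_zero φ
  · simp only [RingHom.mapMatrix_apply, Matrix.map_apply, MM, fromBlocks_apply₁₂, Matrix.of_apply,
      map_mul, map_inc]
  · simp only [RingHom.mapMatrix_apply, Matrix.map_apply, MM, fromBlocks_apply₂₁, Matrix.of_apply,
      map_neg, map_inc]
  · simp only [RingHom.mapMatrix_apply, Matrix.map_apply, MM, fromBlocks_apply₂₂,
      Matrix.single_apply]
    split_ifs
    · exact map_one φ
    · exact map_zero φ

/-- scaling of the rows of the edges -/
lemma DD_scale (s t : E → V) (o : V) (c a b : E → A) :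
    DD s t o (fun e => c e * a e) (fun e => c e * b e) = (∏ e, c e) * DD s t o a b := by
  unfold DD
  have h : MM s t o (fun e => c e * a e) (fun e => c e * b e) =
      fromBlocks (diagonal c) 0 0 (1 : Matrix V V A) * MM s t o a b := by
    unfold MM
    rw [fromBlocks_multiply]
    congr 1
    · rw [Matrix.zero_mul, add_zero, diagonal_mul_diagonal]
    · rw [Matrix.zero_mul, add_zero]
      ext e v
      rw [diagonal_mul]
      simp only [Matrix.of_apply]
      ring
    · rw [Matrix.zero_mul, zero_add, Matrix.one_mul]
    · rw [Matrix.zero_mul, zero_add, Matrix.one_mul]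
  rw [h, det_mul, det_fromBlocks_zero₂₁, det_one, mul_one, det_diagonal]

/-! ### Change of the root -/

lemma det_root {n : Type} [Fintype n] [DecidableEq n] (L : Matrix n n A) (u : n → A)
    (h1 : L *ᵥ u = 0) (h2 : u ᵥ* L = 0) (i j : n) (hi : u i = 1) (hj : u j = 1) :
    (L + Matrix.single i i 1).det = (L + Matrix.single j j 1).det := by
  have hdet : ∀ w : n → A, w = Pi.single j 1 - Pi.single i 1 →
      (1 + vecMulVec u w).det = 1 := by
    intro w hw
    have := det_one_add_replicateCol_mul_replicateRow (ι := Unit) u w
    have e : replicateCol Unit u * replicateRow Unit w = vecMulVec u w := by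
      ext a b
      simp [Matrix.mul_apply, vecMulVec_apply]
    rw [e] at this
    rw [this, hw, sub_dotProduct, single_dotProduct, single_dotProduct, hi, hj]
    ring
  have hs : ∀ a b : n, (Matrix.single a b 1 : Matrix n n A) =
      vecMulVec (Pi.single a 1) (Pi.single b 1) := by
    intro a b
    ext x y
    simp only [Matrix.single_apply, vecMulVec_apply, Pi.single_apply]
    by_cases hx : a = x
    · by_cases hy : b = y
      · simp [hx, hy]
      · rw [if_neg (fun h => hy h.2), if_neg (c := y = b) (fun h => hy h.symm), mul_zero]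
    · rw [if_neg (fun h => hx h.1), if_neg (fun h => hx h.symm), zero_mul]
  have hA : (L + Matrix.single i i 1) * (1 + vecMulVec u (Pi.single j 1 - Pi.single i 1)) =
      L + Matrix.single i j 1 := by
    rw [mul_add, mul_one, Matrix.mul_vecMulVec, add_mulVec, h1, zero_add, hs i i, hs i j,
      vecMulVec_mulVec, single_dotProduct, hi]
    ext x y
    simp only [Matrix.add_apply, vecMulVec_apply, Pi.sub_apply, Pi.smul_apply, MulOpposite.smul_eq_mul_unop, MulOpposite.unop_op]
    ring
  have hB : (1 + vecMulVec (Pi.single j 1 - Pi.single i 1) u) * (L + Matrix.single i j 1) =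
      L + Matrix.single j j 1 := by
    rw [add_mul, one_mul, Matrix.vecMulVec_mul, vecMul_add, h2, zero_add, hs i j, hs j j,
      vecMul_vecMulVec, dotProduct_single, hi]
    ext x y
    simp only [Matrix.add_apply, vecMulVec_apply, Pi.sub_apply, Pi.smul_apply, smul_eq_mul]
    ring
  have hdB : (1 + vecMulVec (Pi.single j 1 - Pi.single i 1) u).det = 1 := by
    rw [← det_transpose, transpose_add, transpose_one, transpose_vecMulVec]
    exact hdet _ rfl
  rw [← hB, det_mul, hdB, one_mul, ← hA, det_mul, hdet _ rfl, mul_one]

/-- the expanded Laplacian without root -/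
def M0 (s t : E → V) (a b : E → A) : Matrix (E ⊕ V) (E ⊕ V) A :=
  fromBlocks (diagonal a) (Matrix.of fun e v => b e * inc s t e v)
    (Matrix.of fun v e => - inc s t e v) 0

lemma MM_eq (s t : E → V) (o : V) (a b : E → A) :
    MM s t o a b = M0 s t a b + Matrix.single (Sum.inr o) (Sum.inr o) 1 := by
  unfold MM M0
  ext i j
  rcases i with e | v <;> rcases j with e' | v'
  · simp
  · simp
  · simp
  · simp [Matrix.single_apply]

lemma DD_root (s t : E → V) (o o' : V) (a b : E → A) : DD s t o a b = DD s t o' a b := by
  unfold DD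
  rw [MM_eq, MM_eq]
  refine det_root _ (Sum.elim 0 1) ?_ ?_ _ _ rfl rfl
  · unfold M0
    rw [fromBlocks_mulVec]
    ext i
    rcases i with e | v
    · have := sum_inc (A := A) s t e
      simp only [Sum.elim_comp_inl, Sum.elim_comp_inr, Matrix.mulVec_zero, zero_add,
        Sum.elim_inl, mulVec, dotProduct, Matrix.of_apply, Pi.one_apply, mul_one, Pi.zero_apply]
      rw [← Finset.mul_sum, this, mul_zero]
    · simp [Sum.elim_comp_inl, Sum.elim_comp_inr]
  · unfold M0
    rw [vecMul_fromBlocks]
    ext i
    rcases i with e | v
    · have := sum_inc (A := A) s t e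
      simp only [Sum.elim_comp_inl, Sum.elim_comp_inr, Matrix.zero_vecMul, zero_add,
        Sum.elim_inl, vecMul, dotProduct, Matrix.of_apply, Pi.one_apply, one_mul, Pi.zero_apply,
        Finset.sum_neg_distrib]
      rw [this, neg_zero]
    · simp [Sum.elim_comp_inl, Sum.elim_comp_inr]

/-! ### Laplacians -/

/-- the Laplacian of a multigraph -/
def LL (s t : E → V) (x : E → A) : Matrix V V A :=
  Matrix.of fun v w => ∑ e, inc s t e v * (x e * inc s t e w)

lemma DD_one (s t : E → V) (o : V) (x : E → A) :
    DD s t o 1 x = (LL s t x + Matrix.single o o 1).det := by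
  unfold DD MM
  have h : (diagonal (1 : E → A)) = (1 : Matrix E E A) := diagonal_one
  rw [h, det_fromBlocks_one₁₁]
  congr 1
  ext v w
  rw [Matrix.sub_apply, Matrix.mul_apply, Matrix.add_apply, LL]
  simp only [Matrix.of_apply, neg_mul, Finset.sum_neg_distrib]
  ring

lemma det_minor {n : Type} [Fintype n] [DecidableEq n] (L : Matrix n n A) (u : n → A)
    (h1 : L *ᵥ u = 0) (o : n) (ho : u o = 1) :
    (L + Matrix.single o o 1).det = (L.submatrix (Subtype.val : {v // v ≠ o} → n) Subtype.val).det := by
  have h0 : L.det = 0 := by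
    have h2 : (L.adjugate * L) *ᵥ u = 0 := by
      rw [← Matrix.mulVec_mulVec, h1, Matrix.mulVec_zero]
    rw [adjugate_mul, Matrix.smul_mulVec, Matrix.one_mulVec] at h2
    have := congrFun h2 o
    simpa [ho] using this
  have h3 : L + Matrix.single o o 1 = updateRow L o (L o + Pi.single o 1) := by
    ext i j
    by_cases hi : i = o
    · subst hi
      rw [updateRow_self]
      simp only [Matrix.add_apply, Matrix.single_apply, Pi.add_apply, Pi.single_apply, true_and]
      simp [eq_comm]
    · rw [updateRow_ne hi]
      simp only [Matrix.add_apply, Matrix.single_apply]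
      rw [if_neg (fun h => hi h.1.symm), add_zero]
  rw [h3, det_updateRow_add, updateRow_eq_self, h0, zero_add,
    twoBlockTriangular_det (updateRow L o (Pi.single o 1)) (fun v => v ≠ o)]
  · have e2 : (toSquareBlockProp (updateRow L o (Pi.single o 1)) fun i => ¬ i ≠ o).det = 1 := by
      have : ∀ i : {i // ¬ i ≠ o}, i = ⟨o, by simp⟩ := by
        rintro ⟨i, hi⟩
        have : i = o := by simpa using hi
        subst this
        rfl
      let _ : Unique {i // ¬ i ≠ o} := ⟨⟨⟨o, by simp⟩⟩, this⟩
      rw [det_unique]
      change updateRow L o (Pi.single o 1) o o = 1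
      rw [updateRow_self, Pi.single_eq_same]
    rw [e2, mul_one]
    congr 1
    ext i j
    change updateRow L o (Pi.single o 1) i.1 j.1 = L i.1 j.1
    rw [updateRow_ne i.2]
  · intro i hi j hj
    have : i = o := by simpa using hi
    subst this
    rw [updateRow_self, Pi.single_eq_of_ne hj]

/-- matrix tree theorem for the expanded Laplacian, conductances -/
theorem DD_kirchhoff (H : SimpleGraph V) (s t : H.edgeSet → V)
    (hst : ∀ h : H.edgeSet, s(s h, t h) = h.1) (o : V) [DecidableEq H.edgeSet]
    [Fintype H.edgeSet] (x : H.edgeSet → A) :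
    DD s t o 1 x = aeval x (kirchhoff H) := by
  classical
  rw [DD_one, det_minor (LL s t x) 1 _ o rfl, ← matrix_tree H o x]
  · congr 1
    ext v w
    have hne : ∀ h : H.edgeSet, s h ≠ t h := by
      intro h he
      have h1 := h.2
      rw [← hst h, SimpleGraph.mem_edgeSet] at h1
      exact h1.ne he
    simp only [Matrix.submatrix_apply, LL, Matrix.of_apply]
    unfold redLap
    by_cases hvw : v = w
    · subst hvw
      rw [if_pos rfl]
      refine Finset.sum_congr (by ext; simp) fun e _ => ?_
      have hv : v.1 ∈ e.1 ↔ v.1 = s e ∨ v.1 = t e := by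
        rw [← hst e, Sym2.mem_iff]
      unfold inc
      by_cases h1 : s e = v.1
      · have h2 : ¬ t e = v.1 := fun h2 => hne e (h1.trans h2.symm)
        rw [if_pos h1, if_neg h2, if_pos (hv.2 (Or.inl h1.symm))]
        ring
      · by_cases h2 : t e = v.1
        · rw [if_neg h1, if_pos h2, if_pos (hv.2 (Or.inr h2.symm))]
          ring
        · rw [if_neg h1, if_neg h2, if_neg]
          · ring
          · rw [hv]
            rintro (h | h)
            · exact h1 h.symm
            · exact h2 h.symm
    · rw [if_neg hvw]
      have hvw' : v.1 ≠ w.1 := fun h => hvw (Subtype.ext h)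
      by_cases hadj : H.Adj v.1 w.1
      · rw [dif_pos hadj, Finset.sum_eq_single (⟨s(v.1, w.1), hadj⟩ : H.edgeSet)]
        · have h1 := hst ⟨s(v.1, w.1), hadj⟩
          simp only [Sym2.eq_iff] at h1
          unfold inc
          rcases h1 with ⟨h1, h2⟩ | ⟨h1, h2⟩
          · rw [h1, h2]; simp [hvw', hvw'.symm]
          · rw [h1, h2]; simp [hvw', hvw'.symm]
        · intro e _ he
          by_contra hne0
          apply he
          apply Subtype.ext
          rw [← hst e]
          have hv : s e = v.1 ∨ t e = v.1 := by
            by_contra hcon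
            push Not at hcon
            apply hne0
            unfold inc
            rw [if_neg hcon.1, if_neg hcon.2]; ring
          have hw : s e = w.1 ∨ t e = w.1 := by
            by_contra hcon
            push Not at hcon
            apply hne0
            unfold inc
            rw [if_neg hcon.1, if_neg hcon.2]; ring
          rcases hv with hv | hv <;> rcases hw with hw | hw
          · exact absurd (hv.symm.trans hw) hvw'
          · rw [hv, hw]
          · rw [hv, hw, Sym2.eq_swap]
          · exact absurd (hv.symm.trans hw) hvw'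
        · intro h; exact absurd (Finset.mem_univ _) h
      · rw [dif_neg hadj]
        refine Finset.sum_eq_zero fun e _ => ?_
        by_contra hne0
        apply hadj
        have hv : s e = v.1 ∨ t e = v.1 := by
          by_contra hcon
          push Not at hcon
          apply hne0
          unfold inc
          rw [if_neg hcon.1, if_neg hcon.2]; ring
        have hw : s e = w.1 ∨ t e = w.1 := by
          by_contra hcon
          push Not at hcon
          apply hne0
          unfold inc
          rw [if_neg hcon.1, if_neg hcon.2]; ring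
        have h1 := e.2
        rw [← hst e, SimpleGraph.mem_edgeSet] at h1
        rcases hv with hv | hv <;> rcases hw with hw | hw
        · exact absurd (hv.symm.trans hw) hvw'
        · rwa [hv, hw] at h1
        · rw [hv, hw] at h1; exact h1.symm
        · exact absurd (hv.symm.trans hw) hvw'
  · ext v
    simp only [mulVec, dotProduct, LL, Matrix.of_apply, Pi.one_apply, mul_one, Pi.zero_apply]
    rw [Finset.sum_comm]
    refine Finset.sum_eq_zero fun e _ => ?_
    rw [← Finset.mul_sum, ← Finset.mul_sum, sum_inc, mul_zero, mul_zero]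

/-- reindexing -/
lemma DD_reindex {E' V' : Type} [DecidableEq V'] [DecidableEq E'] [Fintype E'] [Fintype V']
    (f : E' ≃ E) (g : V' ≃ V) (s t : E → V) (s' t' : E' → V') (hs : ∀ e, g (s' e) = s (f e))
    (ht : ∀ e, g (t' e) = t (f e)) (o : V') (a b : E → A) :
    DD s' t' o (fun e => a (f e)) (fun e => b (f e)) = DD s t (g o) a b := by
  unfold DD
  rw [← det_submatrix_equiv_self (Equiv.sumCongr f g) (MM s t (g o) a b)]
  congr 1
  have hinc : ∀ e v, (inc s' t' e v : A) = inc s t (f e) (g v) := by
    intro e v
    unfold inc
    rw [← hs, ← ht]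
    simp only [EmbeddingLike.apply_eq_iff_eq]
  ext i j
  rcases i with e | v <;> rcases j with e' | v'
  · simp [MM, diagonal_apply]
  · simp [MM, hinc]
  · simp [MM, hinc]
  · simp [MM, Matrix.single_apply]

end

/-! ### Mixed polynomials of simple graphs -/

section

variable {V : Type} [DecidableEq V] [Fintype V]

open Classical in
lemma aeval_kirchhoff {A : Type} [CommRing A] (H : SimpleGraph V) [Fintype H.edgeSet]
    (x : H.edgeSet → A) : aeval x (kirchhoff H) = ∑ T : Finset H.edgeSet,
      if IsSpanningTree H T then ∏ e ∈ T, x e else 0 := by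
  unfold kirchhoff
  rw [map_sum]
  refine Finset.sum_congr (by ext; simp) fun T _ => ?_
  split_ifs <;> simp

/-- matrix tree theorem, resistances -/
theorem psi_symanzik (H : SimpleGraph V) [DecidableEq H.edgeSet] [Fintype H.edgeSet]
    (s t : H.edgeSet → V) (hst : ∀ h : H.edgeSet, s(s h, t h) = h.1) (o : V) :
    psi s t o = symanzik H := by
  classical
  let K := FractionRing (MvPolynomial H.edgeSet ℤ)
  have hinj : Function.Injective (algebraMap (MvPolynomial H.edgeSet ℤ) K) :=
    IsFractionRing.injective _ _
  apply hinj
  set y : H.edgeSet → K := fun e => algebraMap (MvPolynomial H.edgeSet ℤ) K (X e) with hy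
  have hy0 : ∀ e, y e ≠ 0 := by
    intro e h
    rw [hy] at h
    simp only at h
    rw [← map_zero (algebraMap (MvPolynomial H.edgeSet ℤ) K)] at h
    exact X_ne_zero e (hinj h)
  have h1 : algebraMap (MvPolynomial H.edgeSet ℤ) K (psi s t o) =
      (∏ e, y e) * DD s t o 1 (fun e => (y e)⁻¹) := by
    rw [← DD_scale, psi, map_DD]
    congr 1
    · funext e
      simp [hy]
    · funext e
      simp only [Pi.one_apply, map_one]
      exact (mul_inv_cancel₀ (hy0 e)).symm
  rw [h1, DD_kirchhoff H s t hst o, aeval_kirchhoff]
  have h3 : algebraMap (MvPolynomial H.edgeSet ℤ) K (symanzik H) = ∑ T : Finset H.edgeSet,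
      if IsSpanningTree H T then ∏ e ∈ Tᶜ, y e else 0 := by
    unfold symanzik
    rw [map_sum]
    refine Finset.sum_congr (by ext; simp) fun T _ => ?_
    split_ifs
    · rw [map_prod]
      refine Finset.prod_congr (by ext; simp) fun e _ => rfl
    · exact map_zero _
  rw [h3, Finset.mul_sum]
  refine Finset.sum_congr rfl fun T _ => ?_
  split_ifs
  · rw [← Finset.prod_mul_prod_compl T y, mul_right_comm, ← Finset.prod_mul_distrib]
    rw [Finset.prod_congr rfl fun e _ => mul_inv_cancel₀ (hy0 e), Finset.prod_const_one, one_mul]
  · exact mul_zero _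

end

/-! ### Series reduction -/

section

variable {E V A : Type} [CommRing A] [DecidableEq V] [DecidableEq E] [Fintype E] [Fintype V]

/-- sources of the halves -/
def hs (s : E → V) : E ⊕ E → V ⊕ E := Sum.elim (fun e => Sum.inl (s e)) Sum.inr

/-- targets of the halves -/
def ht (t : E → V) : E ⊕ E → V ⊕ E := Sum.elim Sum.inr (fun e => Sum.inl (t e))

/-- all edges are subdivided -/
theorem DD_series (s t : E → V) (o : V) (y z : E → A) :
    DD (hs s) (ht t) (Sum.inl o) (Sum.elim y z) 1 = DD s t o (fun e => y e + z e) 1 := by
  let S : Matrix E V A := Matrix.of fun e v => if s e = v then 1 else 0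
  let T : Matrix E V A := Matrix.of fun e v => if t e = v then 1 else 0
  let D : Matrix (E ⊕ E) (E ⊕ E) A := fromBlocks (diagonal z) 1 (-1) 0
  let D' : Matrix (E ⊕ E) (E ⊕ E) A := fromBlocks 0 (-1) 1 (diagonal z)
  have hDD' : D * D' = 1 := by
    simp only [D, D', fromBlocks_multiply]
    rw [← fromBlocks_one]
    congr 1 <;> simp
  have hinvD : Invertible D := invertibleOfRightInverse _ _ hDD'
  have hD' : ⅟D = D' := invOf_eq_right_inv hDD'
  have hdetD : D.det = 1 := by
    have h1 : D * fromBlocks 1 0 (1 - diagonal z) 1 = fromBlocks 1 1 (-1) 0 := by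
      simp only [D, fromBlocks_multiply]
      congr 1 <;> simp
    have h2 := congrArg Matrix.det h1
    rw [det_mul, det_fromBlocks_zero₁₂, det_one, mul_one, mul_one,
      det_fromBlocks_one₁₁] at h2
    rw [h2]
    simp
  have hM : (MM (hs s) (ht t) (Sum.inl o) (Sum.elim y z) 1).submatrix
      (Equiv.sumSumSumComm E V E E) (Equiv.sumSumSumComm E V E E) =
      fromBlocks (fromBlocks (diagonal y) S (-Sᵀ) (Matrix.single o o 1))
        (fromBlocks 0 (-1) Tᵀ 0) (fromBlocks 0 (-T) 1 0) D := by
    ext i j
    rcases i with (e | v) | (e | e) <;> rcases j with (e' | v') | (e' | e') <;>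
      simp [MM, S, T, D, inc, hs, ht, diagonal_apply, Matrix.single_apply, Matrix.one_apply,
        eq_comm]
  unfold DD
  rw [← det_submatrix_equiv_self (Equiv.sumSumSumComm E V E E) (MM (hs s) (ht t) _ _ _), hM,
    det_fromBlocks₂₂, hdetD, one_mul, hD']
  congr 1
  simp only [D', fromBlocks_multiply]
  rw [sub_eq_add_neg, fromBlocks_neg, fromBlocks_add]
  unfold MM
  congr 1
  · ext i j
    by_cases hij : i = j
    · subst hij; simp
    · simp [hij]
  · ext e v
    simp [S, T, inc]
    ring
  · ext v e
    simp [S, T, inc]
    ring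
  · simp

end

end Pool.Agent.Phi4
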