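import Pool.Agent.Phi4.Bd
import Pool.Agent.Phi4.Mt

/-!
# Networks attached to two vertices and the root
-/

set_option autoImplicit false
set_option linter.unusedSectionVars false

open Matrix MvPolynomial

namespace Pool.Agent.Phi4

section

variable {E W K N A B : Type} [CommRing A] [CommRing B] [DecidableEq W] [DecidableEq N]

/-- reduced incidence matrix -/
def gi (s t : E → Option W) : Matrix E W A :=
  Matrix.of fun e w => (if s e = some w then 1 else 0) - (if t e = some w then 1 else 0)

/-- reduced expanded Laplacian -/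
def RM [DecidableEq E] (s t : E → Option W) (a : E → A) : Matrix (E ⊕ W) (E ⊕ W) A :=
  fromBlocks (diagonal a) (gi s t) (-(gi s t)ᵀ) 0

/-- the two terminals -/
def TP (E A : Type) [CommRing A] (g : Fin 2 → W) : Matrix (Fin 2) (E ⊕ W) A :=
  Matrix.of fun i => Sum.elim 0 (fun w => if g i = w then 1 else 0)

lemma map_gi (φ : A →+* B) (s t : E → Option W) : (gi s t : Matrix E W A).map φ = gi s t := by
  ext e w
  simp only [gi, Matrix.map_apply, Matrix.of_apply, map_sub]
  congr 1 <;> split_ifs <;> simp

lemma map_RM [DecidableEq E] (φ : A →+* B) (s t : E → Option W) (a : E → A) :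
    (RM s t a).map φ = RM s t (fun e => φ (a e)) := by
  unfold RM
  rw [fromBlocks_map, map_gi, Matrix.map_neg, transpose_map, map_gi]
  · congr 1
    · ext i j
      by_cases h : i = j
      · subst h; simp
      · simp [h]
    · ext i j
      simp
  · exact map_neg φ

lemma map_TP (φ : A →+* B) (g : Fin 2 → W) : (TP E A g).map φ = TP E B g := by
  ext i j
  rcases j with e | w
  · simp [TP]
  · simp only [TP, Matrix.map_apply, Matrix.of_apply, Sum.elim_inr]
    split_ifs <;> simp

variable [DecidableEq E] [Fintype E] [Fintype W] [DecidableEq K] [Fintype K] [Fintype N]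

/-- the reduced matrix computes the polynomial -/
lemma DD_RM (s t : E → Option W) (a : E → A) : DD s t none a 1 = (RM s t a).det := by
  unfold DD
  rw [MM_eq, det_minor _ (Sum.elim 0 1) _ (Sum.inr none) rfl]
  · let f : E ⊕ W ≃ {v : E ⊕ Option W // v ≠ Sum.inr none} :=
      { toFun := Sum.elim (fun e => ⟨Sum.inl e, by simp⟩) (fun w => ⟨Sum.inr (some w), by simp⟩)
        invFun := fun v => match v with
          | ⟨Sum.inl e, _⟩ => Sum.inl e
          | ⟨Sum.inr (some w), _⟩ => Sum.inr w
          | ⟨Sum.inr none, h⟩ => absurd rfl h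
        left_inv := by rintro (e | w) <;> rfl
        right_inv := by
          rintro ⟨e | w, h⟩
          · rfl
          · rcases w with _ | w
            · exact absurd rfl h
            · rfl }
    rw [← det_submatrix_equiv_self f]
    congr 1
    ext i j
    rcases i with e | v <;> rcases j with e' | v'
    · simp [f, M0, RM]
    · simp [f, M0, RM, inc, gi]
    · simp [f, M0, RM, inc, gi]
    · simp [f, M0, RM]
  · unfold M0
    rw [fromBlocks_mulVec]
    ext i
    rcases i with e | v
    · have := sum_inc (A := A) s t e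
      simp only [Sum.elim_comp_inl, Sum.elim_comp_inr, Matrix.mulVec_zero, zero_add,
        Sum.elim_inl, mulVec, dotProduct, Matrix.of_apply, Pi.one_apply, mul_one, Pi.zero_apply,
        one_mul]
      exact this
    · simp [Sum.elim_comp_inl, Sum.elim_comp_inr]

lemma map_ite (g : Fin 2 → W) (x : Option (Fin 2)) (w : W) :
    (if x.map g = some w then (1 : A) else 0) =
      ∑ i, (if x = some i then 1 else 0) * (if g i = w then 1 else 0) := by
  rcases x with _ | i
  · simp
  · rw [Finset.sum_eq_single i]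
    · simp
    · intro j _ hj
      rw [if_neg (fun h => hj (Option.some_injective _ h).symm), zero_mul]
    · intro h
      exact absurd (Finset.mem_univ _) h

/-- adding edges -/
theorem RM_edges (sK tK : K → Option (Fin 2)) (g : Fin 2 → W) (s t : E → Option W) (y : K → A)
    (a : E → A) :
    (RM (Sum.elim (fun κ => (sK κ).map g) s) (Sum.elim (fun κ => (tK κ).map g) t)
      (Sum.elim y a)).det = BD (diagonal y) (gi sK tK) (gi sK tK) (TP E A g) (RM s t a) := by
  unfold BD
  rw [← det_submatrix_equiv_self (Equiv.sumAssoc K E W)]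
  congr 1
  have hC : ∀ (κ : K) (w : W), (gi (A := A) (fun κ => (sK κ).map g) (fun κ => (tK κ).map g)) κ w =
      ((gi sK tK : Matrix K (Fin 2) A) * TP E A g) κ (Sum.inr w) := by
    intro κ w
    rw [Matrix.mul_apply]
    simp only [gi, TP, Matrix.of_apply, Sum.elim_inr, sub_mul, Finset.sum_sub_distrib]
    rw [map_ite, map_ite]
  have hC0 : ∀ (κ : K) (e : E), ((gi sK tK : Matrix K (Fin 2) A) *
      TP E A g) κ (Sum.inl e) = 0 := by
    intro κ e
    rw [Matrix.mul_apply]
    simp [TP]
  ext i j
  rcases i with (κ | e) | v <;> rcases j with (κ' | e') | v'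
  · show diagonal (Sum.elim y a) (Sum.inl κ) (Sum.inl κ') = diagonal y κ κ'
    simp [diagonal_apply]
  · show diagonal (Sum.elim y a) (Sum.inl κ) (Sum.inr e') = _
    exact (by simp : _ = (0 : A)).trans (hC0 κ e').symm
  · exact hC κ v'
  · show diagonal (Sum.elim y a) (Sum.inr e) (Sum.inl κ') = - _
    exact (by simp : _ = -(0 : A)).trans (congrArg _ (hC0 κ' e).symm)
  · show diagonal (Sum.elim y a) (Sum.inr e) (Sum.inr e') = diagonal a e e'
    simp [diagonal_apply]
  · rfl
  · exact congrArg _ (hC κ' v)
  · rfl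
  · rfl

/-- adding edges and vertices -/
theorem RM_net (sK tK : K → Option (N ⊕ Fin 2)) (g : Fin 2 → W) (s t : E → Option W) (y : K → A)
    (a : E → A) :
    (RM (Sum.elim (fun κ => (sK κ).map (Sum.map id g)) (fun e => (s e).map Sum.inr))
      (Sum.elim (fun κ => (tK κ).map (Sum.map id g)) (fun e => (t e).map Sum.inr))
      (Sum.elim y a)).det =
    BD (fromBlocks (diagonal y) ((gi sK tK).submatrix id Sum.inl)
        (-((gi sK tK).submatrix id Sum.inl)ᵀ) 0)
      (fromRows ((gi sK tK).submatrix id Sum.inr) 0) (fromRows ((gi sK tK).submatrix id Sum.inr) 0)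
      (TP E A g) (RM s t a) := by
  unfold BD
  rw [← det_submatrix_equiv_self (Equiv.sumSumSumComm K N E W)]
  congr 1
  have hm : ∀ (x : Option (N ⊕ Fin 2)) (w : W),
      (if x.map (Sum.map id g) = some (Sum.inr w) then (1 : A) else 0) =
      ∑ i, (if x = some (Sum.inr i) then 1 else 0) * (if g i = w then 1 else 0) := by
    intro x w
    rcases x with _ | n | i
    · simp
    · simp
    · rw [Finset.sum_eq_single i]
      · simp
      · intro j _ hj
        rw [if_neg (fun h => hj (Sum.inr_injective (Option.some_injective _ h)).symm), zero_mul]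
      · intro h
        exact absurd (Finset.mem_univ _) h
  have hn : ∀ (x : Option (N ⊕ Fin 2)) (n : N),
      (if x.map (Sum.map id g) = some (Sum.inl n) then (1 : A) else 0) =
      (if x = some (Sum.inl n) then 1 else 0) := by
    intro x w
    rcases x with _ | n | i
    · simp
    · simp
    · simp
  have hi : ∀ (x : Option W) (n : N),
      (if x.map Sum.inr = some (Sum.inl n : N ⊕ W) then (1 : A) else 0) = 0 := by
    intro x n
    rcases x with _ | w
    · simp
    · simp
  have hw : ∀ (x : Option W) (w : W),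
      (if x.map Sum.inr = some (Sum.inr w : N ⊕ W) then (1 : A) else 0) =
        if x = some w then 1 else 0 := by
    intro x w
    rcases x with _ | w
    · simp
    · simp
  set s' := Sum.elim (fun κ => (sK κ).map (Sum.map id g)) (fun e => (s e).map Sum.inr) with hs'
  set t' := Sum.elim (fun κ => (tK κ).map (Sum.map id g)) (fun e => (t e).map Sum.inr) with ht'
  set C : Matrix (K ⊕ N) (Fin 2) A := fromRows ((gi sK tK).submatrix id Sum.inr) 0 with hCdef
  have h1 : ∀ (κ : K) (n : N), (gi s' t' : Matrix (K ⊕ E) (N ⊕ W) A) (Sum.inl κ) (Sum.inl n) =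
      gi sK tK κ (Sum.inl n) := by
    intro κ n
    exact congrArg₂ (fun x y : A => x - y) (hn (sK κ) n) (hn (tK κ) n)
  have h2 : ∀ (κ : K) (w : W), (gi s' t' : Matrix (K ⊕ E) (N ⊕ W) A) (Sum.inl κ) (Sum.inr w) =
      (C * TP E A g) (Sum.inl κ) (Sum.inr w) := by
    intro κ w
    rw [Matrix.mul_apply]
    refine (congrArg₂ (fun x y : A => x - y) (hm (sK κ) w) (hm (tK κ) w)).trans ?_
    rw [← Finset.sum_sub_distrib]
    refine Finset.sum_congr rfl fun i _ => ?_
    rw [← sub_mul]
    rfl
  have h3 : ∀ (e : E) (n : N), (gi s' t' : Matrix (K ⊕ E) (N ⊕ W) A) (Sum.inr e) (Sum.inl n) =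
      0 := by
    intro e n
    exact (congrArg₂ (fun x y : A => x - y) (hi (s e) n) (hi (t e) n)).trans (sub_zero 0)
  have h4 : ∀ (e : E) (w : W), (gi s' t' : Matrix (K ⊕ E) (N ⊕ W) A) (Sum.inr e) (Sum.inr w) =
      gi s t e w := by
    intro e w
    exact congrArg₂ (fun x y : A => x - y) (hw (s e) w) (hw (t e) w)
  have h5 : ∀ (x : K ⊕ N) (e : E), (C * TP E A g) x (Sum.inl e) = 0 := by
    intro x e
    rw [Matrix.mul_apply]
    simp [TP]
  have h6 : ∀ (n : N) (w : W), (C * TP E A g) (Sum.inr n) (Sum.inr w) =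
      0 := by
    intro n w
    rw [Matrix.mul_apply]
    simp [hCdef]
  ext i j
  rcases i with (κ | n) | (e | v) <;> rcases j with (κ' | n') | (e' | v')
  · show diagonal (Sum.elim y a) (Sum.inl κ) (Sum.inl κ') = diagonal y κ κ'
    simp [diagonal_apply]
  · exact h1 κ n'
  · show diagonal (Sum.elim y a) (Sum.inl κ) (Sum.inr e') = _
    exact (by simp : _ = (0 : A)).trans (h5 (Sum.inl κ) e').symm
  · exact h2 κ v'
  · exact congrArg _ (h1 κ' n)
  · rfl
  · exact (congrArg (fun z : A => -z) (h3 e' n)).trans
      ((neg_zero).trans (h5 (Sum.inr n) e').symm)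
  · exact (h6 n v').symm
  · show diagonal (Sum.elim y a) (Sum.inr e) (Sum.inl κ') = - _
    exact (by simp : _ = -(0 : A)).trans (congrArg _ (h5 (Sum.inl κ') e).symm)
  · exact (h3 e n').trans (neg_zero.symm.trans (congrArg _ (h5 (Sum.inr n') e).symm))
  · show diagonal (Sum.elim y a) (Sum.inr e) (Sum.inr e') = diagonal a e e'
    simp [diagonal_apply]
  · exact h4 e v'
  · exact congrArg _ (h2 κ' v)
  · exact neg_zero.symm.trans (congrArg _ (h6 n' v).symm)
  · exact congrArg _ (h4 e' v)
  · rfl

/-! ### Symmetry -/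

/-- the sign matrix -/
def sgn (E W A : Type) [CommRing A] [DecidableEq E] [DecidableEq W] : Matrix (E ⊕ W) (E ⊕ W) A :=
  fromBlocks 1 0 0 (-1)

lemma sgn_mul : sgn E W A * sgn E W A = 1 := by
  unfold sgn
  rw [fromBlocks_multiply]
  simp

lemma sgn_RM (s t : E → Option W) (a : E → A) : sgn E W A * (RM s t a)ᵀ * sgn E W A = RM s t a := by
  unfold sgn RM
  rw [fromBlocks_transpose, fromBlocks_multiply, fromBlocks_multiply]
  simp

lemma TP_sgn (g : Fin 2 → W) : TP E A g * sgn E W A = - TP E A g := by
  ext i j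
  rw [Matrix.mul_apply, Fintype.sum_sum_type]
  rcases j with e | w
  · simp [TP, sgn]
  · simp [TP, sgn, Matrix.one_apply]

/-- exchange of the borders -/
theorem BD_symm (Z : Matrix K K A) (C C' : Matrix K (Fin 2) A) (g : Fin 2 → W)
    (s t : E → Option W) (a : E → A) :
    BD Z C C' (TP E A g) (RM s t a) = BD Zᵀ C' C (TP E A g) (RM s t a) := by
  unfold BD
  rw [← det_transpose (fromBlocks Z (C * TP E A g) (-(C' * TP E A g)ᵀ) (RM s t a))]
  have hd : (fromBlocks (1 : Matrix K K A) 0 0 (sgn E W A)).det *
      (fromBlocks (1 : Matrix K K A) 0 0 (sgn E W A)).det = 1 := by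
    rw [← det_mul, fromBlocks_multiply]
    simp [sgn_mul]
  have h : fromBlocks Zᵀ (C' * TP E A g) (-(C * TP E A g)ᵀ) (RM s t a) =
      fromBlocks (1 : Matrix K K A) 0 0 (sgn E W A) *
        (fromBlocks Z (C * TP E A g) (-(C' * TP E A g)ᵀ) (RM s t a))ᵀ *
        fromBlocks (1 : Matrix K K A) 0 0 (sgn E W A) := by
    rw [fromBlocks_transpose, fromBlocks_multiply, fromBlocks_multiply]
    simp only [Matrix.mul_zero, Matrix.zero_mul, Matrix.one_mul, Matrix.mul_one, add_zero, zero_add]
    congr 1
    · rw [transpose_neg, transpose_transpose, Matrix.neg_mul, Matrix.mul_assoc, TP_sgn,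
        Matrix.mul_neg, neg_neg]
    · have h1 : TP E A g = -(TP E A g * sgn E W A) := by
        rw [TP_sgn, neg_neg]
      have h2 : (sgn E W A)ᵀ = sgn E W A := by
        unfold sgn
        rw [fromBlocks_transpose]
        simp
      conv_lhs => rw [h1]
      rw [Matrix.mul_neg, transpose_neg, neg_neg, ← Matrix.mul_assoc, transpose_mul, h2]
    · exact (sgn_RM s t a).symm
  rw [h, det_mul, det_mul, mul_comm (det _) (det _), mul_assoc, hd, mul_one]

theorem sr_symm (g : Fin 2 → W) (s t : E → Option W) (a : E → A) :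
    sr' (TP E A g) (RM s t a) = sr (TP E A g) (RM s t a) := by
  unfold sr sr'
  rw [BD_symm]
  simp

end

end Pool.Agent.Phi4
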