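import Pool.Agent.Phi4.P0

/-!
# The vanishing of the state: the steps
-/

set_option autoImplicit false
set_option linter.unusedSectionVars false
set_option linter.unusedSimpArgs false

open MvPolynomial
open Pool.Agent.Helper81.CP Pool.Agent.Helper81.HG

namespace Pool.Agent.Phi4

variable {G : ∀ (R : Type) [CommRing R], Prop} {σ : Type} [Finite σ] (hG : RG G) {B : Pd σ}
  (hB : Rp B) {T a b r F : MvPolynomial σ ℤ}
  (hrel : ∀ (A : Type) [CommRing A] (x : σ → A), B A x →
    ev x T * ev x F = ev x a * ev x b - ev x r * ev x r)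
  (H : Hyp G B T a b r F)

include hG hB hrel H

lemma p_T : Gd G (Cd (Up B) [] [up T]) := cd_opn hG H.bs _ H.gT

lemma p_cT : Gd G (Cd (Up B) [up a + up b - up r - up r, up T] []) :=
  lineA hG hB (up T) _ (by simp) (by simp (maxDischargeDepth := 30)) H.bs H.gT H.gc

lemma p_aT : Gd G (Cd (Up B) [up a, up T] []) :=
  lineA hG hB (up T) _ (by simp) (by simp) H.bs H.gT H.ga

/-- the star with `T = 0` -/
lemma p_TS : Gd G (Cd (Up B) [up T,
    st (up T) (up a) (up b) (up r) (up F) (v 0) (v 1) (v 2)] []) :=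
  cd_closed hG H.gS (up T) (star_unit hG hB hrel (p_T hG hB hrel H))

/-- the star with `T = c = 0` -/
lemma p_cTS : Gd G (Cd (Up B) [up a + up b - up r - up r, up T,
    st (up T) (up a) (up b) (up r) (up F) (v 0) (v 1) (v 2)] []) := by
  have h1 : Gd G (Cd (Up B) [up T] [up a + up b - up r - up r]) :=
    cd_opn hG H.gT _ (p_cT hG hB hrel H)
  have h2 : Gd G (Cd (Up B) [v 2 * (up a + up b - up r - up r) + (v 0 * up b + v 1 * up a + up F),
      up T] [up a + up b - up r - up r]) :=
    cd_solve hG h1 (Sum.inl 2) _ _ (fr_up _ _) (by simp) (by simp (maxDischargeDepth := 30))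
      (by simp (maxDischargeDepth := 30)) (by simp (maxDischargeDepth := 30))
      (fun A _ x hx => hx.2.2 _ (by simp))
  refine cd_closed hG (p_TS hG hB hrel H) _ (cd_congr h2 fun A _ x _ => ?_)
  simp only [List.mem_cons, List.not_mem_nil, or_false, forall_eq_or_imp, forall_eq,
    st, map_add, map_mul, map_sub, ev_v, ev_up]
  generalize ev (fun i => x (Sum.inr i)) T = T'
  generalize ev (fun i => x (Sum.inr i)) a = a'
  generalize ev (fun i => x (Sum.inr i)) b = b'
  generalize ev (fun i => x (Sum.inr i)) r = r'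
  generalize ev (fun i => x (Sum.inr i)) F = F'
  constructor
  · rintro ⟨⟨h3, rfl⟩, h4⟩
    exact ⟨⟨rfl, by linear_combination h3⟩, h4⟩
  · rintro ⟨⟨rfl, h3⟩, h4⟩
    exact ⟨⟨by linear_combination h3, rfl⟩, h4⟩

/-- `T = 0` and `a = b = r` -/
lemma p_rr : Gd G (Cd (Up B) [up T, up a - up r, up b - up r] []) := by
  refine cd_congr (cd_nil hG (p_cT hG hB hrel H) (up a - up r) fun A _ x hx => ⟨2, ?_⟩)
    fun A _ x _ => ?_
  · obtain ⟨h2, h3, h4⟩ := hx
    have h5 := hrel A _ h2
    simp only [List.mem_cons, List.not_mem_nil, or_false, forall_eq_or_imp, forall_eq,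
      st, map_add, map_mul, map_sub, ev_v, ev_up] at h3 ⊢
    generalize ev (fun i => x (Sum.inr i)) T = T' at *
    generalize ev (fun i => x (Sum.inr i)) a = a' at *
    generalize ev (fun i => x (Sum.inr i)) b = b' at *
    generalize ev (fun i => x (Sum.inr i)) r = r' at *
    generalize ev (fun i => x (Sum.inr i)) F = F' at *
    obtain ⟨h6, h7⟩ := h3
    linear_combination a' * h6 - F' * h7 + h5
  · simp only [List.mem_cons, List.not_mem_nil, or_false, forall_eq_or_imp, forall_eq,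
      st, map_add, map_mul, map_sub, ev_v, ev_up, IsEmpty.forall_iff, implies_true, and_true]
    generalize ev (fun i => x (Sum.inr i)) T = T'
    generalize ev (fun i => x (Sum.inr i)) a = a'
    generalize ev (fun i => x (Sum.inr i)) b = b'
    generalize ev (fun i => x (Sum.inr i)) r = r'
    constructor
    · rintro ⟨h3, h4, h5⟩
      exact ⟨h5, h3, by linear_combination h4 - h3⟩
    · rintro ⟨h3, h4, h5⟩
      exact ⟨h4, by linear_combination h4 + h5, h3⟩

/-- `T = 0`, `a = b = r` and the star -/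
lemma p_W : Gd G (Cd (Up B) [up T, up a - up r, up b - up r, (v 0 + v 1) * up r + up F] []) := by
  refine cd_congr (cd_nil hG (p_cTS hG hB hrel H) (up a - up r) fun A _ x hx => ⟨2, ?_⟩)
    fun A _ x _ => ?_
  · obtain ⟨h2, h3, h4⟩ := hx
    have h5 := hrel A _ h2
    simp only [List.mem_cons, List.not_mem_nil, or_false, forall_eq_or_imp, forall_eq,
      st, map_add, map_mul, map_sub, ev_v, ev_up] at h3 ⊢
    generalize ev (fun i => x (Sum.inr i)) T = T' at *
    generalize ev (fun i => x (Sum.inr i)) a = a' at *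
    generalize ev (fun i => x (Sum.inr i)) b = b' at *
    generalize ev (fun i => x (Sum.inr i)) r = r' at *
    generalize ev (fun i => x (Sum.inr i)) F = F' at *
    obtain ⟨h6, h7, h8⟩ := h3
    linear_combination a' * h6 - F' * h7 + h5
  · simp only [List.mem_cons, List.not_mem_nil, or_false, forall_eq_or_imp, forall_eq,
      st, map_add, map_mul, map_sub, ev_v, ev_up, IsEmpty.forall_iff, implies_true, and_true]
    generalize ev (fun i => x (Sum.inr i)) T = T'
    generalize ev (fun i => x (Sum.inr i)) a = a'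
    generalize ev (fun i => x (Sum.inr i)) b = b'
    generalize ev (fun i => x (Sum.inr i)) r = r'
    generalize ev (fun i => x (Sum.inr i)) F = F'
    constructor
    · rintro ⟨h3, h4, rfl, h6⟩
      exact ⟨rfl, h3, by linear_combination h4 - h3,
        by linear_combination h6 - x (Sum.inl 0) * (h4 - h3) - x (Sum.inl 1) * h3 -
          x (Sum.inl 2) * h4⟩
    · rintro ⟨rfl, h4, h5, h6⟩
      exact ⟨h4, by linear_combination h4 + h5, rfl, by
        linear_combination h6 + x (Sum.inl 0) * h5 + x (Sum.inl 1) * h4 +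
          x (Sum.inl 2) * (h4 + h5)⟩

/-- the triangle where `y₁ + y₂ + y₃` is invertible -/
lemma p_trS : Gd G (Cd (Up B) [tr (up T) (up a) (up b) (up r) (up F) (v 0) (v 1) (v 2) (v 3) (v 4)
    (v 5)] [v 0 + v 1 + v 2]) := by
  have hBu : Rp (Up B) := rp_ext Sum.inr hB
  have h1 : Gd G (Cd (Up B) [st (up T) (up a) (up b) (up r) (up F) (v 6) (v 7) (v 8)] []) := by
    refine (Gd.ext hG (Sum.map ![6, 7, 8, 3, 4, 5, 0, 1, 2] id)
      (Function.Injective.sumMap (by decide) Function.injective_id) H.gS).congr fun A _ x => ?_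
    simp only [Cd, Up, List.mem_cons, List.not_mem_nil, or_false, forall_eq_or_imp, forall_eq,
      st, map_add, map_mul, map_sub, ev_v, ev_up, IsEmpty.forall_iff, implies_true, and_true]
    exact Iff.rfl
  have h2 : Gd G (Cd (Up B) [st (up T) (up a) (up b) (up r) (up F) (v 6) (v 7) (v 8)]
      [v 0 + v 1 + v 2]) := by
    refine cd_opn hG h1 _ (cd_congr (cd_solve hG h1 (Sum.inl 0) 1 (v 1 + v 2) (fr_up _ _)
      (by simp (maxDischargeDepth := 30) [st]) (by simp) (by simp) (by simp)
      (fun A _ x hx => by rw [map_one]; exact isUnit_one)) fun A _ x _ => ?_)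
    simp only [List.mem_cons, List.not_mem_nil, or_false, forall_eq_or_imp, forall_eq,
      st, map_add, map_mul, map_sub, ev_v, ev_up, IsEmpty.forall_iff, implies_true, and_true,
      map_one, mul_one, ev_X, add_assoc]
  have h3 : Gd G (Cd (Up B) [v 3 * (v 0 + v 1 + v 2) + (v 1 * v 2 - (v 0 + v 1 + v 2) * v 6),
      st (up T) (up a) (up b) (up r) (up F) (v 6) (v 7) (v 8)] [v 0 + v 1 + v 2]) :=
    cd_solve hG h2 (Sum.inl 3) _ _ (fr_up _ _) (by simp (maxDischargeDepth := 30) [st])
      (by simp (maxDischargeDepth := 30)) (by simp (maxDischargeDepth := 30))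
      (by simp (maxDischargeDepth := 30)) (fun A _ x hx => hx.2.2 _ (by simp))
  have h4 : Gd G (Cd (Up B) [v 4 * (v 0 + v 1 + v 2) + (v 0 * v 2 - (v 0 + v 1 + v 2) * v 7),
      v 3 * (v 0 + v 1 + v 2) + (v 1 * v 2 - (v 0 + v 1 + v 2) * v 6),
      st (up T) (up a) (up b) (up r) (up F) (v 6) (v 7) (v 8)] [v 0 + v 1 + v 2]) :=
    cd_solve hG h3 (Sum.inl 4) _ _ (fr_up _ _) (by simp (maxDischargeDepth := 30) [st])
      (by simp (maxDischargeDepth := 30)) (by simp (maxDischargeDepth := 30))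
      (by simp (maxDischargeDepth := 30)) (fun A _ x hx => hx.2.2 _ (by simp))
  have h5 : Gd G (Cd (Up B) [v 5 * (v 0 + v 1 + v 2) + (v 0 * v 1 - (v 0 + v 1 + v 2) * v 8),
      v 4 * (v 0 + v 1 + v 2) + (v 0 * v 2 - (v 0 + v 1 + v 2) * v 7),
      v 3 * (v 0 + v 1 + v 2) + (v 1 * v 2 - (v 0 + v 1 + v 2) * v 6),
      st (up T) (up a) (up b) (up r) (up F) (v 6) (v 7) (v 8)] [v 0 + v 1 + v 2]) :=
    cd_solve hG h4 (Sum.inl 5) _ _ (fr_up _ _) (by simp (maxDischargeDepth := 30) [st])
      (by simp (maxDischargeDepth := 30)) (by simp (maxDischargeDepth := 30))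
      (by simp (maxDischargeDepth := 30)) (fun A _ x hx => hx.2.2 _ (by simp))
  have h6 : Gd G (Cd (Up B) [v 8 * (v 0 + v 1 + v 2) + -(v 5 * (v 0 + v 1 + v 2) + v 0 * v 1),
      v 7 * (v 0 + v 1 + v 2) + -(v 4 * (v 0 + v 1 + v 2) + v 0 * v 2),
      v 6 * (v 0 + v 1 + v 2) + -(v 3 * (v 0 + v 1 + v 2) + v 1 * v 2),
      tr (up T) (up a) (up b) (up r) (up F) (v 0) (v 1) (v 2) (v 3) (v 4) (v 5)]
      [v 0 + v 1 + v 2]) := by
    refine cd_congr h5 fun A _ x _ => ?_
    simp only [List.mem_cons, List.not_mem_nil, or_false, forall_eq_or_imp, forall_eq,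
      st, tr, map_add, map_mul, map_sub, map_neg, ← sub_eq_add_neg, ev_v, ev_up,
      IsEmpty.forall_iff, implies_true, and_true]
    generalize ev (fun i => x (Sum.inr i)) T = T'
    generalize ev (fun i => x (Sum.inr i)) a = a'
    generalize ev (fun i => x (Sum.inr i)) b = b'
    generalize ev (fun i => x (Sum.inr i)) r = r'
    generalize ev (fun i => x (Sum.inr i)) F = F'
    generalize x (Sum.inl 0) = y1
    generalize x (Sum.inl 1) = y2
    generalize x (Sum.inl 2) = y3
    generalize x (Sum.inl 3) = l1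
    generalize x (Sum.inl 4) = l2
    generalize x (Sum.inl 5) = l3
    generalize x (Sum.inl 6) = z1
    generalize x (Sum.inl 7) = z2
    generalize x (Sum.inl 8) = z3
    have key : ∀ (h1 : z1 * (y1 + y2 + y3) - (l1 * (y1 + y2 + y3) + y2 * y3) = 0)
        (h2 : z2 * (y1 + y2 + y3) - (l2 * (y1 + y2 + y3) + y1 * y3) = 0)
        (h3 : z3 * (y1 + y2 + y3) - (l3 * (y1 + y2 + y3) + y1 * y2) = 0),
        (y1 + y2 + y3) * ((y1 + y2 + y3) * ((z1 * z2 + z1 * z3 + z2 * z3) * T' + z1 * b' + z2 * a' +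
          z3 * (a' + b' - r' - r') + F')) =
        (y1 + y2 + y3) * ((y1 + y2 + y3) * T' * (l1 * l2 + l1 * l3 + l2 * l3) +
          l1 * (y1 * (y2 + y3) * T' + (y1 + y2 + y3) * b') +
          l2 * (y2 * (y1 + y3) * T' + (y1 + y2 + y3) * a') +
          l3 * (y3 * (y1 + y2) * T' + (y1 + y2 + y3) * (a' + b' - r' - r')) +
          y1 * y2 * y3 * T' + y2 * y3 * b' + y1 * y3 * a' + y1 * y2 * (a' + b' - r' - r') +
          (y1 + y2 + y3) * F') := by
      intro h1 h2 h3
      linear_combination T' * ((y1 + y2 + y3) * z1 * h2 + (l2 * (y1 + y2 + y3) + y1 * y3) * h1 +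
        (y1 + y2 + y3) * z1 * h3 + (l3 * (y1 + y2 + y3) + y1 * y2) * h1 +
        (y1 + y2 + y3) * z2 * h3 + (l3 * (y1 + y2 + y3) + y1 * y2) * h2) +
        (y1 + y2 + y3) * (b' * h1 + a' * h2 + (a' + b' - r' - r') * h3)
    constructor
    · rintro ⟨⟨h3, h2, h1, h0⟩, hS⟩
      have h1' : z1 * (y1 + y2 + y3) - (l1 * (y1 + y2 + y3) + y2 * y3) = 0 := by
        linear_combination - h1
      have h2' : z2 * (y1 + y2 + y3) - (l2 * (y1 + y2 + y3) + y1 * y3) = 0 := by
        linear_combination - h2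
      have h3' : z3 * (y1 + y2 + y3) - (l3 * (y1 + y2 + y3) + y1 * y2) = 0 := by
        linear_combination - h3
      refine ⟨⟨h3', h2', h1', ?_⟩, hS⟩
      have h4 := hS.mul_left_cancel (key h1' h2' h3')
      rw [← h4, h0, mul_zero]
    · rintro ⟨⟨h3, h2, h1, h0⟩, hS⟩
      refine ⟨⟨by linear_combination - h3, by linear_combination - h2, by linear_combination - h1,
        ?_⟩, hS⟩
      have h4 := hS.mul_left_cancel (key h1 h2 h3)
      rw [h0] at h4
      exact (hS.mul_right_eq_zero).mp h4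
  have hun : ∀ (A : Type) [CommRing A] (x : Fin 9 ⊕ σ → A) (Z : List (MvPolynomial _ ℤ)),
      Cd (Up B) Z [v 0 + v 1 + v 2] A x → IsUnit (ev x (v 0 + v 1 + v 2)) := fun A _ x Z hx =>
    hx.2.2 _ (by simp)
  have h7 := cd_unsolve hG hBu (Sum.inl 8) _ (-(v 5 * (v 0 + v 1 + v 2) + v 0 * v 1)) (fr_up _ _)
    (by simp (maxDischargeDepth := 30) [tr]) (by simp (maxDischargeDepth := 30))
    (by simp (maxDischargeDepth := 30)) (by simp (maxDischargeDepth := 30))
    (fun A _ x hx => hun A x _ hx) h6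
  have h8 := cd_unsolve hG hBu (Sum.inl 7) _ (-(v 4 * (v 0 + v 1 + v 2) + v 0 * v 2)) (fr_up _ _)
    (by simp (maxDischargeDepth := 30) [tr]) (by simp (maxDischargeDepth := 30))
    (by simp (maxDischargeDepth := 30)) (by simp (maxDischargeDepth := 30))
    (fun A _ x hx => hun A x _ hx) h7
  exact cd_unsolve hG hBu (Sum.inl 6) _ (-(v 3 * (v 0 + v 1 + v 2) + v 1 * v 2)) (fr_up _ _)
    (by simp (maxDischargeDepth := 30) [tr]) (by simp (maxDischargeDepth := 30))
    (by simp (maxDischargeDepth := 30)) (by simp (maxDischargeDepth := 30))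
    (fun A _ x hx => hun A x _ hx) h8

/-- the triangle where `y₁ + y₂ + y₃ = 0` -/
lemma p_Str : Gd G (Cd (Up B) [v 0 + v 1 + v 2,
    tr (up T) (up a) (up b) (up r) (up F) (v 0) (v 1) (v 2) (v 3) (v 4) (v 5)] []) :=
  cd_closed hG H.gD _ (p_trS hG hB hrel H)

end Pool.Agent.Phi4
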