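import Pool.Agent.Phi4.P1

/-!
# The vanishing of the state: the end
-/

set_option autoImplicit false
set_option linter.unusedSectionVars false
set_option linter.unusedSimpArgs false

open MvPolynomial
open Pool.Agent.Helper81.CP Pool.Agent.Helper81.HG

namespace Pool.Agent.Phi4

variable {G : ∀ (R : Type) [CommRing R], Prop} {σ : Type} [Finite σ] (hG : RG G) {B : Pd σ}
  (hB : Rp B) {T a b r F : MvPolynomial σ ℤ}
  (hrel : ∀ (A : Type) [CommRing A] (x : σ → A), B A x →
    ev x T * ev x F = ev x a * ev x b - ev x r * ev x r)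
  (H : Hyp G B T a b r F)

include hG hB hrel H

/-- the triangle where `y₁ + y₂ + y₃ = 0` and `T` is invertible -/
lemma p_StrT : Gd G (Cd (Up B) [v 0 + v 1 + v 2,
    tr (up T) (up a) (up b) (up r) (up F) (v 0) (v 1) (v 2) (v 3) (v 4) (v 5)] [up T]) := by
  have hBu : Rp (Up B) := rp_ext Sum.inr hB
  have h0 := p_T hG hB hrel H
  refine cd_glue hG hBu (v 0) ?_ ?_
  · -- `y₁ = 0`
    refine cd_glue hG hBu (v 1) ?_ ?_
    · -- `y₂ = 0`
      have h1 : Gd G (Cd (Up B) [v 0 * 1 + 0] [up T]) := cd_solve hG h0 (Sum.inl 0) 1 0 (fr_up _ _)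
        (by simp) (by simp) (by simp) (by simp)
        (fun A _ x hx => by rw [map_one]; exact isUnit_one)
      have h2 : Gd G (Cd (Up B) [v 1 * 1 + 0, v 0 * 1 + 0] [up T]) :=
        cd_solve hG h1 (Sum.inl 1) 1 0 (fr_up _ _)
        (by simp (maxDischargeDepth := 30)) (by simp) (by simp) (by simp)
        (fun A _ x hx => by rw [map_one]; exact isUnit_one)
      have h3 : Gd G (Cd (Up B) [v 2 * 1 + (v 0 + v 1), v 1 * 1 + 0, v 0 * 1 + 0] [up T]) :=
        cd_solve hG h2 (Sum.inl 2) 1 (v 0 + v 1) (fr_up _ _)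
        (by simp (maxDischargeDepth := 30)) (by simp) (by simp) (by simp)
        (fun A _ x hx => by rw [map_one]; exact isUnit_one)
      refine cd_congr h3 fun A _ x _ => ?_
      simp only [List.mem_cons, List.not_mem_nil, or_false, forall_eq_or_imp, forall_eq,
        st, tr, map_add, map_mul, map_sub, map_neg, map_one, map_zero, ev_v, ev_up, add_zero,
        mul_one, IsEmpty.forall_iff, implies_true, and_true]
      constructor
      · rintro ⟨⟨h4, h5, h6⟩, h7⟩
        rw [h5, h6] at h4
        have h4' : x (Sum.inl 2) = 0 := by simpa using h4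
        rw [h4', h5, h6]
        simp [h7]
      · rintro ⟨⟨h4, h5, h6, h8⟩, h7⟩
        rw [h4, h5] at h6 ⊢
        have h6' : x (Sum.inl 2) = 0 := by simpa using h6
        simp [h6', h7]
    · -- `y₂` invertible
      have h1 : Gd G (Cd (Up B) [] [v 1, up T]) := cd_gm hG h0 (Sum.inl 1) (fr_up _ _) (by simp)
        (by simp)
      have h2 : Gd G (Cd (Up B) [v 0 * 1 + 0] [v 1, up T]) :=
        cd_solve hG h1 (Sum.inl 0) 1 0 (fr_up _ _)
        (by simp) (by simp) (by simp) (by simp)
        (fun A _ x hx => by rw [map_one]; exact isUnit_one)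
      have h3 : Gd G (Cd (Up B) [v 2 * 1 + (v 0 + v 1), v 0 * 1 + 0] [v 1, up T]) :=
        cd_solve hG h2 (Sum.inl 2) 1 (v 0 + v 1) (fr_up _ _)
        (by simp (maxDischargeDepth := 30)) (by simp) (by simp) (by simp)
        (fun A _ x hx => by rw [map_one]; exact isUnit_one)
      have h4 : Gd G (Cd (Up B) [v 4 * (v 1 * (v 0 + v 2) * up T + (v 0 + v 1 + v 2) * up a) +
          ((v 0 + v 1 + v 2) * up T * (v 3 * v 5) +
            v 3 * (v 0 * (v 1 + v 2) * up T + (v 0 + v 1 + v 2) * up b) +
            v 5 * (v 2 * (v 0 + v 1) * up T + (v 0 + v 1 + v 2) * (up a + up b - up r - up r)) +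
            v 0 * v 1 * v 2 * up T + v 1 * v 2 * up b + v 0 * v 2 * up a +
            v 0 * v 1 * (up a + up b - up r - up r) + (v 0 + v 1 + v 2) * up F),
          v 2 * 1 + (v 0 + v 1), v 0 * 1 + 0] [v 1, up T]) := by
        refine cd_solve hG h3 (Sum.inl 4) _ _ (fr_up _ _)
          (by simp (maxDischargeDepth := 30)) (by simp) (by simp (maxDischargeDepth := 30))
          (by simp (maxDischargeDepth := 30)) (fun A _ x hx => ?_)
        obtain ⟨_, h5, h6⟩ := hx
        simp only [List.mem_cons, List.not_mem_nil, or_false, forall_eq_or_imp, forall_eq,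
          map_add, map_mul, map_sub, map_neg, map_one, map_zero, ev_v, ev_up, add_zero,
          mul_one, IsEmpty.forall_iff, implies_true, and_true] at h5 h6 ⊢
        have e : x (Sum.inl 1) * (x (Sum.inl 0) + x (Sum.inl 2)) * ev (fun i => x (Sum.inr i)) T +
            (x (Sum.inl 0) + x (Sum.inl 1) + x (Sum.inl 2)) * ev (fun i => x (Sum.inr i)) a =
            -(x (Sum.inl 1) * x (Sum.inl 1) * ev (fun i => x (Sum.inr i)) T) := by
          linear_combination (x (Sum.inl 1) * ev (fun i => x (Sum.inr i)) T +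
            ev (fun i => x (Sum.inr i)) a) * h5.1
        rw [e]
        exact ((h6.1.mul h6.1).mul h6.2).neg
      refine cd_congr h4 fun A _ x _ => ?_
      simp only [List.mem_cons, List.not_mem_nil, or_false, forall_eq_or_imp, forall_eq,
        st, tr, map_add, map_mul, map_sub, map_neg, map_one, map_zero, ev_v, ev_up, add_zero,
        mul_one, IsEmpty.forall_iff, implies_true, and_true]
      generalize ev (fun i => x (Sum.inr i)) T = T'
      generalize ev (fun i => x (Sum.inr i)) a = a'
      generalize ev (fun i => x (Sum.inr i)) b = b'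
      generalize ev (fun i => x (Sum.inr i)) r = r'
      generalize ev (fun i => x (Sum.inr i)) F = F'
      constructor
      · rintro ⟨⟨h5, h6, h7⟩, h8⟩
        refine ⟨⟨h7, by linear_combination h6, ?_⟩, h8⟩
        linear_combination h5 + (x (Sum.inl 3) * x (Sum.inl 4) + x (Sum.inl 4) * x (Sum.inl 5)) *
          T' * h6
      · rintro ⟨⟨h5, h6, h7⟩, h8⟩
        refine ⟨⟨?_, by linear_combination h6, h5⟩, h8⟩
        linear_combination h7 - (x (Sum.inl 3) * x (Sum.inl 4) + x (Sum.inl 4) * x (Sum.inl 5)) *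
          T' * h6
  · -- `y₁` invertible
    have h1 : Gd G (Cd (Up B) [] [v 0, up T]) := cd_gm hG h0 (Sum.inl 0) (fr_up _ _) (by simp)
      (by simp)
    have h3 : Gd G (Cd (Up B) [v 2 * 1 + (v 0 + v 1)] [v 0, up T]) :=
      cd_solve hG h1 (Sum.inl 2) 1 (v 0 + v 1) (fr_up _ _)
      (by simp (maxDischargeDepth := 30)) (by simp) (by simp) (by simp)
      (fun A _ x hx => by rw [map_one]; exact isUnit_one)
    have h4 : Gd G (Cd (Up B) [v 3 * (v 0 * (v 1 + v 2) * up T + (v 0 + v 1 + v 2) * up b) +
        ((v 0 + v 1 + v 2) * up T * (v 4 * v 5) +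
          v 4 * (v 1 * (v 0 + v 2) * up T + (v 0 + v 1 + v 2) * up a) +
          v 5 * (v 2 * (v 0 + v 1) * up T + (v 0 + v 1 + v 2) * (up a + up b - up r - up r)) +
          v 0 * v 1 * v 2 * up T + v 1 * v 2 * up b + v 0 * v 2 * up a +
          v 0 * v 1 * (up a + up b - up r - up r) + (v 0 + v 1 + v 2) * up F),
        v 2 * 1 + (v 0 + v 1)] [v 0, up T]) := by
      refine cd_solve hG h3 (Sum.inl 3) _ _ (fr_up _ _)
        (by simp (maxDischargeDepth := 30)) (by simp) (by simp (maxDischargeDepth := 30))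
        (by simp (maxDischargeDepth := 30)) (fun A _ x hx => ?_)
      obtain ⟨_, h5, h6⟩ := hx
      simp only [List.mem_cons, List.not_mem_nil, or_false, forall_eq_or_imp, forall_eq,
        map_add, map_mul, map_sub, map_neg, map_one, map_zero, ev_v, ev_up, add_zero,
        mul_one, IsEmpty.forall_iff, implies_true, and_true] at h5 h6 ⊢
      have e : x (Sum.inl 0) * (x (Sum.inl 1) + x (Sum.inl 2)) * ev (fun i => x (Sum.inr i)) T +
          (x (Sum.inl 0) + x (Sum.inl 1) + x (Sum.inl 2)) * ev (fun i => x (Sum.inr i)) b =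
          -(x (Sum.inl 0) * x (Sum.inl 0) * ev (fun i => x (Sum.inr i)) T) := by
        linear_combination (x (Sum.inl 0) * ev (fun i => x (Sum.inr i)) T +
          ev (fun i => x (Sum.inr i)) b) * h5
      rw [e]
      exact ((h6.1.mul h6.1).mul h6.2).neg
    refine cd_congr h4 fun A _ x _ => ?_
    simp only [List.mem_cons, List.not_mem_nil, or_false, forall_eq_or_imp, forall_eq,
      st, tr, map_add, map_mul, map_sub, map_neg, map_one, map_zero, ev_v, ev_up, add_zero,
      mul_one, IsEmpty.forall_iff, implies_true, and_true]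
    generalize ev (fun i => x (Sum.inr i)) T = T'
    generalize ev (fun i => x (Sum.inr i)) a = a'
    generalize ev (fun i => x (Sum.inr i)) b = b'
    generalize ev (fun i => x (Sum.inr i)) r = r'
    generalize ev (fun i => x (Sum.inr i)) F = F'
    constructor
    · rintro ⟨⟨h5, h6⟩, h8⟩
      refine ⟨⟨by linear_combination h6, ?_⟩, h8⟩
      linear_combination h5 + (x (Sum.inl 3) * x (Sum.inl 4) + x (Sum.inl 3) * x (Sum.inl 5)) *
        T' * h6
    · rintro ⟨⟨h6, h7⟩, h8⟩
      refine ⟨⟨?_, by linear_combination h6⟩, h8⟩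
      linear_combination h7 - (x (Sum.inl 3) * x (Sum.inl 4) + x (Sum.inl 3) * x (Sum.inl 5)) *
        T' * h6

/-- the form `ω` -/
lemma p_om : Gd G (Cd (Up B) [up T, v 0 + v 1 + v 2,
    v 1 * v 2 * up b + v 0 * v 2 * up a + v 0 * v 1 * (up a + up b - up r - up r)] []) := by
  refine cd_congr (cd_closed hG (p_Str hG hB hrel H) (up T) (p_StrT hG hB hrel H)) fun A _ x _ => ?_
  simp only [List.mem_cons, List.not_mem_nil, or_false, forall_eq_or_imp, forall_eq,
    st, tr, map_add, map_mul, map_sub, map_neg, map_one, map_zero, ev_v, ev_up, add_zero,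
    mul_one, IsEmpty.forall_iff, implies_true, and_true]
  generalize ev (fun i => x (Sum.inr i)) T = T'
  generalize ev (fun i => x (Sum.inr i)) a = a'
  generalize ev (fun i => x (Sum.inr i)) b = b'
  generalize ev (fun i => x (Sum.inr i)) r = r'
  generalize ev (fun i => x (Sum.inr i)) F = F'
  constructor
  · rintro ⟨rfl, h6, h8⟩
    refine ⟨rfl, h6, ?_⟩
    linear_combination h8 - (x (Sum.inl 3) * b' + x (Sum.inl 4) * a' +
      x (Sum.inl 5) * (a' + b' - r' - r') + F') * h6
  · rintro ⟨rfl, h6, h8⟩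
    refine ⟨rfl, h6, ?_⟩
    linear_combination h8 + (x (Sum.inl 3) * b' + x (Sum.inl 4) * a' +
      x (Sum.inl 5) * (a' + b' - r' - r') + F') * h6

/-- the form `ω` where `a` is invertible -/
lemma p_oma : Gd G (Cd (Up B) [up T, v 0 + v 1 + v 2,
    v 1 * v 2 * up b + v 0 * v 2 * up a + v 0 * v 1 * (up a + up b - up r - up r)] [up a]) := by
  have hBu : Rp (Up B) := rp_ext Sum.inr hB
  have h1 : Gd G (Cd (Up B) [up T] [up a]) := cd_opn hG H.gT _ (p_aT hG hB hrel H)
  have h2 : Gd G (Cd (Up B) [v 0 * up a + v 1 * up r, up T] [up a]) :=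
    cd_solve hG h1 (Sum.inl 0) _ _ (fr_up _ _) (by simp) (by simp (maxDischargeDepth := 30))
      (by simp (maxDischargeDepth := 30)) (by simp (maxDischargeDepth := 30))
      (fun A _ x hx => hx.2.2 _ (by simp))
  have h3 : Gd G (Cd (Up B) [v 2 * 1 + (v 0 + v 1), v 0 * up a + v 1 * up r, up T] [up a]) :=
    cd_solve hG h2 (Sum.inl 2) 1 (v 0 + v 1) (fr_up _ _)
      (by simp (maxDischargeDepth := 30)) (by simp) (by simp) (by simp)
      (fun A _ x hx => by rw [map_one]; exact isUnit_one)
  refine cd_nil' hG hBu (v 0 * up a + v 1 * up r) (fun A _ x hx => ⟨2, ?_⟩)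
    (cd_congr h3 fun A _ x hx => ?_)
  · obtain ⟨h2, h3, h4⟩ := hx
    have h5 := hrel A _ h2
    simp only [List.mem_cons, List.not_mem_nil, or_false, forall_eq_or_imp, forall_eq,
      st, map_add, map_mul, map_sub, ev_v, ev_up] at h3 h4 ⊢
    generalize ev (fun i => x (Sum.inr i)) T = T' at *
    generalize ev (fun i => x (Sum.inr i)) a = a' at *
    generalize ev (fun i => x (Sum.inr i)) b = b' at *
    generalize ev (fun i => x (Sum.inr i)) r = r' at *
    generalize ev (fun i => x (Sum.inr i)) F = F' at *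
    obtain ⟨h6, h7, h8⟩ := h3
    linear_combination (-a') * h8 + a' * (x (Sum.inl 1) * b' + x (Sum.inl 0) * a') * h7 +
      x (Sum.inl 1) ^ 2 * (h5 - F' * h6)
  · have h5 := hrel A _ hx
    simp only [List.mem_cons, List.not_mem_nil, or_false, forall_eq_or_imp, forall_eq,
      st, tr, map_add, map_mul, map_sub, map_neg, map_one, map_zero, ev_v, ev_up, add_zero,
      mul_one, IsEmpty.forall_iff, implies_true, and_true]
    generalize ev (fun i => x (Sum.inr i)) T = T' at *
    generalize ev (fun i => x (Sum.inr i)) a = a' at *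
    generalize ev (fun i => x (Sum.inr i)) b = b' at *
    generalize ev (fun i => x (Sum.inr i)) r = r' at *
    generalize ev (fun i => x (Sum.inr i)) F = F' at *
    constructor
    · rintro ⟨⟨h6, h7, h8⟩, h9⟩
      refine ⟨⟨h7, h8, by linear_combination h6, ?_⟩, h9⟩
      refine (h9.mul_right_eq_zero).mp ?_
      linear_combination (-(x (Sum.inl 0) * a' + x (Sum.inl 1) * r')) * h7 +
        a' * (x (Sum.inl 1) * b' + x (Sum.inl 0) * a') * h6 + x (Sum.inl 1) ^ 2 * (h5 - F' * h8)
    · rintro ⟨⟨h6, h7, h8, h10⟩, h9⟩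
      exact ⟨⟨by linear_combination h8, h6, h7⟩, h9⟩

/-- `T = a = b = r = 0` -/
lemma p_Z4 : Gd G (Cd (Up B) [up T, up a, up r, up b] []) := by
  have hBu : Rp (Up B) := rp_ext Sum.inr hB
  -- `T = a = r = 0`
  have h1 : Gd G (Cd (Up B) [up T, up a, up r] []) := by
    refine cd_congr (cd_nil hG (p_aT hG hB hrel H) (up r) fun A _ x hx => ⟨2, ?_⟩)
      fun A _ x _ => ?_
    · obtain ⟨h2, h3, h4⟩ := hx
      have h5 := hrel A _ h2
      simp only [List.mem_cons, List.not_mem_nil, or_false, forall_eq_or_imp, forall_eq,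
        st, map_add, map_mul, map_sub, ev_v, ev_up] at h3 ⊢
      obtain ⟨h6, h7⟩ := h3
      rw [h6, h7] at h5
      linear_combination h5
    · simp only [List.mem_cons, List.not_mem_nil, or_false, forall_eq_or_imp, forall_eq,
        IsEmpty.forall_iff, implies_true, and_true]
      tauto
  -- with `ω = 0`
  have h2 : Gd G (Cd (Up B) [up T, v 0 + v 1 + v 2, up a, up r, v 1 * v 1 * up b] []) := by
    refine cd_congr (cd_nil hG (cd_closed hG (p_om hG hB hrel H) (up a) (p_oma hG hB hrel H))
      (up r) fun A _ x hx => ⟨2, ?_⟩) fun A _ x _ => ?_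
    · obtain ⟨h2, h3, h4⟩ := hx
      have h5 := hrel A _ h2
      simp only [List.mem_cons, List.not_mem_nil, or_false, forall_eq_or_imp, forall_eq,
        st, map_add, map_mul, map_sub, ev_v, ev_up] at h3 ⊢
      obtain ⟨h6, h7, _⟩ := h3
      rw [h6, h7] at h5
      linear_combination h5
    · simp only [List.mem_cons, List.not_mem_nil, or_false, forall_eq_or_imp, forall_eq,
        st, tr, map_add, map_mul, map_sub, map_neg, map_one, map_zero, ev_v, ev_up, add_zero,
        mul_one, IsEmpty.forall_iff, implies_true, and_true]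
      generalize ev (fun i => x (Sum.inr i)) T = T'
      generalize ev (fun i => x (Sum.inr i)) a = a'
      generalize ev (fun i => x (Sum.inr i)) b = b'
      generalize ev (fun i => x (Sum.inr i)) r = r'
      constructor
      · rintro ⟨rfl, rfl, rfl, h6, h7⟩
        exact ⟨rfl, h6, rfl, rfl, by linear_combination - h7 + x (Sum.inl 1) * b' * h6⟩
      · rintro ⟨rfl, h6, rfl, rfl, h7⟩
        exact ⟨rfl, rfl, rfl, h6, by linear_combination - h7 + x (Sum.inl 1) * b' * h6⟩
  -- where `y₂` is zero
  have h3 : Gd G (Cd (Up B) [v 1, up T, v 0 + v 1 + v 2, up a, up r, v 1 * v 1 * up b] []) := by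
    have h4 : Gd G (Cd (Up B) [v 1 * 1 + 0, up T, up a, up r] []) :=
      cd_solve hG h1 (Sum.inl 1) 1 0 (fr_up _ _) (by simp) (by simp) (by simp) (by simp)
        (fun A _ x hx => by rw [map_one]; exact isUnit_one)
    have h5 : Gd G (Cd (Up B) [v 2 * 1 + (v 0 + v 1), v 1 * 1 + 0, up T, up a, up r] []) :=
      cd_solve hG h4 (Sum.inl 2) 1 (v 0 + v 1) (fr_up _ _)
        (by simp (maxDischargeDepth := 30)) (by simp) (by simp) (by simp)
        (fun A _ x hx => by rw [map_one]; exact isUnit_one)
    refine cd_congr h5 fun A _ x _ => ?_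
    simp only [List.mem_cons, List.not_mem_nil, or_false, forall_eq_or_imp, forall_eq,
      st, tr, map_add, map_mul, map_sub, map_neg, map_one, map_zero, ev_v, ev_up, add_zero,
      mul_one, IsEmpty.forall_iff, implies_true, and_true]
    constructor
    · rintro ⟨h6, h7, h8, h9, h10⟩
      exact ⟨h7, h8, by linear_combination h6, h9, h10, by rw [h7]; simp⟩
    · rintro ⟨h7, h8, h6, h9, h10, _⟩
      exact ⟨by linear_combination h6, h7, h8, h9, h10⟩
  -- where `y₂` is invertible
  have h4 : Gd G (Cd (Up B) [v 2 * 1 + (v 0 + v 1), up T, up a, up r, up b] [v 1]) := by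
    refine cd_congr (cd_opn hG h2 (v 1) h3) fun A _ x _ => ?_
    simp only [List.mem_cons, List.not_mem_nil, or_false, forall_eq_or_imp, forall_eq,
      st, tr, map_add, map_mul, map_sub, map_neg, map_one, map_zero, ev_v, ev_up, add_zero,
      mul_one, IsEmpty.forall_iff, implies_true, and_true]
    constructor
    · rintro ⟨⟨h6, h7, h8, h9, h10⟩, h11⟩
      exact ⟨⟨by linear_combination h7, h6, h8, h9, ((h11.mul h11).mul_right_eq_zero).mp h10⟩, h11⟩
    · rintro ⟨⟨h6, h7, h8, h9, h10⟩, h11⟩
      exact ⟨⟨h7, by linear_combination h6, h8, h9, by rw [h10]; simp⟩, h11⟩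
  refine cd_ungm hG hBu (Sum.inl 1) (fr_up _ _) (by simp) (by simp)
    (cd_unsolve hG hBu (Sum.inl 2) 1 (v 0 + v 1) (fr_up _ _) (by simp)
      (by simp) (by simp) (by simp)
      (fun A _ x hx => by rw [map_one]; exact isUnit_one) h4)

/-- **the state is zero** -/
lemma p_zero9 : Gd G (Cd (Up B) [up T, up a, up b, up r, up F] []) := by
  have hBu : Rp (Up B) := rp_ext Sum.inr hB
  have h1 : Gd G (Cd (Up B) [up T, up a - up r, up b - up r] [up r]) := by
    refine cd_opn hG (p_rr hG hB hrel H) (up r) (cd_congr (p_Z4 hG hB hrel H) fun A _ x _ => ?_)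
    simp only [List.mem_cons, List.not_mem_nil, or_false, forall_eq_or_imp, forall_eq,
      st, tr, map_add, map_mul, map_sub, map_neg, map_one, map_zero, ev_v, ev_up, add_zero,
      mul_one, IsEmpty.forall_iff, implies_true, and_true]
    constructor
    · rintro ⟨h6, h7, h8, h9⟩
      rw [h6, h7, h8, h9]
      simp
    · rintro ⟨h6, h7, h8, h9⟩
      rw [h6] at h8 h9 ⊢
      rw [sub_zero] at h8 h9
      exact ⟨h7, h8, rfl, h9⟩
  have h2 : Gd G (Cd (Up B) [v 0 * up r + (v 1 * up r + up F), up T, up a - up r, up b - up r]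
      [up r]) :=
    cd_solve hG h1 (Sum.inl 0) _ _ (fr_up _ _) (by simp) (by simp)
      (by simp (maxDischargeDepth := 30)) (by simp (maxDischargeDepth := 30))
      (fun A _ x hx => hx.2.2 _ (by simp))
  have h3 : Gd G (Cd (Up B) [up T, up a - up r, up b - up r, (v 0 + v 1) * up r + up F]
      [up r]) := by
    refine cd_congr h2 fun A _ x _ => ?_
    simp only [List.mem_cons, List.not_mem_nil, or_false, forall_eq_or_imp, forall_eq,
      st, tr, map_add, map_mul, map_sub, map_neg, map_one, map_zero, ev_v, ev_up, add_zero,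
      mul_one, IsEmpty.forall_iff, implies_true, and_true, add_mul, add_assoc]
    tauto
  refine cd_congr (cd_closed hG (p_W hG hB hrel H) (up r) h3) fun A _ x _ => ?_
  simp only [List.mem_cons, List.not_mem_nil, or_false, forall_eq_or_imp, forall_eq,
    st, tr, map_add, map_mul, map_sub, map_neg, map_one, map_zero, ev_v, ev_up, add_zero,
    mul_one, IsEmpty.forall_iff, implies_true, and_true]
  constructor
  · rintro ⟨h6, h7, h8, h9, h10⟩
    rw [h6] at h8 h9 h10 ⊢
    rw [sub_zero] at h8 h9
    rw [mul_zero, zero_add] at h10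
    exact ⟨h7, h8, h9, rfl, h10⟩
  · rintro ⟨h6, h7, h8, h9, h10⟩
    rw [h6, h7, h8, h9, h10]
    simp

/-- **the vanishing of the state** -/
theorem zero_state : Gd G (fun A _ x => B A x ∧ ev x T = 0 ∧ ev x a = 0 ∧ ev x b = 0 ∧
    ev x r = 0 ∧ ev x F = 0) := by
  refine Gd.unext hG (Sum.inr : σ → Fin 9 ⊕ σ) Sum.inr_injective ?_
    ((p_zero9 hG hB hrel H).congr fun A _ x => ?_)
  · refine (((((hB.zero T).zero a).zero b).zero r).zero F).congr fun A _ x => ?_
    tauto
  · simp only [Cd, Up, List.mem_cons, List.not_mem_nil, or_false, forall_eq_or_imp, forall_eq,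
      ev_up, IsEmpty.forall_iff, implies_true, and_true]

end Pool.Agent.Phi4
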