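import Pool.Agent.Phi4.Mt
import Pool.Agent.KB.Kir

/-!
# From simple graphs to multigraphs: subdivision
-/

set_option autoImplicit false
set_option linter.unusedSectionVars false

open Matrix MvPolynomial
open Pool.Agent.Helper81.CP Pool.Agent.Helper81.HG
open Pool.Agent.Helper50.KR (IsSpanningTree)
open Pool.Agent.KB (gs_affine)

namespace Pool.Agent.Phi4

section

variable {E V : Type} [DecidableEq V] [DecidableEq E] [Fintype E] [Fintype V]

lemma ev_psi (s t : E → V) (o : V) {A : Type} [CommRing A] (x : E → A) :
    ev x (psi s t o) = DD s t o x 1 := by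
  unfold psi
  rw [map_DD]
  congr 1
  · funext e
    exact ev_X x e
  · funext e
    exact map_one (ev x)

/-- the polynomial does not depend on the root -/
theorem psi_root (s t : E → V) (o o' : V) : psi s t o = psi s t o' := DD_root s t o o' X 1

/-- subdivision of all edges -/
def sdv (s t : E → V) : SimpleGraph (V ⊕ E) where
  Adj a b := match a, b with
    | Sum.inl v, Sum.inr e => v = s e ∨ v = t e
    | Sum.inr e, Sum.inl v => v = s e ∨ v = t e
    | _, _ => False
  symm := ⟨by
    rintro (v | e) (w | e') h
    · exact h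
    · exact h
    · exact h
    · exact h⟩
  loopless := ⟨by
    rintro (v | e) h
    · exact h
    · exact h⟩

/-- the halves of the edges -/
def hf (s t : E → V) : E ⊕ E → (sdv s t).edgeSet
  | Sum.inl e => ⟨s(Sum.inl (s e), Sum.inr e), Or.inl rfl⟩
  | Sum.inr e => ⟨s(Sum.inr e, Sum.inl (t e)), Or.inr rfl⟩

lemma hf_val (s t : E → V) (x : E ⊕ E) : (hf s t x).1 = s(hs s x, ht t x) := by
  rcases x with e | e <;> rfl

lemma hf_bij (s t : E → V) (hl : ∀ e, s e ≠ t e) : Function.Bijective (hf s t) := by
  constructor
  · rintro (e | e) (e' | e') h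
    · have h1 := congrArg Subtype.val h
      simp only [hf, Sym2.eq_iff] at h1
      rcases h1 with ⟨_, h2⟩ | ⟨h2, _⟩
      · rw [Sum.inr_injective h2]
      · exact absurd h2 (by simp)
    · have h1 := congrArg Subtype.val h
      simp only [hf, Sym2.eq_iff] at h1
      rcases h1 with ⟨h2, _⟩ | ⟨h2, h3⟩
      · exact absurd h2 (by simp)
      · have h4 := Sum.inl_injective h2
        have h5 := Sum.inr_injective h3
        subst h5
        exact absurd h4 (hl e)
    · have h1 := congrArg Subtype.val h
      simp only [hf, Sym2.eq_iff] at h1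
      rcases h1 with ⟨h2, _⟩ | ⟨h2, h3⟩
      · exact absurd h2 (by simp)
      · have h4 := Sum.inl_injective h3
        have h5 := Sum.inr_injective h2
        subst h5
        exact absurd h4.symm (hl e)
    · have h1 := congrArg Subtype.val h
      simp only [hf, Sym2.eq_iff] at h1
      rcases h1 with ⟨h2, _⟩ | ⟨h2, _⟩
      · rw [Sum.inr_injective h2]
      · exact absurd h2 (by simp)
  · rintro ⟨z, hz⟩
    induction z using Sym2.ind with
    | _ a b =>
      rcases a with v | e <;> rcases b with w | e'
      · exact absurd hz (fun h => h)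
      · rcases hz with hz | hz
        · refine ⟨Sum.inl e', Subtype.ext ?_⟩
          rw [hf_val]
          simp only [hs, ht, Sum.elim_inl]
          rw [← hz]
        · refine ⟨Sum.inr e', Subtype.ext ?_⟩
          rw [hf_val]
          simp only [hs, ht, Sum.elim_inr]
          rw [← hz, Sym2.eq_swap]
      · rcases hz with hz | hz
        · refine ⟨Sum.inl e, Subtype.ext ?_⟩
          rw [hf_val]
          simp only [hs, ht, Sum.elim_inl]
          rw [← hz, Sym2.eq_swap]
        · refine ⟨Sum.inr e, Subtype.ext ?_⟩
          rw [hf_val]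
          simp only [hs, ht, Sum.elim_inr]
          rw [← hz]
      · exact absurd hz (fun h => h)

lemma ev_symanzik_sdv (s t : E → V) (o : V) (hl : ∀ e, s e ≠ t e) {A : Type} [CommRing A]
    (y : (sdv s t).edgeSet → A) :
    ev y (symanzik (sdv s t)) =
      ev (fun e => y (hf s t (Sum.inl e)) + y (hf s t (Sum.inr e))) (psi s t o) := by
  classical
  let f : E ⊕ E ≃ (sdv s t).edgeSet := Equiv.ofBijective (hf s t) (hf_bij s t hl)
  have hfv : ∀ x, f x = hf s t x := fun x => rfl
  have h1 := psi_symanzik (sdv s t) (fun h => hs s (f.symm h)) (fun h => ht t (f.symm h))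
    (fun h => by
      rw [← hf_val, ← hfv, f.apply_symm_apply]) (Sum.inl o)
  rw [← h1, ev_psi, ev_psi, ← DD_series]
  have h2 := DD_reindex f (Equiv.refl (V ⊕ E)) (fun h => hs s (f.symm h)) (fun h => ht t (f.symm h))
    (hs s) (ht t) (fun e => by simp) (fun e => by simp) (Sum.inl o) y (1 : (sdv s t).edgeSet → A)
  rw [Equiv.refl_apply] at h2
  rw [← h2]
  congr 1
  funext x
  rcases x with e | e <;> rfl

lemma symanzik_disc {V : Type} [Fintype V] (H : SimpleGraph V) (h : ¬ H.Connected) :
    symanzik H = 0 := by
  unfold symanzik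
  refine Finset.sum_eq_zero fun T _ => ?_
  rw [if_neg]
  intro hT
  apply h
  refine hT.1.mono ?_
  intro a b hab
  rw [SimpleGraph.fromEdgeSet_adj] at hab
  obtain ⟨⟨e, _, he⟩, _⟩ := hab
  have := e.2
  rw [he] at this
  exact this

lemma nb_sdv (s t : E → V) (hd : ∀ v, dg s t v ≤ 4) (v : V ⊕ E) :
    ((sdv s t).neighborSet v).ncard ≤ 4 := by
  classical
  rcases v with v | e
  · have h1 : (sdv s t).neighborSet (Sum.inl v) ⊆
        ((Finset.univ.filter fun e => v = s e ∨ v = t e).map ⟨Sum.inr, Sum.inr_injective⟩ :
          Finset (V ⊕ E)) := by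
      rintro (w | e) hw
      · exact absurd hw (fun h => h)
      · have hw' : v = s e ∨ v = t e := hw
        simpa using hw'
    refine (Set.ncard_le_ncard h1 (Finset.finite_toSet _)).trans ?_
    rw [Set.ncard_coe_finset, Finset.card_map]
    refine le_trans ?_ (hd v)
    unfold dg
    rw [Finset.card_filter]
    refine Finset.sum_le_sum fun e _ => ?_
    by_cases h1 : v = s e
    · rw [if_pos (Or.inl h1), if_pos h1.symm]; omega
    · by_cases h2 : v = t e
      · rw [if_pos (Or.inr h2), if_pos h2.symm]; omega
      · rw [if_neg (by tauto)]; omega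
  · have h1 : (sdv s t).neighborSet (Sum.inr e) ⊆ {Sum.inl (s e), Sum.inl (t e)} := by
      rintro (w | e') hw
      · have hw' : w = s e ∨ w = t e := hw
        rcases hw' with h | h
        · left; rw [h]
        · right; rw [h]; rfl
      · exact absurd hw (fun h => h)
    have h2 := Set.ncard_le_ncard h1 (Set.toFinite _)
    have h3 := Set.ncard_insert_le (Sum.inl (s e) : V ⊕ E) {Sum.inl (t e)}
    rw [Set.ncard_singleton] at h3
    omega

end

section

variable {G : ∀ (R : Type) [CommRing R], Prop}

/-- the class contains the hypersurfaces of the multigraphs of degrees at most `4` if it contains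
those of the connected simple graphs of degrees at most `4` -/
theorem gs_psi_of_simple (hG : RG G) (hpt : GS G (∅ : Set (MvPolynomial Empty ℤ)))
    (h : ∀ (V : Type) [Fintype V] (H : SimpleGraph V), H.Connected →
      (∀ v, (H.neighborSet v).ncard ≤ 4) → GS G ({symanzik H} : Set (MvPolynomial H.edgeSet ℤ)))
    (E V : Type) [Fintype E] [DecidableEq E] [Fintype V] [DecidableEq V] (s t : E → V) (o : V)
    (hl : ∀ e, s e ≠ t e) (hd : ∀ v, dg s t v ≤ 4) :
    GS G ({psi s t o} : Set (MvPolynomial E ℤ)) := by
  classical
  let f : E ⊕ E ≃ (sdv s t).edgeSet := Equiv.ofBijective (hf s t) (hf_bij s t hl)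
  have hfv : ∀ x, f x = hf s t x := fun x => rfl
  by_cases hc : (sdv s t).Connected
  · have h1 := h (V ⊕ E) (sdv s t) hc (nb_sdv s t hd)
    have h2 : GS G (rename (Sum.inl : E → E ⊕ E) '' {psi s t o}) := by
      refine (hG.gs_iso (E := ({symanzik (sdv s t)} : Set (MvPolynomial (sdv s t).edgeSet ℤ)))
        (E' := rename (Sum.inl : E → E ⊕ E) '' {psi s t o})
        (fun A _ x => Sum.elim (fun e => x (f (Sum.inl e)) + x (f (Sum.inr e)))
          (fun e => x (f (Sum.inr e))))
        (fun A _ y => fun h => Sum.elim (fun e => y (Sum.inl e) - y (Sum.inr e))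
          (fun e => y (Sum.inr e)) (f.symm h)) ?_ ?_ ?_ ?_ ?_ ?_).mp h1
      · intro A B _ _ φ x _ j
        rcases j with e | e
        · exact map_add φ _ _
        · rfl
      · intro A B _ _ φ y _ i
        dsimp only
        rcases f.symm i with e | e
        · exact map_sub φ _ _
        · rfl
      · rintro A _ x hx _ ⟨p, hp, rfl⟩
        rw [Set.mem_singleton_iff.mp hp, ev_rename]
        have h3 := hx _ rfl
        rw [ev_symanzik_sdv s t o hl] at h3
        exact h3
      · intro A _ y hy p hp
        rw [Set.mem_singleton_iff.mp hp, ev_symanzik_sdv s t o hl]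
        have h3 := hy _ ⟨_, rfl, rfl⟩
        rw [ev_rename] at h3
        simp only [← hfv, Equiv.symm_apply_apply, Sum.elim_inl, Sum.elim_inr, sub_add_cancel]
        exact h3
      · intro A _ x _
        funext i
        obtain ⟨z, rfl⟩ := f.surjective i
        rw [Equiv.symm_apply_apply]
        rcases z with e | e
        · simp
        · rfl
      · intro A _ y _
        funext i
        rcases i with e | e
        · simp
        · simp
    exact (hG.gs_emb Sum.inl Sum.inl_injective _).mp h2
  · have h0 : psi s t o = 0 := by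
      have h1 := ev_symanzik_sdv s t o hl
        (fun h => Sum.elim (fun e => (X e : MvPolynomial E ℤ)) (fun _ => 0) (f.symm h))
      rw [symanzik_disc _ hc, map_zero, ev_psi] at h1
      simp only [← hfv, Equiv.symm_apply_apply, Sum.elim_inl, Sum.elim_inr, add_zero] at h1
      exact h1.symm
    rw [h0]
    refine (hG.gs_congr fun A _ x => ?_).mpr (gs_affine hG hpt E)
    constructor
    · intro _ p hp
      exact absurd hp (Set.notMem_empty p)
    · intro _ p hp
      rw [Set.mem_singleton_iff.mp hp, map_zero]

end

end Pool.Agent.Phi4
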