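import Pool.Agent.Phi4.P2
import Pool.Agent.Phi4.Cmp
import Pool.Agent.Phi4.Simp
import Pool.Agent.Phi4.Deg

/-!
# The vanishing of the state of a multigraph
-/

set_option autoImplicit false
set_option linter.unusedSectionVars false

open Matrix MvPolynomial
open Pool.Agent.Helper81.CP Pool.Agent.Helper81.HG
open Pool.Agent.KB (gs_affine)

namespace Pool.Agent.Phi4

variable {G : ∀ (R : Type) [CommRing R], Prop}

/-- the induction hypothesis -/
def IH (G : ∀ (R : Type) [CommRing R], Prop) (n : ℕ) : Prop :=
  ∀ (E V : Type) [Fintype E] [DecidableEq E] [Fintype V] [DecidableEq V] (s t : E → V) (o : V),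
    (∀ e, s e ≠ t e) → exc s t < n → GS G ({psi s t o} : Set (MvPolynomial E ℤ))

section

variable {E W K V : Type} [Fintype E] [DecidableEq E] [Fintype W] [DecidableEq W]
  [Fintype K] [DecidableEq K] [Fintype V] [DecidableEq V]

/-- the hypersurface of a network, in the nine and the other variables -/
lemma net_gd (hG : RG G) (kk : K → Fin 9) (hk : Function.Injective kk) (s t : K ⊕ E → V) (o : V)
    (h : GS G ({psi s t o} : Set (MvPolynomial (K ⊕ E) ℤ))) (q : MvPolynomial (Fin 9 ⊕ E) ℤ)
    (hq : ∀ (A : Type) [CommRing A] (x : Fin 9 ⊕ E → A), ev x q =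
      DD s t o (Sum.elim (fun κ => x (Sum.inl (kk κ))) (fun e => x (Sum.inr e))) 1) :
    Gd G (Cd (Up (fun _ _ _ => True : Pd E)) [q] []) := by
  refine (Gd.ext hG (Sum.map kk id) (Function.Injective.sumMap hk Function.injective_id)
    (Gd.of_gs hG h)).congr fun A _ x => ?_
  have h1 : (fun i => x (Sum.map kk id i)) =
      Sum.elim (fun κ => x (Sum.inl (kk κ))) (fun e => x (Sum.inr e)) := by
    funext i
    rcases i with i | i <;> rfl
  simp only [Cd, Up, List.mem_cons, List.not_mem_nil, or_false, forall_eq_or_imp, forall_eq,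
    IsEmpty.forall_iff, implies_true, and_true, true_and]
  rw [hq, ← ev_psi, ← h1]
  constructor
  · intro h2
    exact h2 _ rfl
  · rintro h2 _ rfl
    exact h2

/-- the hypersurface of the graph itself -/
lemma self_gd (hG : RG G) (s t : E → V) (o : V)
    (h : GS G ({psi s t o} : Set (MvPolynomial E ℤ))) (q : MvPolynomial E ℤ)
    (hq : ∀ (A : Type) [CommRing A] (x : E → A), ev x q = DD s t o x 1) :
    Gd G (Cd (Up (fun _ _ _ => True : Pd E)) [up q] []) := by
  refine (Gd.ext hG (Sum.inr : E → Fin 9 ⊕ E) Sum.inr_injective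
    (Gd.of_gs hG h)).congr fun A _ x => ?_
  simp only [Cd, Up, List.mem_cons, List.not_mem_nil, or_false, forall_eq,
    IsEmpty.forall_iff, implies_true, and_true, true_and]
  rw [ev_up, hq, ← ev_psi]
  constructor
  · intro h2
    exact h2 _ rfl
  · rintro h2 _ rfl
    exact h2

/-- the terminals and the root -/
def bt (g : Fin 2 → W) (v : Option W) : ℕ := if v = some (g 0) ∨ v = some (g 1) ∨ v = none then 1 else 0

lemma dg_map {V' : Type} [DecidableEq V'] [Fintype V'] (m : V → V') (hm : Function.Injective m)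
    (s t : K → V) (v : V) : dg (fun κ => m (s κ)) (fun κ => m (t κ)) (m v) = dg s t v := by
  unfold dg
  simp only [hm.eq_iff]

lemma dg_map_out {V' : Type} [DecidableEq V'] [Fintype V'] (m : V → V')
    (s t : K → V) (v' : V') (h : ∀ v, m v ≠ v') : dg (fun κ => m (s κ)) (fun κ => m (t κ)) v' = 0 := by
  unfold dg
  refine Finset.sum_eq_zero fun e _ => ?_
  rw [if_neg (h _), if_neg (h _)]
  rfl

lemma inj_two (g : Fin 2 → W) (hg : g 0 ≠ g 1) : Function.Injective g := by
  intro i j h
  fin_cases i <;> fin_cases j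
  · rfl
  · exact absurd h hg
  · exact absurd h.symm hg
  · rfl

/-- edges between the terminals and the root -/
lemma edge_gs {n : ℕ} (hI : IH G n) (s t : E → Option W) (hl : ∀ e, s e ≠ t e) (g : Fin 2 → W)
    (hg : g 0 ≠ g 1) (hx : ∑ v, (dg s t v + bt g v - 4) < n) (sK tK : K → Option (Fin 2))
    (hK : ∀ κ, sK κ ≠ tK κ) (hd : ∀ i, dg sK tK i ≤ 1) :
    GS G ({psi (Sum.elim (fun κ => (sK κ).map g) s) (Sum.elim (fun κ => (tK κ).map g) t) none} :
      Set (MvPolynomial (K ⊕ E) ℤ)) := by
  have hinj : Function.Injective (Option.map g) := Option.map_injective (inj_two g hg)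
  refine hI _ _ _ _ _ ?_ (lt_of_le_of_lt (exc_add (id : Option W → Option W)
    Function.injective_id (fun κ => (sK κ).map g) (fun κ => (tK κ).map g) s t (bt g) ?_ ?_) hx)
  · rintro (κ | e)
    · exact fun h => hK κ (hinj h)
    · exact hl e
  · intro v
    by_cases hv : ∃ x, Option.map g x = v
    · obtain ⟨x, rfl⟩ := hv
      rw [id, dg_map _ hinj]
      refine (hd x).trans ?_
      unfold bt
      rw [if_pos]
      rcases x with _ | i
      · right; right; rfl
      · fin_cases i
        · left; rfl
        · right; left; rfl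
    · push Not at hv
      rw [id, dg_map_out _ _ _ _ hv]
      exact Nat.zero_le _
  · intro v' hv'
    exact absurd rfl (hv' v')

/-- networks between the terminals and the root -/
lemma net_gs {N : Type} [DecidableEq N] [Fintype N] {n : ℕ} (hI : IH G n) (s t : E → Option W)
    (hl : ∀ e, s e ≠ t e) (g : Fin 2 → W)
    (hg : g 0 ≠ g 1) (hx : ∑ v, (dg s t v + bt g v - 4) < n) (sK tK : K → Option (N ⊕ Fin 2))
    (hK : ∀ κ, sK κ ≠ tK κ) (hd : ∀ i : Fin 2, dg sK tK (some (Sum.inr i)) ≤ 1)
    (hd0 : dg sK tK none ≤ 1) (hdN : ∀ x : N, dg sK tK (some (Sum.inl x)) ≤ 4) :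
    GS G ({psi (Sum.elim (fun κ => (sK κ).map (Sum.map id g)) (fun e => (s e).map Sum.inr))
      (Sum.elim (fun κ => (tK κ).map (Sum.map id g)) (fun e => (t e).map Sum.inr)) none} :
      Set (MvPolynomial (K ⊕ E) ℤ)) := by
  have hinj : Function.Injective (Option.map (Sum.map (id : N → N) g)) :=
    Option.map_injective (Function.Injective.sumMap Function.injective_id (inj_two g hg))
  have hinr : Function.Injective (Option.map (Sum.inr : W → N ⊕ W)) :=
    Option.map_injective Sum.inr_injective
  refine hI _ _ _ _ _ ?_ (lt_of_le_of_lt (exc_add (Option.map (Sum.inr : W → N ⊕ W))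
    hinr (fun κ => (sK κ).map (Sum.map id g)) (fun κ => (tK κ).map (Sum.map id g)) s t
    (bt g) ?_ ?_) hx)
  · rintro (κ | e)
    · exact fun h => hK κ (hinj h)
    · exact fun h => hl e (hinr h)
  · intro v
    by_cases hv : ∃ x, Option.map (Sum.map (id : N → N) g) x = Option.map Sum.inr v
    · obtain ⟨x, hx⟩ := hv
      rw [← hx, dg_map _ hinj]
      rcases x with _ | y | i
      · rcases v with _ | w
        · unfold bt
          rw [if_pos (Or.inr (Or.inr rfl))]
          exact hd0
        · exact absurd hx (by simp)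
      · rcases v with _ | w
        · exact absurd hx (by simp)
        · exact absurd hx (by simp)
      · rcases v with _ | w
        · exact absurd hx (by simp)
        · have hx' : g i = w := by simpa using hx
          subst hx'
          refine (hd i).trans ?_
          unfold bt
          rw [if_pos]
          fin_cases i
          · left; rfl
          · right; left; rfl
    · push Not at hv
      rw [dg_map_out _ _ _ _ hv]
      exact Nat.zero_le _
  · intro v' hv'
    rcases v' with _ | y | w
    · exact absurd rfl (hv' none)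
    · have := dg_map (Option.map (Sum.map (id : N → N) g)) hinj sK tK (some (Sum.inl y))
      exact (le_of_eq this).trans (hdN y)
    · exact absurd rfl (hv' (some w))

lemma ev_det (s t : E → Option W) {A : Type} [CommRing A] (x : E → A) :
    ev x (RM s t (X : E → MvPolynomial E ℤ)).det = (RM s t x).det := by
  rw [RingHom.map_det, RingHom.mapMatrix_apply, map_RM]
  simp only [ev_X]

lemma ev_RM (s t : E → Option W) {A : Type} [CommRing A] (x : E → A) :
    (RM s t (X : E → MvPolynomial E ℤ)).map (ev x) = RM s t x := by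
  rw [map_RM]
  simp only [ev_X]

/-- **the vanishing of the state of a multigraph** -/
theorem pg_zero (hG : RG G) (hpt : GS G (∅ : Set (MvPolynomial Empty ℤ))) {n : ℕ} (hI : IH G n)
    (s t : E → Option W) (hl : ∀ e, s e ≠ t e) (g : Fin 2 → W) (hg : g 0 ≠ g 1)
    (hx : ∑ v, (dg s t v + bt g v - 4) < n) :
    Gd G (fun A _ x => (RM s t x).det = 0 ∧ sa (TP E A g) (RM s t x) = 0 ∧
      sb (TP E A g) (RM s t x) = 0 ∧ sr (TP E A g) (RM s t x) = 0 ∧
      sF (TP E A g) (RM s t x) = 0 : Pd E) := by
  let M : Matrix (E ⊕ W) (E ⊕ W) (MvPolynomial E ℤ) := RM s t X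
  have eT : ∀ (A : Type) [CommRing A] (x : E → A), ev x M.det = (RM s t x).det :=
    fun A _ x => ev_det s t x
  have ea : ∀ (A : Type) [CommRing A] (x : E → A), ev x (sa (TP E (MvPolynomial E ℤ) g) M) =
      sa (TP E A g) (RM s t x) := fun A _ x => by rw [map_sa, map_TP, ev_RM]
  have eb : ∀ (A : Type) [CommRing A] (x : E → A), ev x (sb (TP E (MvPolynomial E ℤ) g) M) =
      sb (TP E A g) (RM s t x) := fun A _ x => by rw [map_sb, map_TP, ev_RM]
  have er : ∀ (A : Type) [CommRing A] (x : E → A), ev x (sr (TP E (MvPolynomial E ℤ) g) M) =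
      sr (TP E A g) (RM s t x) := fun A _ x => by rw [map_sr, map_TP, ev_RM]
  have eF : ∀ (A : Type) [CommRing A] (x : E → A), ev x (sF (TP E (MvPolynomial E ℤ) g) M) =
      sF (TP E A g) (RM s t x) := fun A _ x => by rw [map_sF, map_TP, ev_RM]
  have hB : Rp (fun _ _ _ => True : Pd E) := rp_true
  have hrel : ∀ (A : Type) [CommRing A] (x : E → A), True →
      ev x M.det * ev x (sF (TP E (MvPolynomial E ℤ) g) M) =
      ev x (sa (TP E (MvPolynomial E ℤ) g) M) * ev x (sb (TP E (MvPolynomial E ℤ) g) M) -
      ev x (sr (TP E (MvPolynomial E ℤ) g) M) * ev x (sr (TP E (MvPolynomial E ℤ) g) M) := by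
    intro A _ x _
    rw [eT, ea, eb, er, eF, st_rel, sr_symm]
  have H : Hyp G (fun _ _ _ => True : Pd E) M.det (sa (TP E (MvPolynomial E ℤ) g) M)
      (sb (TP E (MvPolynomial E ℤ) g) M) (sr (TP E (MvPolynomial E ℤ) g) M)
      (sF (TP E (MvPolynomial E ℤ) g) M) := by
    refine ⟨?_, ?_, ?_, ?_, ?_, ?_⟩
    · -- the space
      refine (Gd.of_gs hG (gs_affine hG hpt (Fin 9 ⊕ E))).congr fun A _ x => ?_
      simp [Cd, Up, Pt]
    · -- the graph
      refine self_gd hG s t none (hI _ _ s t none hl (lt_of_le_of_lt ?_ hx)) _ fun A _ x => ?_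
      · unfold exc
        exact Finset.sum_le_sum fun v _ => Nat.sub_le_sub_right (Nat.le_add_right _ _) 4
      · rw [eT, DD_RM]
    · -- an edge between the terminals
      refine net_gd hG ![0] (by decide) _ _ _
        (edge_gs hI s t hl g hg hx ![some 0] ![some 1] (by decide) (by decide)) _ fun A _ x => ?_
      rw [DD_RM, RM_edges, bd_pq, sr_symm]
      simp only [map_add, map_mul, map_sub, ev_v, ev_up, eT, ea, eb, er]
      rfl
    · -- an edge between the first terminal and the root
      refine net_gd hG ![0] (by decide) _ _ _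
        (edge_gs hI s t hl g hg hx ![some 0] ![none] (by decide) (by decide)) _ fun A _ x => ?_
      rw [DD_RM, RM_edges, bd_po]
      simp only [map_add, map_mul, map_sub, ev_v, ev_up, eT, ea, eb, er]
      rfl
    · -- the star
      refine net_gd hG ![0, 1, 2] (by decide) _ _ _
        (net_gs hI s t hl g hg hx sS tS (by decide) (by decide) (by decide) (by decide)) _
          fun A _ x => ?_
      rw [DD_RM, RM_net, bd_star, sr_symm]
      simp only [st, map_add, map_mul, map_sub, ev_v, ev_up, eT, ea, eb, er, eF]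
      rfl
    · -- the triangle with legs
      refine net_gd hG (Sum.elim ![0, 1, 2] ![3, 4, 5]) (by decide) _ _ _
        (net_gs hI s t hl g hg hx sD tD (by decide) (by decide) (by decide) (by decide)) _
          fun A _ x => ?_
      rw [DD_RM, RM_net, bd_tri, sr_symm]
      simp only [tr, map_add, map_mul, map_sub, ev_v, ev_up, eT, ea, eb, er, eF]
      rfl
  refine (zero_state hG hB hrel H).congr fun A _ x => ?_
  rw [eT, ea, eb, er, eF, true_and]

end

end Pool.Agent.Phi4
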