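import Pool.Agent.Phi4.PG

/-!
# Splitting a vertex
-/

set_option autoImplicit false
set_option linter.unusedSectionVars false

open Matrix MvPolynomial
open Pool.Agent.Helper81.CP Pool.Agent.Helper81.HG
open Pool.Agent.KB (gs_affine)

namespace Pool.Agent.Phi4

variable {G : ∀ (R : Type) [CommRing R], Prop}

section

variable {E W K V A : Type} [Fintype E] [DecidableEq E] [Fintype W] [DecidableEq W]
  [Fintype K] [DecidableEq K] [Fintype V] [DecidableEq V] [CommRing A]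

/-! ### The state after adding an edge between the terminals -/

/-- sources with an edge between the terminals -/
def s2 (g : Fin 2 → W) (s : E → Option W) : Fin 1 ⊕ E → Option W :=
  Sum.elim (fun κ => ((![some 0] : Fin 1 → Option (Fin 2)) κ).map g) s

/-- targets with an edge between the terminals -/
def t2 (g : Fin 2 → W) (t : E → Option W) : Fin 1 ⊕ E → Option W :=
  Sum.elim (fun κ => ((![some 1] : Fin 1 → Option (Fin 2)) κ).map g) t

lemma RM2_det (g : Fin 2 → W) (s t : E → Option W) (y : Fin 1 → A) (a : E → A) :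
    (RM (s2 g s) (t2 g t) (Sum.elim y a)).det = y 0 * (RM s t a).det +
      (sa (TP E A g) (RM s t a) + sb (TP E A g) (RM s t a) - sr (TP E A g) (RM s t a) -
        sr (TP E A g) (RM s t a)) := by
  unfold s2 t2
  rw [RM_edges, bd_pq, sr_symm]

lemma RM2_a (g : Fin 2 → W) (s t : E → Option W) (y : Fin 1 → A) (a : E → A) :
    sa (TP (Fin 1 ⊕ E) A g) (RM (s2 g s) (t2 g t) (Sum.elim y a)) =
      y 0 * sa (TP E A g) (RM s t a) + sF (TP E A g) (RM s t a) := by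
  have hy : y = ![y 0] := by
    funext i; fin_cases i; rfl
  have h := bd_cmp ![y 0, 1, 0, 1, 0] (TP E A g) (RM s t a)
  unfold s2 t2
  rw [sa, BD_edges]
  refine Eq.trans ?_ (h.trans ?_)
  · rw [hy]
    rfl
  · simp

lemma RM2_b (g : Fin 2 → W) (s t : E → Option W) (y : Fin 1 → A) (a : E → A) :
    sb (TP (Fin 1 ⊕ E) A g) (RM (s2 g s) (t2 g t) (Sum.elim y a)) =
      y 0 * sb (TP E A g) (RM s t a) + sF (TP E A g) (RM s t a) := by
  have hy : y = ![y 0] := by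
    funext i; fin_cases i; rfl
  have h := bd_cmp ![y 0, 0, 1, 0, 1] (TP E A g) (RM s t a)
  unfold s2 t2
  rw [sb, BD_edges]
  refine Eq.trans ?_ (h.trans ?_)
  · rw [hy]
    rfl
  · simp

lemma RM2_r (g : Fin 2 → W) (s t : E → Option W) (y : Fin 1 → A) (a : E → A) :
    sr (TP (Fin 1 ⊕ E) A g) (RM (s2 g s) (t2 g t) (Sum.elim y a)) =
      y 0 * sr (TP E A g) (RM s t a) + sF (TP E A g) (RM s t a) := by
  have hy : y = ![y 0] := by
    funext i; fin_cases i; rfl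
  have h := bd_cmp ![y 0, 1, 0, 0, 1] (TP E A g) (RM s t a)
  unfold s2 t2
  rw [sr, BD_edges]
  refine Eq.trans ?_ (h.trans ?_)
  · rw [hy]
    rfl
  · simp

lemma RM2_F (g : Fin 2 → W) (s t : E → Option W) (y : Fin 1 → A) (a : E → A) :
    sF (TP (Fin 1 ⊕ E) A g) (RM (s2 g s) (t2 g t) (Sum.elim y a)) =
      y 0 * sF (TP E A g) (RM s t a) := by
  have h := bd_cmpF y (TP E A g) (RM s t a)
  unfold s2 t2
  rw [sF, BD_edges]
  exact h

/-! ### The contraction -/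

lemma contr_c (w₀ : W) (s t : E → Option (Fin 1 ⊕ W)) (a : E → A) :
    (RM (fun e => cpi w₀ (s e)) (fun e => cpi w₀ (t e)) a).det =
      sa (TP E A ![Sum.inr w₀, Sum.inl 0]) (RM s t a) +
        sb (TP E A ![Sum.inr w₀, Sum.inl 0]) (RM s t a) -
        sr (TP E A ![Sum.inr w₀, Sum.inl 0]) (RM s t a) -
        sr (TP E A ![Sum.inr w₀, Sum.inl 0]) (RM s t a) := by
  rw [← RM_contr]
  have h := RM_edges (![some 0] : Fin 1 → Option (Fin 2)) ![some 1] ![Sum.inr w₀, Sum.inl 0] s t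
    (0 : Fin 1 → A) a
  rw [bd_pq, sr_symm, Pi.zero_apply, zero_mul, zero_add] at h
  rw [← h]
  congr 2
  · congr 1
    funext i; fin_cases i; rfl
  · congr 1
    funext i; fin_cases i; rfl

lemma contr_cF (w₀ : W) (s t : E → Option (Fin 1 ⊕ W)) (x : Fin 1 ⊕ E → A) :
    (RM (Sum.elim (fun _ => some w₀) (fun e => cpi w₀ (s e)))
      (Sum.elim (fun _ => none) (fun e => cpi w₀ (t e))) x).det =
      x (Sum.inl 0) * (sa (TP E A ![Sum.inr w₀, Sum.inl 0]) (RM s t (x ∘ Sum.inr)) +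
        sb (TP E A ![Sum.inr w₀, Sum.inl 0]) (RM s t (x ∘ Sum.inr)) -
        sr (TP E A ![Sum.inr w₀, Sum.inl 0]) (RM s t (x ∘ Sum.inr)) -
        sr (TP E A ![Sum.inr w₀, Sum.inl 0]) (RM s t (x ∘ Sum.inr))) +
        sF (TP E A ![Sum.inr w₀, Sum.inl 0]) (RM s t (x ∘ Sum.inr)) := by
  have h1 := RM_contr w₀ (Sum.elim (fun _ : Fin 1 => some (Sum.inr w₀)) s)
    (Sum.elim (fun _ : Fin 1 => none) t) x
  have h2 := RM_edges (![some 0] : Fin 1 → Option (Fin 2)) ![some 1] ![Sum.inr w₀, Sum.inl 0]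
    (Sum.elim (fun _ : Fin 1 => some (Sum.inr w₀)) s)
    (Sum.elim (fun _ : Fin 1 => none) t) (0 : Fin 1 → A) x
  have h3 := BD_edges (diagonal (0 : Fin 1 → A)) (gi ![some 0] ![some 1]) (gi ![some 0] ![some 1])
    (![some 0] : Fin 1 → Option (Fin 2)) ![none] ![Sum.inr w₀, Sum.inl 0] s t (x ∘ Sum.inl)
    (x ∘ Sum.inr)
  have h4 := bd_two' ![0, x (Sum.inl 0)] (TP E A ![Sum.inr w₀, Sum.inl 0])
    (RM s t (x ∘ Sum.inr))
  have e1 : (fun e => cpi w₀ (Sum.elim (fun _ : Fin 1 => some (Sum.inr w₀)) s e)) =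
      Sum.elim (fun _ => some w₀) (fun e => cpi w₀ (s e)) := by
    funext e
    rcases e with e | e <;> rfl
  have e2 : (fun e => cpi w₀ (Sum.elim (fun _ : Fin 1 => none) t e)) =
      Sum.elim (fun _ => none) (fun e => cpi w₀ (t e)) := by
    funext e
    rcases e with e | e <;> rfl
  have e3 : (fun κ => ((![some 0] : Fin 1 → Option (Fin 2)) κ).map
      (![Sum.inr w₀, Sum.inl 0] : Fin 2 → Fin 1 ⊕ W)) = fun _ => some (Sum.inr w₀) := by
    funext i; fin_cases i; rfl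
  have e4 : (fun κ => ((![some 1] : Fin 1 → Option (Fin 2)) κ).map
      (![Sum.inr w₀, Sum.inl 0] : Fin 2 → Fin 1 ⊕ W)) = fun _ => some (Sum.inl 0) := by
    funext i; fin_cases i; rfl
  have e5 : (fun κ => ((![none] : Fin 1 → Option (Fin 2)) κ).map
      (![Sum.inr w₀, Sum.inl 0] : Fin 2 → Fin 1 ⊕ W)) = fun _ => none := by
    funext i; fin_cases i; rfl
  have e6 : Sum.elim (x ∘ Sum.inl) (x ∘ Sum.inr) = x := Sum.elim_comp_inl_inr x
  have e7 : (diagonal (0 : Fin 1 → A)) = diagonal ![![0, x (Sum.inl 0)] 0] := by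
    congr 1
    funext i; fin_cases i; rfl
  have e8 : (diagonal (x ∘ Sum.inl) : Matrix (Fin 1) (Fin 1) A) =
      diagonal ![![0, x (Sum.inl 0)] 1] := by
    congr 1
    funext i; fin_cases i; rfl
  rw [e1, e2] at h1
  rw [e3, e4] at h2
  rw [e3, e5, e6, e8] at h3
  rw [← h1, h2, h3, e7, h4, sr_symm]
  simp

/-! ### Algebra -/

/-- the set `c = F = 0` -/
theorem gd_cF (hG : RG G) (s t : E → Option W) (g : Fin 2 → W)
    (h1 : Gd G (fun A _ x => (RM s t x).det = 0 ∧ sa (TP E A g) (RM s t x) = 0 ∧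
      sb (TP E A g) (RM s t x) = 0 ∧ sr (TP E A g) (RM s t x) = 0 ∧
      sF (TP E A g) (RM s t x) = 0 : Pd E))
    (h2 : Gd G (fun A _ x => (RM (s2 g s) (t2 g t) x).det = 0 ∧
      sa (TP (Fin 1 ⊕ E) A g) (RM (s2 g s) (t2 g t) x) = 0 ∧
      sb (TP (Fin 1 ⊕ E) A g) (RM (s2 g s) (t2 g t) x) = 0 ∧
      sr (TP (Fin 1 ⊕ E) A g) (RM (s2 g s) (t2 g t) x) = 0 ∧
      sF (TP (Fin 1 ⊕ E) A g) (RM (s2 g s) (t2 g t) x) = 0 : Pd (Fin 1 ⊕ E)))
    (c F : MvPolynomial E ℤ)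
    (hc : ∀ (A : Type) [CommRing A] (x : E → A), ev x c = sa (TP E A g) (RM s t x) +
      sb (TP E A g) (RM s t x) - sr (TP E A g) (RM s t x) - sr (TP E A g) (RM s t x))
    (hF : ∀ (A : Type) [CommRing A] (x : E → A), ev x F = sF (TP E A g) (RM s t x)) :
    Gd G (fun A _ x => ev x c = 0 ∧ ev x F = 0 : Pd E) := by
  have h3 : Gd G (fun A _ x => (x (Sum.inl 0) * (RM s t (x ∘ Sum.inr)).det +
        ev (x ∘ Sum.inr) c = 0 ∧
      x (Sum.inl 0) * sa (TP E A g) (RM s t (x ∘ Sum.inr)) + ev (x ∘ Sum.inr) F = 0 ∧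
      x (Sum.inl 0) * sb (TP E A g) (RM s t (x ∘ Sum.inr)) + ev (x ∘ Sum.inr) F = 0 ∧
      x (Sum.inl 0) * sr (TP E A g) (RM s t (x ∘ Sum.inr)) + ev (x ∘ Sum.inr) F = 0 ∧
      x (Sum.inl 0) * ev (x ∘ Sum.inr) F = 0) : Pd (Fin 1 ⊕ E)) := by
    refine h2.congr fun A _ x => ?_
    have e6 : Sum.elim (x ∘ Sum.inl) (x ∘ Sum.inr) = x := Sum.elim_comp_inl_inr x
    have q1 := RM2_det g s t (x ∘ Sum.inl) (x ∘ Sum.inr)
    have q2 := RM2_a g s t (x ∘ Sum.inl) (x ∘ Sum.inr)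
    have q3 := RM2_b g s t (x ∘ Sum.inl) (x ∘ Sum.inr)
    have q4 := RM2_r g s t (x ∘ Sum.inl) (x ∘ Sum.inr)
    have q5 := RM2_F g s t (x ∘ Sum.inl) (x ∘ Sum.inr)
    rw [e6] at q1 q2 q3 q4 q5
    rw [q1, q2, q3, q4, q5, hc, hF]
    rfl
  -- the part where `y` is invertible
  have h4 : Gd G (fun A _ x => ((x (Sum.inl 0) * (RM s t (x ∘ Sum.inr)).det +
        ev (x ∘ Sum.inr) c = 0 ∧
      x (Sum.inl 0) * sa (TP E A g) (RM s t (x ∘ Sum.inr)) + ev (x ∘ Sum.inr) F = 0 ∧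
      x (Sum.inl 0) * sb (TP E A g) (RM s t (x ∘ Sum.inr)) + ev (x ∘ Sum.inr) F = 0 ∧
      x (Sum.inl 0) * sr (TP E A g) (RM s t (x ∘ Sum.inr)) + ev (x ∘ Sum.inr) F = 0 ∧
      x (Sum.inl 0) * ev (x ∘ Sum.inr) F = 0) ∧ IsUnit (ev x (X (Sum.inl 0)))) :
        Pd (Fin 1 ⊕ E)) := by
    refine (Gd.gm hG (Gd.ext hG (Sum.inr : E → Fin 1 ⊕ E) Sum.inr_injective h1) (Sum.inl 0)
      (fr_inr (κ := Fin 1) 0 (fun A _ x => (RM s t x).det = 0 ∧ sa (TP E A g) (RM s t x) = 0 ∧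
        sb (TP E A g) (RM s t x) = 0 ∧ sr (TP E A g) (RM s t x) = 0 ∧
        sF (TP E A g) (RM s t x) = 0 : Pd E))).congr fun A _ x => ?_
    rw [ev_X]
    show (((RM s t (x ∘ Sum.inr)).det = 0 ∧ sa (TP E A g) (RM s t (x ∘ Sum.inr)) = 0 ∧
      sb (TP E A g) (RM s t (x ∘ Sum.inr)) = 0 ∧ sr (TP E A g) (RM s t (x ∘ Sum.inr)) = 0 ∧
      sF (TP E A g) (RM s t (x ∘ Sum.inr)) = 0) ∧ IsUnit (x (Sum.inl 0))) ↔ _
    have q1 := hc A (x ∘ Sum.inr)
    have q2 := hF A (x ∘ Sum.inr)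
    generalize ev (x ∘ Sum.inr) c = c' at *
    generalize ev (x ∘ Sum.inr) F = F' at *
    rw [← q2]
    generalize (RM s t (x ∘ Sum.inr)).det = T' at *
    generalize sa (TP E A g) (RM s t (x ∘ Sum.inr)) = a' at *
    generalize sb (TP E A g) (RM s t (x ∘ Sum.inr)) = b' at *
    generalize sr (TP E A g) (RM s t (x ∘ Sum.inr)) = r' at *
    constructor
    · rintro ⟨⟨hT, ha, hb, hr, hF⟩, hu⟩
      rw [hT, ha, hb, hr, hF, q1, ha, hb, hr]
      simp [hu]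
    · rintro ⟨⟨p1, p2, p3, p4, p5⟩, hu⟩
      have hF' := (hu.mul_right_eq_zero).mp p5
      rw [hF', add_zero] at p2 p3 p4
      have ha := (hu.mul_right_eq_zero).mp p2
      have hb := (hu.mul_right_eq_zero).mp p3
      have hr := (hu.mul_right_eq_zero).mp p4
      have hc' : c' = 0 := by rw [q1, ha, hb, hr]; simp
      rw [hc', add_zero] at p1
      exact ⟨⟨(hu.mul_right_eq_zero).mp p1, ha, hb, hr, hF'⟩, hu⟩
  have h5 := Gd.closed hG h3 (X (Sum.inl 0)) h4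
  have hR : Rp (fun A _ x => ev x c = 0 ∧ ev x F = 0 : Pd E) := by
    refine ((rp_true.zero c).zero F).congr fun A _ x => ?_
    rw [true_and]
  have hR' : Rp (fun A _ x => (ev (fun i => x (Sum.inr i)) c = 0 ∧
      ev (fun i => x (Sum.inr i)) F = 0) : Pd (Fin 1 ⊕ E)) := rp_ext Sum.inr hR
  refine Gd.unext hG (Sum.inr : E → Fin 1 ⊕ E) Sum.inr_injective hR ?_
  refine Gd.unsolve hG h5 hR' (Sum.inl 0)
    (fr_inr (κ := Fin 1) 0 (fun A _ x => ev x c = 0 ∧ ev x F = 0 : Pd E)) 1 0 (by simp) (by simp)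
    (fun A _ x _ => by rw [map_one]; exact isUnit_one) fun A _ x => ?_
  rw [ev_X, map_one, map_zero, mul_one, add_zero]
  show _ ↔ (ev (x ∘ Sum.inr) c = 0 ∧ ev (x ∘ Sum.inr) F = 0) ∧ x (Sum.inl 0) = 0
  constructor
  · rintro ⟨⟨p1, p2, _, _, _⟩, p6⟩
    rw [p6, zero_mul, zero_add] at p1 p2
    exact ⟨⟨p1, p2⟩, p6⟩
  · rintro ⟨⟨p1, p2⟩, p6⟩
    rw [p1, p2, p6]
    simp

/-- the hypersurface `z c + F = 0` -/
theorem gd_lin (hG : RG G) (hpt : GS G (∅ : Set (MvPolynomial Empty ℤ))) (c F : MvPolynomial E ℤ)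
    (hc : Gd G (fun A _ x => ev x c = 0 : Pd E))
    (hcF : Gd G (fun A _ x => ev x c = 0 ∧ ev x F = 0 : Pd E)) :
    Gd G (fun A _ x => x (Sum.inl 0) * ev (x ∘ Sum.inr) c + ev (x ∘ Sum.inr) F = 0 :
      Pd (Fin 1 ⊕ E)) := by
  have hR : Rp (fun A _ x => x (Sum.inl 0) * ev (x ∘ Sum.inr) c + ev (x ∘ Sum.inr) F = 0 :
      Pd (Fin 1 ⊕ E)) := by
    refine (rp_true.zero (X (Sum.inl 0) * rename Sum.inr c + rename Sum.inr F)).congr
      fun A _ x => ?_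
    rw [true_and, map_add, map_mul, ev_X, ev_rename, ev_rename]
    rfl
  refine Gd.glue hG hR (rename Sum.inr c) ?_ ?_
  · refine (Gd.ext hG (Sum.inr : E → Fin 1 ⊕ E) Sum.inr_injective hcF).congr fun A _ x => ?_
    rw [ev_rename]
    show (ev (x ∘ Sum.inr) c = 0 ∧ ev (x ∘ Sum.inr) F = 0) ↔
      (x (Sum.inl 0) * ev (x ∘ Sum.inr) c + ev (x ∘ Sum.inr) F = 0 ∧ ev (x ∘ Sum.inr) c = 0)
    constructor
    · rintro ⟨p1, p2⟩
      rw [p1, p2]
      simp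
    · rintro ⟨p1, p2⟩
      rw [p2, mul_zero, zero_add] at p1
      exact ⟨p2, p1⟩
  · have h1 : Gd G (fun A _ x => True ∧ IsUnit (ev x c) : Pd E) := by
      refine Gd.opn hG ((Gd.of_gs hG (gs_affine hG hpt E)).congr fun A _ x => ?_) c
        (hc.congr fun A _ x => ?_)
      · simp [Pt]
      · rw [true_and]
    refine Gd.solve hG (Gd.ext hG (Sum.inr : E → Fin 1 ⊕ E) Sum.inr_injective h1) (Sum.inl 0)
      (fr_inr (κ := Fin 1) 0 (fun A _ x => True ∧ IsUnit (ev x c) : Pd E)) (rename Sum.inr c)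
      (rename Sum.inr F) (by simp) (by simp) (fun A _ x hx => ?_) fun A _ x => ?_
    · rw [ev_rename]
      exact hx.2
    · rw [ev_rename, ev_rename]
      show (x (Sum.inl 0) * ev (x ∘ Sum.inr) c + ev (x ∘ Sum.inr) F = 0 ∧
        IsUnit (ev (x ∘ Sum.inr) c)) ↔ ((True ∧ IsUnit (ev (x ∘ Sum.inr) c)) ∧
        x (Sum.inl 0) * ev (x ∘ Sum.inr) c + ev (x ∘ Sum.inr) F = 0)
      tauto

end

end Pool.Agent.Phi4
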