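import Pool.Agent.Phi4.Split

/-!
# The induction step
-/

set_option autoImplicit false
set_option linter.unusedSectionVars false

open Matrix MvPolynomial
open Pool.Agent.Helper81.CP Pool.Agent.Helper81.HG
open Pool.Agent.KB (gs_affine)

namespace Pool.Agent.Phi4

variable {G : ∀ (R : Type) [CommRing R], Prop}

section

variable {E W : Type} [Fintype E] [DecidableEq E] [Fintype W] [DecidableEq W]

/-- an end of an edge after splitting the vertex `w₀` -/
def lft (w₀ : W) (S : Finset E) (x : Option W) (e : E) : Option (Fin 1 ⊕ W) :=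
  if x = some w₀ ∧ e ∉ S then some (Sum.inl 0) else x.map Sum.inr

lemma cpi_lft (w₀ : W) (S : Finset E) (x : Option W) (e : E) : cpi w₀ (lft w₀ S x e) = x := by
  unfold lft cpi
  split_ifs with h
  · rw [h.1]; rfl
  · rcases x with _ | w
    · rfl
    · rfl

lemma lft_none (w₀ : W) (S : Finset E) (x : Option W) (e : E) : lft w₀ S x e = none ↔ x = none := by
  unfold lft
  split_ifs with h
  · simp [h.1]
  · simp

lemma lft_q (w₀ : W) (S : Finset E) (x : Option W) (e : E) :
    lft w₀ S x e = some (Sum.inl 0) ↔ x = some w₀ ∧ e ∉ S := by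
  unfold lft
  split_ifs with h
  · simp [h]
  · constructor
    · intro h'
      rcases x with _ | w
      · exact absurd h' (by simp)
      · exact absurd h' (by simp)
    · intro h'
      exact absurd h' h

lemma lft_w (w₀ : W) (S : Finset E) (x : Option W) (e : E) (w : W) (hw : w ≠ w₀) :
    lft w₀ S x e = some (Sum.inr w) ↔ x = some w := by
  unfold lft
  split_ifs with h
  · constructor
    · intro h'
      exact absurd h' (by simp)
    · intro h'
      rw [h'] at h
      exact absurd (Option.some_injective _ h.1) hw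
  · rcases x with _ | w'
    · simp
    · simp

lemma lft_p (w₀ : W) (S : Finset E) (x : Option W) (e : E) :
    lft w₀ S x e = some (Sum.inr w₀) ↔ x = some w₀ ∧ e ∈ S := by
  unfold lft
  split_ifs with h
  · constructor
    · intro h'
      exact absurd h' (by simp)
    · intro h'
      exact absurd h'.2 h.2
  · rcases x with _ | w'
    · simp
    · constructor
      · intro h'
        have h2 : w' = w₀ := by simpa using h'
        subst h2
        refine ⟨rfl, ?_⟩
        by_contra h3
        exact h ⟨rfl, h3⟩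
      · intro h'
        rw [h'.1]
        rfl

lemma dg_ite (s t : E → Option W) (w₀ : W) (hl : ∀ e, s e ≠ t e) (e : E) :
    (if s e = some w₀ then 1 else 0) + (if t e = some w₀ then 1 else 0) =
      (if s e = some w₀ ∨ t e = some w₀ then 1 else 0 : ℕ) := by
  by_cases h1 : s e = some w₀
  · have h2 : t e ≠ some w₀ := fun h => hl e (h1.trans h.symm)
    rw [if_pos h1, if_neg h2, if_pos (Or.inl h1)]
  · by_cases h2 : t e = some w₀
    · rw [if_neg h1, if_pos h2, if_pos (Or.inr h2)]
    · rw [if_neg h1, if_neg h2, if_neg (by tauto)]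

/-- the induction step -/
theorem step (hG : RG G) (hpt : GS G (∅ : Set (MvPolynomial Empty ℤ))) {n : ℕ} (hI : IH G n)
    (s t : E → Option W) (w₀ : W) (hl : ∀ e, s e ≠ t e) (hd : 4 ≤ dg s t (some w₀))
    (hn : exc (Sum.elim (fun _ : Fin 1 => some w₀) s) (Sum.elim (fun _ : Fin 1 => none) t) ≤ n) :
    GS G ({psi (Sum.elim (fun _ : Fin 1 => some w₀) s) (Sum.elim (fun _ : Fin 1 => none) t) none} :
      Set (MvPolynomial (Fin 1 ⊕ E) ℤ)) := by
  have hcard : dg s t (some w₀) =
      (Finset.univ.filter fun e => s e = some w₀ ∨ t e = some w₀).card := by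
    unfold dg
    rw [Finset.card_filter]
    exact Finset.sum_congr rfl fun e _ => dg_ite s t w₀ hl e
  obtain ⟨S, hS, hS2⟩ := Finset.exists_subset_card_eq (show 2 ≤ (Finset.univ.filter fun e =>
    s e = some w₀ ∨ t e = some w₀).card by rw [← hcard]; omega)
  set sH : E → Option (Fin 1 ⊕ W) := fun e => lft w₀ S (s e) e with hsH
  set tH : E → Option (Fin 1 ⊕ W) := fun e => lft w₀ S (t e) e with htH
  have cs : (fun e => cpi w₀ (sH e)) = s := funext fun e => cpi_lft w₀ S (s e) e
  have ct : (fun e => cpi w₀ (tH e)) = t := funext fun e => cpi_lft w₀ S (t e) e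
  have hlH : ∀ e, sH e ≠ tH e := by
    intro e h
    have := congrArg (cpi w₀) h
    exact hl e ((congrFun cs e).symm.trans (this.trans (congrFun ct e)))
  -- degrees
  have d0 : dg sH tH none = dg s t none := by
    unfold dg
    simp only [hsH, htH, lft_none]
  have dw : ∀ w, w ≠ w₀ → dg sH tH (some (Sum.inr w)) = dg s t (some w) := by
    intro w hw
    unfold dg
    simp only [hsH, htH, lft_w w₀ S _ _ w hw]
  have dp' : dg sH tH (some (Sum.inr w₀)) = ∑ e, ((if s e = some w₀ ∧ e ∈ S then 1 else 0) +
      (if t e = some w₀ ∧ e ∈ S then 1 else 0)) := by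
    unfold dg
    simp only [hsH, htH, lft_p]
  have dp : dg sH tH (some (Sum.inr w₀)) = 2 := by
    rw [dp', ← hS2, Finset.card_eq_sum_ones, ← Finset.sum_filter_add_sum_filter_not Finset.univ
      (fun e => e ∈ S)]
    rw [Finset.sum_eq_zero (s := Finset.univ.filter fun e => ¬ e ∈ S), add_zero]
    · refine Finset.sum_congr (by ext; simp) fun e he => ?_
      have he' : e ∈ S := by simpa using he
      have h1 : s e = some w₀ ∨ t e = some w₀ := by simpa using hS he'
      have h2 := dg_ite s t w₀ hl e
      rw [if_pos h1] at h2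
      simp only [he', and_true]
      exact h2
    · intro e he
      have he' : e ∉ S := by simpa using he
      simp [he']
  have dq : dg sH tH (some (Sum.inl 0)) + 2 = dg s t (some w₀) := by
    have h1 : dg sH tH (some (Sum.inl 0)) = ∑ e, ((if s e = some w₀ ∧ e ∉ S then 1 else 0) +
      (if t e = some w₀ ∧ e ∉ S then 1 else 0)) := by
      unfold dg
      simp only [hsH, htH, lft_q]
    rw [← dp, dp', h1, ← Finset.sum_add_distrib]
    unfold dg
    refine Finset.sum_congr rfl fun e _ => ?_
    by_cases he : e ∈ S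
    · simp [he]
    · simp [he]
  -- the terminals
  set g : Fin 2 → Fin 1 ⊕ W := ![Sum.inr w₀, Sum.inl 0] with hg
  have hg01 : g 0 ≠ g 1 := by simp [hg]
  have d2 : ∀ v, dg (s2 g sH) (t2 g tH) v = dg sH tH v +
      ((if v = some (Sum.inr w₀) then 1 else 0) + (if v = some (Sum.inl 0) then 1 else 0)) := by
    intro v
    have h1 := dg_add (id : Option (Fin 1 ⊕ W) → Option (Fin 1 ⊕ W)) Function.injective_id
      (fun κ => ((![some 0] : Fin 1 → Option (Fin 2)) κ).map g)
      (fun κ => ((![some 1] : Fin 1 → Option (Fin 2)) κ).map g) sH tH v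
    refine Eq.trans h1 ?_
    rw [add_comm]
    congr 1
    unfold dg
    rw [Fin.sum_univ_one]
    simp [hg, eq_comm]
  have hl2 : ∀ e, s2 g sH e ≠ t2 g tH e := by
    rintro (κ | e)
    · fin_cases κ
      simp [s2, t2, hg]
    · exact hlH e
  -- the excess
  have hG0 : dg (Sum.elim (fun _ : Fin 1 => some w₀) s) (Sum.elim (fun _ : Fin 1 => none) t) none =
      dg s t none + 1 := by
    have h1 := dg_add (id : Option W → Option W) Function.injective_id
      (fun _ : Fin 1 => some w₀) (fun _ => none) s t none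
    refine Eq.trans h1 ?_
    rw [add_comm]
    simp [dg]
  have hG1 : dg (Sum.elim (fun _ : Fin 1 => some w₀) s) (Sum.elim (fun _ : Fin 1 => none) t)
      (some w₀) = dg s t (some w₀) + 1 := by
    have h1 := dg_add (id : Option W → Option W) Function.injective_id
      (fun _ : Fin 1 => some w₀) (fun _ => none) s t (some w₀)
    refine Eq.trans h1 ?_
    rw [add_comm]
    simp [dg]
  have hG2 : ∀ w, w ≠ w₀ → dg (Sum.elim (fun _ : Fin 1 => some w₀) s)
      (Sum.elim (fun _ : Fin 1 => none) t) (some w) = dg s t (some w) := by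
    intro w hw
    have h1 := dg_add (id : Option W → Option W) Function.injective_id
      (fun _ : Fin 1 => some w₀) (fun _ => none) s t (some w)
    refine Eq.trans h1 ?_
    rw [add_comm]
    simp [dg, hw.symm]
  have hsum : ∑ v, (dg (s2 g sH) (t2 g tH) v + bt g v - 4) < n := by
    refine lt_of_lt_of_le ?_ hn
    have b0 : bt g none = 1 := by simp [bt]
    have b1 : bt g (some (Sum.inl 0)) = 1 := by simp [bt, hg]
    have b2 : bt g (some (Sum.inr w₀)) = 1 := by simp [bt, hg]
    have b3 : ∀ w, w ≠ w₀ → bt g (some (Sum.inr w)) = 0 := by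
      intro w hw
      simp [bt, hg, hw]
    have e0 : dg (s2 g sH) (t2 g tH) none = dg s t none := by
      rw [d2, d0]; simp
    have e1 : dg (s2 g sH) (t2 g tH) (some (Sum.inl 0)) = dg sH tH (some (Sum.inl 0)) + 1 := by
      rw [d2]; simp
    have e2 : dg (s2 g sH) (t2 g tH) (some (Sum.inr w₀)) = 3 := by
      rw [d2, dp]; simp
    have e3 : ∀ w, w ≠ w₀ → dg (s2 g sH) (t2 g tH) (some (Sum.inr w)) = dg s t (some w) := by
      intro w hw
      rw [d2, dw w hw]; simp [hw]
    unfold exc
    rw [Fintype.sum_option, Fintype.sum_option, Fintype.sum_sum_type, Fin.sum_univ_one,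
      ← Finset.add_sum_erase _ _ (Finset.mem_univ w₀),
      ← Finset.add_sum_erase Finset.univ _ (Finset.mem_univ w₀)]
    have hrest : ∑ x ∈ Finset.univ.erase w₀, (dg (s2 g sH) (t2 g tH) (some (Sum.inr x)) +
        bt g (some (Sum.inr x)) - 4) = ∑ x ∈ Finset.univ.erase w₀,
        (dg (Sum.elim (fun _ : Fin 1 => some w₀) s) (Sum.elim (fun _ : Fin 1 => none) t) (some x) -
          4) := by
      refine Finset.sum_congr rfl fun w hw => ?_
      have hw' : w ≠ w₀ := Finset.ne_of_mem_erase hw
      rw [e3 w hw', b3 w hw', hG2 w hw', add_zero]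
    rw [hrest, hG0, hG1, e0, e1, e2, b0, b1, b2]
    omega
  have hsum1 : ∑ v, (dg sH tH v + bt g v - 4) < n := by
    refine lt_of_le_of_lt (Finset.sum_le_sum fun v _ => ?_) hsum
    rw [d2]
    omega
  -- the states
  have h1 := pg_zero hG hpt hI sH tH hlH g hg01 hsum1
  have h2 := pg_zero hG hpt hI (s2 g sH) (t2 g tH) hl2 g hg01 hsum
  let M : Matrix (E ⊕ (Fin 1 ⊕ W)) (E ⊕ (Fin 1 ⊕ W)) (MvPolynomial E ℤ) := RM sH tH X
  let c : MvPolynomial E ℤ := sa (TP E (MvPolynomial E ℤ) g) M + sb (TP E (MvPolynomial E ℤ) g) M -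
    sr (TP E (MvPolynomial E ℤ) g) M - sr (TP E (MvPolynomial E ℤ) g) M
  let F : MvPolynomial E ℤ := sF (TP E (MvPolynomial E ℤ) g) M
  have hc : ∀ (A : Type) [CommRing A] (x : E → A), ev x c = sa (TP E A g) (RM sH tH x) +
      sb (TP E A g) (RM sH tH x) - sr (TP E A g) (RM sH tH x) - sr (TP E A g) (RM sH tH x) := by
    intro A _ x
    show ev x (_ + _ - _ - _) = _
    rw [map_sub, map_sub, map_add, map_sa, map_sb, map_sr, map_TP, ev_RM]
  have hF : ∀ (A : Type) [CommRing A] (x : E → A), ev x F = sF (TP E A g) (RM sH tH x) := by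
    intro A _ x
    show ev x (sF _ _) = _
    rw [map_sF, map_TP, ev_RM]
  have hcF := gd_cF hG sH tH g h1 h2 c F hc hF
  -- the graph without the edge
  have hcG : Gd G (fun A _ x => ev x c = 0 : Pd E) := by
    have h3 : GS G ({psi s t none} : Set (MvPolynomial E ℤ)) := by
      refine hI _ _ s t none hl (lt_of_lt_of_le ?_ hn)
      unfold exc
      rw [Fintype.sum_option, Fintype.sum_option,
        ← Finset.add_sum_erase _ _ (Finset.mem_univ w₀),
        ← Finset.add_sum_erase Finset.univ (fun w => dg (Sum.elim (fun _ : Fin 1 => some w₀) s)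
          (Sum.elim (fun _ : Fin 1 => none) t) (some w) - 4) (Finset.mem_univ w₀)]
      have hrest : ∑ x ∈ Finset.univ.erase w₀, (dg (Sum.elim (fun _ : Fin 1 => some w₀) s)
          (Sum.elim (fun _ : Fin 1 => none) t) (some x) - 4) =
          ∑ x ∈ Finset.univ.erase w₀, (dg s t (some x) - 4) := by
        refine Finset.sum_congr rfl fun w hw => ?_
        rw [hG2 w (Finset.ne_of_mem_erase hw)]
      rw [hrest, hG0, hG1]
      omega
    refine (Gd.of_gs hG h3).congr fun A _ x => ?_
    rw [hc, ← contr_c, cs, ct, ← DD_RM, ← ev_psi]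
    constructor
    · intro h4
      exact h4 _ rfl
    · rintro h4 _ rfl
      exact h4
  refine Gd.gs hG (gd_lin hG hpt c F hcG hcF) fun A _ x => ?_
  have h5 := contr_cF w₀ sH tH x
  rw [cs, ct] at h5
  rw [hc, hF, ← h5, ← DD_RM, ← ev_psi]
  constructor
  · rintro h4 _ rfl
    exact h4
  · intro h4
    exact h4 _ rfl

end

end Pool.Agent.Phi4
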