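import Pool.Agent.Phi4.Ev

/-!
# The polynomial of the triangle with legs
-/

set_option autoImplicit false
set_option linter.unusedSectionVars false

open Matrix MvPolynomial

namespace Pool.Agent.Phi4

section

variable {E W K N k n A B : Type} [CommRing A] [CommRing B] [DecidableEq W] [DecidableEq N]
  [DecidableEq E] [Fintype E] [Fintype W] [DecidableEq K] [Fintype K] [Fintype N]
  [DecidableEq k] [Fintype k] [DecidableEq n] [Fintype n]

/-- elimination of the legs -/
lemma det_legs (Y Q R : Matrix k k A) :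
    (fromBlocks (fromBlocks Y 0 0 Q) (fromRows R (-1)) (-(fromRows R (-1))ᵀ) 0).det =
      (Y + R * Q * Rᵀ).det := by
  let D : Matrix (k ⊕ k) (k ⊕ k) A := fromBlocks Q (-1) 1 0
  let D' : Matrix (k ⊕ k) (k ⊕ k) A := fromBlocks 0 1 (-1) Q
  have hDD' : D * D' = 1 := by
    simp only [D, D', fromBlocks_multiply]
    rw [← fromBlocks_one]
    congr 1 <;> simp
  have hinvD : Invertible D := invertibleOfRightInverse _ _ hDD'
  have hD' : ⅟D = D' := invOf_eq_right_inv hDD'
  have hdetD : D.det = 1 := by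
    have h1 : D * fromBlocks 1 0 (Q - 1) 1 = fromBlocks 1 (-1) 1 0 := by
      simp only [D, fromBlocks_multiply]
      congr 1 <;> simp
    have h2 := congrArg Matrix.det h1
    rw [det_mul, det_fromBlocks_zero₁₂, det_one, mul_one, mul_one,
      det_fromBlocks_one₁₁] at h2
    rw [h2]
    simp
  have hM : (fromBlocks (fromBlocks Y 0 0 Q) (fromRows R (-1)) (-(fromRows R (-1))ᵀ) 0).submatrix
      (Equiv.sumAssoc k k k).symm (Equiv.sumAssoc k k k).symm =
      fromBlocks Y (fromCols 0 R) (fromRows 0 (-Rᵀ)) D := by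
    ext i j
    rcases i with i | i | i <;> rcases j with j | j | j <;>
      simp [D, Matrix.one_apply, eq_comm]
  rw [← det_submatrix_equiv_self (Equiv.sumAssoc k k k).symm, hM, det_fromBlocks₂₂, hdetD, one_mul,
    hD']
  congr 1
  simp only [D']
  rw [fromCols_mul_fromBlocks, fromCols_mul_fromRows]
  simp [Matrix.mul_assoc]

/-- sources of the triangle with legs -/
def sD : Fin 3 ⊕ Fin 3 → Option (Fin 3 ⊕ Fin 2) :=
  Sum.elim ![some (Sum.inl 1), some (Sum.inl 2), some (Sum.inl 0)]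
    ![some (Sum.inr 0), some (Sum.inr 1), none]

/-- targets of the triangle with legs -/
def tD : Fin 3 ⊕ Fin 3 → Option (Fin 3 ⊕ Fin 2) :=
  Sum.elim ![some (Sum.inl 2), some (Sum.inl 0), some (Sum.inl 1)]
    ![some (Sum.inl 0), some (Sum.inl 1), some (Sum.inl 2)]

/-- incidence matrix of the triangle -/
def R3 (A : Type) [CommRing A] : Matrix (Fin 3) (Fin 3) A := !![0, 1, -1; -1, 0, 1; 1, -1, 0]

/-- the legs -/
def C3 (A : Type) [CommRing A] : Matrix (Fin 3) (Fin 2) A := !![1, 0; 0, 1; 0, 0]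

lemma bd_tri_field {K : Type} [Field K] (y : Fin 3 ⊕ Fin 3 → K) (P : Matrix (Fin 2) n K)
    (M : Matrix n n K) (h : M.det ≠ 0) :
    BD (fromBlocks (diagonal y) ((gi sD tD).submatrix id Sum.inl)
        (-((gi sD tD).submatrix id Sum.inl)ᵀ) 0)
      (fromRows ((gi sD tD).submatrix id Sum.inr) 0) (fromRows ((gi sD tD).submatrix id Sum.inr) 0)
      P M = M.det * (diagonal (y ∘ Sum.inl) + R3 K *
        (diagonal (y ∘ Sum.inr) + C3 K * (P * M⁻¹ * Pᵀ) * (C3 K)ᵀ) * (R3 K)ᵀ).det := by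
  have h1 : (gi sD tD : Matrix _ _ K).submatrix id (Sum.inl : Fin 3 → _) =
      fromRows (R3 K) (-1) := by
    ext i j
    rcases i with i | i <;> fin_cases i <;> fin_cases j <;> simp [gi, sD, tD, R3]
  have h2 : (gi sD tD : Matrix _ _ K).submatrix id (Sum.inr : Fin 2 → _) =
      fromRows 0 (C3 K) := by
    ext i j
    rcases i with i | i <;> fin_cases i <;> fin_cases j <;> simp [gi, sD, tD, C3]
  rw [BD_field _ _ _ _ _ h, h1, h2]
  generalize P * M⁻¹ * Pᵀ = g
  rw [← det_legs]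
  congr 2
  have h3 : (fromRows (fromRows 0 (C3 K)) 0 : Matrix ((Fin 3 ⊕ Fin 3) ⊕ Fin 3) (Fin 2) K) * g *
      (fromRows (fromRows 0 (C3 K)) 0 : Matrix ((Fin 3 ⊕ Fin 3) ⊕ Fin 3) (Fin 2) K)ᵀ =
      fromBlocks (fromBlocks 0 0 0 (C3 K * g * (C3 K)ᵀ)) 0 0 0 := by
    ext i j
    rcases i with (i | i) | i <;> rcases j with (j | j) | j <;> simp [Matrix.mul_apply]
  rw [h3, fromBlocks_add, add_zero, add_zero, add_zero]
  congr 1
  ext i j
  rcases i with i | i <;> rcases j with j | j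
  · simp [diagonal_apply]
  · simp
  · simp
  · simp [diagonal_apply]

lemma bd_tri (y : Fin 3 ⊕ Fin 3 → A) (P : Matrix (Fin 2) n A) (M : Matrix n n A) :
    BD (fromBlocks (diagonal y) ((gi sD tD).submatrix id Sum.inl)
        (-((gi sD tD).submatrix id Sum.inl)ᵀ) 0)
      (fromRows ((gi sD tD).submatrix id Sum.inr) 0) (fromRows ((gi sD tD).submatrix id Sum.inr) 0)
      P M =
      (y (Sum.inl 0) + y (Sum.inl 1) + y (Sum.inl 2)) * M.det *
        (y (Sum.inr 0) * y (Sum.inr 1) + y (Sum.inr 0) * y (Sum.inr 2) +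
          y (Sum.inr 1) * y (Sum.inr 2)) +
      y (Sum.inr 0) * (y (Sum.inl 0) * (y (Sum.inl 1) + y (Sum.inl 2)) * M.det +
        (y (Sum.inl 0) + y (Sum.inl 1) + y (Sum.inl 2)) * sb P M) +
      y (Sum.inr 1) * (y (Sum.inl 1) * (y (Sum.inl 0) + y (Sum.inl 2)) * M.det +
        (y (Sum.inl 0) + y (Sum.inl 1) + y (Sum.inl 2)) * sa P M) +
      y (Sum.inr 2) * (y (Sum.inl 2) * (y (Sum.inl 0) + y (Sum.inl 1)) * M.det +
        (y (Sum.inl 0) + y (Sum.inl 1) + y (Sum.inl 2)) *
          (sa P M + sb P M - sr P M - sr' P M)) +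
      y (Sum.inl 0) * y (Sum.inl 1) * y (Sum.inl 2) * M.det +
      y (Sum.inl 1) * y (Sum.inl 2) * sb P M + y (Sum.inl 0) * y (Sum.inl 2) * sa P M +
      y (Sum.inl 0) * y (Sum.inl 1) * (sa P M + sb P M - sr P M - sr' P M) +
      (y (Sum.inl 0) + y (Sum.inl 1) + y (Sum.inl 2)) * sF P M := by
  refine univ (ι := Fin 3 ⊕ Fin 3) (fun A _ M P y =>
    BD (fromBlocks (diagonal y) ((gi sD tD).submatrix id Sum.inl)
        (-((gi sD tD).submatrix id Sum.inl)ᵀ) 0)
      (fromRows ((gi sD tD).submatrix id Sum.inr) 0) (fromRows ((gi sD tD).submatrix id Sum.inr) 0)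
      P M)
    (fun A _ M P y => (y (Sum.inl 0) + y (Sum.inl 1) + y (Sum.inl 2)) * M.det *
        (y (Sum.inr 0) * y (Sum.inr 1) + y (Sum.inr 0) * y (Sum.inr 2) +
          y (Sum.inr 1) * y (Sum.inr 2)) +
      y (Sum.inr 0) * (y (Sum.inl 0) * (y (Sum.inl 1) + y (Sum.inl 2)) * M.det +
        (y (Sum.inl 0) + y (Sum.inl 1) + y (Sum.inl 2)) * sb P M) +
      y (Sum.inr 1) * (y (Sum.inl 1) * (y (Sum.inl 0) + y (Sum.inl 2)) * M.det +
        (y (Sum.inl 0) + y (Sum.inl 1) + y (Sum.inl 2)) * sa P M) +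
      y (Sum.inr 2) * (y (Sum.inl 2) * (y (Sum.inl 0) + y (Sum.inl 1)) * M.det +
        (y (Sum.inl 0) + y (Sum.inl 1) + y (Sum.inl 2)) *
          (sa P M + sb P M - sr P M - sr' P M)) +
      y (Sum.inl 0) * y (Sum.inl 1) * y (Sum.inl 2) * M.det +
      y (Sum.inl 1) * y (Sum.inl 2) * sb P M + y (Sum.inl 0) * y (Sum.inl 2) * sa P M +
      y (Sum.inl 0) * y (Sum.inl 1) * (sa P M + sb P M - sr P M - sr' P M) +
      (y (Sum.inl 0) + y (Sum.inl 1) + y (Sum.inl 2)) * sF P M) ?_ ?_ ?_ A M P y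
  · intro A B _ _ φ M P w
    rw [map_BD]
    have h0 : ((gi sD tD : Matrix _ _ A).submatrix id (Sum.inl : Fin 3 → _)).map φ =
        (gi sD tD).submatrix id Sum.inl := by
      rw [← submatrix_map, map_gi]
    have h1 : ((gi sD tD : Matrix _ _ A).submatrix id (Sum.inr : Fin 2 → _)).map φ =
        (gi sD tD).submatrix id Sum.inr := by
      rw [← submatrix_map, map_gi]
    congr 1
    · rw [fromBlocks_map, map_diagonal', Matrix.map_neg _ (map_neg φ), transpose_map, h0]
      congr 1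
      ext i j
      simp
    · rw [fromRows_map, h1]
      congr 1
      ext i j
      simp
    · rw [fromRows_map, h1]
      congr 1
      ext i j
      simp
  · intro A B _ _ φ M P w
    simp only [map_add, map_mul, map_sub,
      map_sa, map_sb, map_sr, map_sr', map_sF, RingHom.map_det, RingHom.mapMatrix_apply]
    rfl
  · intro K _ M P w h
    rw [sa_field P M h, sb_field P M h, sr_field P M h, sr'_field P M h, sF_field P M h,
      bd_tri_field w P M h]
    generalize P * M⁻¹ * Pᵀ = g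
    rw [det_fin_three]
    simp only [Matrix.add_apply, Matrix.mul_apply, Fin.sum_univ_two, Fin.sum_univ_three,
      transpose_apply, diagonal_apply]
    simp [R3, C3]
    ring

end

end Pool.Agent.Phi4
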